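import Pool.Agent.Work.MP_245e03_an.Statement

/-!
# Basic theory of the James norm: good families, projections.
-/

open scoped BigOperators
open Finset

namespace JTree

section

variable {T : Type*} [PartialOrder T]

lemma famVal_le_norm {P : Finset (T × T)} (hP : IsFam P) (x : JFin T) : famVal P x ≤ ‖x‖ :=
  famVal_le_jnorm hP x

lemma sum_sq_le_norm_sq {P : Finset (T × T)} (hP : IsFam P) (x : JFin T) :
    ∑ p ∈ P, (sumOn (Set.Icc p.1 p.2) x) ^ 2 ≤ ‖x‖ ^ 2 := by
  rw [← famVal_sq]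
  have := famVal_le_norm hP x
  have := famVal_nonneg P x
  gcongr

lemma norm_sq_le {x : JFin T} {C : ℝ}
    (h : ∀ P : Finset (T × T), IsFam P → ∑ p ∈ P, (sumOn (Set.Icc p.1 p.2) x) ^ 2 ≤ C) :
    ‖x‖ ^ 2 ≤ C := by
  have hC : 0 ≤ C := by simpa using h ∅ isFam_empty
  have : ‖x‖ ≤ Real.sqrt C := by
    apply jnorm_le
    intro P hP
    exact Real.sqrt_le_sqrt (h P hP)
  calc ‖x‖ ^ 2 ≤ (Real.sqrt C) ^ 2 := by gcongr
    _ = C := Real.sq_sqrt hC

lemma abs_co_le_norm (x : JFin T) (a : T) : |co x a| ≤ ‖x‖ := abs_co_le_jnorm x a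

/-- Convex chains (generalised segments, possibly empty or infinite). -/
structure IsSeg (A : Set T) : Prop where
  ord : A.OrdConnected
  chain : IsChain (· ≤ ·) A

lemma IsSeg.inter {A B : Set T} (hA : IsSeg A) (hB : B.OrdConnected) : IsSeg (A ∩ B) :=
  ⟨hA.ord.inter hB, hA.chain.mono Set.inter_subset_left⟩

lemma isSeg_Icc [TreeLike T] (a b : T) : IsSeg (Set.Icc a b) := by
  refine ⟨Set.ordConnected_Icc, ?_⟩
  intro x hx y hy _
  exact TreeLike.comp_of_le hx.2 hy.2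

lemma isSeg_singleton (a : T) : IsSeg ({a} : Set T) :=
  ⟨Set.ordConnected_singleton, Set.subsingleton_singleton.isChain⟩

lemma IsSeg.exists_Icc {A : Set T} (hA : IsSeg A) (x : JFin T) (hx : ∃ a ∈ supp x, a ∈ A) :
    ∃ p : T × T, p.1 ≤ p.2 ∧ Set.Icc p.1 p.2 ⊆ A ∧ sumOn A x = sumOn (Set.Icc p.1 p.2) x := by
  classical
  set F : Finset T := (supp x).filter (· ∈ A) with hF
  have hFne : F.Nonempty := by
    obtain ⟨a, ha, haA⟩ := hx
    exact ⟨a, Finset.mem_filter.mpr ⟨ha, haA⟩⟩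
  have hmem : ∀ a, a ∈ F ↔ a ∈ supp x ∧ a ∈ A := fun a => Finset.mem_filter
  obtain ⟨m, hm⟩ := F.exists_minimal hFne
  obtain ⟨M, hM⟩ := F.exists_maximal hFne
  have hmA : m ∈ A := ((hmem m).mp hm.prop).2
  have hMA : M ∈ A := ((hmem M).mp hM.prop).2
  have hmle : ∀ a ∈ F, m ≤ a := by
    intro a ha
    by_cases h : m = a
    · rw [h]
    · rcases hA.chain hmA ((hmem a).mp ha).2 h with h1 | h1
      · exact h1
      · exact hm.le_of_le ha h1
  have hleM : ∀ a ∈ F, a ≤ M := by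
    intro a ha
    by_cases h : M = a
    · rw [h]
    · rcases hA.chain hMA ((hmem a).mp ha).2 h with h1 | h1
      · exact hM.le_of_ge ha h1
      · exact h1
  refine ⟨(m, M), hmle M hM.prop, hA.ord.out hmA hMA, ?_⟩
  apply sumOn_congr
  intro a ha
  constructor
  · intro haA
    have haF : a ∈ F := (hmem a).mpr ⟨ha, haA⟩
    exact ⟨hmle a haF, hleM a haF⟩
  · intro h
    exact hA.ord.out hmA hMA h

/-- **Good families lemma.** -/
theorem sum_sumOn_sq_le {ι : Type*} (s : Finset ι) (A : ι → Set T)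
    (hA : ∀ i ∈ s, IsSeg (A i))
    (hd : ∀ i ∈ s, ∀ j ∈ s, i ≠ j → Disjoint (A i) (A j)) (x : JFin T) :
    ∑ i ∈ s, (sumOn (A i) x) ^ 2 ≤ ‖x‖ ^ 2 := by
  classical
  set s' : Finset ι := s.filter (fun i => ∃ a ∈ supp x, a ∈ A i) with hs'
  have hs'mem : ∀ i, i ∈ s' ↔ i ∈ s ∧ ∃ a ∈ supp x, a ∈ A i := fun i => Finset.mem_filter
  have hsum : ∑ i ∈ s, (sumOn (A i) x) ^ 2 = ∑ i ∈ s', (sumOn (A i) x) ^ 2 := by
    symm
    apply Finset.sum_subset (Finset.filter_subset _ _)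
    intro i hi hi'
    have : ∀ a ∈ supp x, a ∉ A i := by
      intro a ha haA
      exact hi' ((hs'mem i).mpr ⟨hi, a, ha, haA⟩)
    rw [sumOn_eq_zero this]; simp
  rw [hsum]
  by_cases hne : s'.Nonempty
  · have hT : Nonempty (T × T) := by
      obtain ⟨i, hi⟩ := hne
      obtain ⟨_, a, _, _⟩ := (hs'mem i).mp hi
      exact ⟨(a, a)⟩
    have hex : ∀ i, ∃ p : T × T, i ∈ s' →
        p.1 ≤ p.2 ∧ Set.Icc p.1 p.2 ⊆ A i ∧ sumOn (A i) x = sumOn (Set.Icc p.1 p.2) x := by
      intro i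
      by_cases hi : i ∈ s'
      · obtain ⟨p, hp⟩ := (hA i ((hs'mem i).mp hi).1).exists_Icc x ((hs'mem i).mp hi).2
        exact ⟨p, fun _ => hp⟩
      · exact ⟨hT.some, fun h => absurd h hi⟩
    choose p hp using hex
    have hinj : Set.InjOn p (s' : Set ι) := by
      intro i hi j hj hij
      by_contra hne
      have h1 := hp i hi
      have h2 := hp j hj
      have hdis := hd i ((hs'mem i).mp hi).1 j ((hs'mem j).mp hj).1 hne
      have hmem1 : (p i).1 ∈ A i := h1.2.1 ⟨le_refl _, h1.1⟩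
      have hmem2 : (p i).1 ∈ A j := by
        rw [hij]; exact h2.2.1 ⟨le_refl _, h2.1⟩
      exact Set.disjoint_left.mp hdis hmem1 hmem2
    have hfam : IsFam (s'.image p) := by
      constructor
      · intro q hq
        obtain ⟨i, hi, rfl⟩ := Finset.mem_image.mp hq
        exact (hp i hi).1
      · intro q hq r hr hqr
        obtain ⟨i, hi, rfl⟩ := Finset.mem_image.mp hq
        obtain ⟨j, hj, rfl⟩ := Finset.mem_image.mp hr
        have hij : i ≠ j := by rintro rfl; exact hqr rfl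
        exact (hd i ((hs'mem i).mp hi).1 j ((hs'mem j).mp hj).1 hij).mono
          (hp i hi).2.1 (hp j hj).2.1
    have := sum_sq_le_norm_sq hfam x
    rw [Finset.sum_image hinj] at this
    refine le_trans (le_of_eq ?_) this
    exact Finset.sum_congr rfl fun i hi => by rw [(hp i hi).2.2]
  · rw [Finset.not_nonempty_iff_eq_empty.mp hne]
    simp

end

end JTree
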