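import Pool.Agent.Work.MP_245e03_an.Tree

/-!
# The two block lemma and the branch theorem.
-/

open scoped BigOperators
open Finset

namespace JTree

section
variable {T : Type*} [PartialOrder T]

lemma exists_near {V : Submodule ℝ (JFin T)} {f : StrongDual ℝ (JFin T)} {c : ℝ}
    (hc : c < ‖f.comp V.subtypeL‖) (h0 : 0 < ‖f.comp V.subtypeL‖) :
    ∃ x ∈ V, ‖x‖ ≤ 1 ∧ c < f x := by
  obtain ⟨x, hx1, hx2⟩ := ContinuousLinearMap.exists_lt_apply_of_lt_opNorm (f.comp V.subtypeL)
    (r := c) hc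
  rw [Real.norm_eq_abs] at hx2
  have hfx : (f.comp V.subtypeL) x = f (x : JFin T) := rfl
  rw [hfx] at hx2
  rcases le_total 0 (f (x : JFin T)) with h | h
  · exact ⟨x, x.2, hx1.le, by rwa [abs_of_nonneg h] at hx2⟩
  · refine ⟨-(x : JFin T), V.neg_mem x.2, by rw [norm_neg]; exact hx1.le, ?_⟩
    rw [map_neg]; rwa [abs_of_nonpos h] at hx2

/-- **Two block lemma.** -/
theorem two_block (f : StrongDual ℝ (JFin T)) (V : ℕ → Submodule ℝ (JFin T)) (hV : Antitone V)
    (h : ∀ θ : ℝ, 0 < θ → (∀ n, ∀ η > 0, ∃ x ∈ V n, ‖x‖ ≤ 1 ∧ θ - η < f x) →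
      ∀ n, ∀ x ∈ V n, ‖x‖ ≤ 1 → ∀ η > 0,
        ∃ x' ∈ V n, ‖x'‖ ≤ 1 ∧ θ - η < f x' ∧ ‖x + x'‖ ≤ 19 / 10) :
    ∀ ε > 0, ∃ n, ∀ x ∈ V n, |f x| ≤ ε * ‖x‖ := by
  intro ε hε
  by_contra hcon
  push Not at hcon
  set θ : ℕ → ℝ := fun n => ‖f.comp (V n).subtypeL‖ with hθ
  have hle : ∀ n, ∀ x ∈ V n, |f x| ≤ θ n * ‖x‖ := by
    intro n x hx
    have := ContinuousLinearMap.le_opNorm (f.comp (V n).subtypeL) ⟨x, hx⟩
    rw [Real.norm_eq_abs] at this
    exact this
  have hge : ∀ n, ε < θ n := by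
    intro n
    obtain ⟨x, hx, hx2⟩ := hcon n
    have h1 := hle n x hx
    have h2 : ε * ‖x‖ < θ n * ‖x‖ := lt_of_lt_of_le hx2 h1
    have h3 : 0 < ‖x‖ := by
      rcases (norm_nonneg x).lt_or_eq with h | h
      · exact h
      · rw [← h] at h2; simp at h2
    exact lt_of_mul_lt_mul_right h2 h3.le
  set Θ : ℝ := ⨅ n, θ n with hΘ
  have hbdd : BddBelow (Set.range θ) := ⟨ε, by rintro _ ⟨n, rfl⟩; exact (hge n).le⟩
  have hΘle : ∀ n, Θ ≤ θ n := fun n => ciInf_le hbdd n
  have hΘpos : 0 < Θ := lt_of_lt_of_le hε (le_ciInf fun n => (hge n).le)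
  have hnear : ∀ n, ∀ η > 0, ∃ x ∈ V n, ‖x‖ ≤ 1 ∧ Θ - η < f x := by
    intro n η hη
    exact exists_near (by have := hΘle n; simp only [hθ] at this; linarith)
      (lt_trans hε (hge n))
  obtain ⟨n, hn⟩ : ∃ n, θ n < Θ + Θ / 100 :=
    exists_lt_of_ciInf_lt (by rw [← hΘ]; linarith)
  obtain ⟨x, hxV, hx1, hx2⟩ := hnear n (Θ / 100) (by positivity)
  obtain ⟨x', hx'V, hx'1, hx'2, hx'3⟩ := h Θ hΘpos hnear n x hxV hx1 (Θ / 100) (by positivity)
  have h1 := hle n (x + x') ((V n).add_mem hxV hx'V)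
  have h2 : f (x + x') ≤ θ n * ‖x + x'‖ := (le_abs_self _).trans h1
  rw [map_add] at h2
  have h3 : θ n * ‖x + x'‖ ≤ (Θ + Θ / 100) * (19 / 10) := by
    have := norm_nonneg (x + x')
    have := (hge n)
    gcongr
  linarith

end

section
variable {T : Type*} [PartialOrder T] [TreeLike T]

/-- Cofinal increasing sequences. -/
structure IsBranch (σ : ℕ → T) : Prop where
  mono : Monotone σ
  escape : ∀ t, ∃ n, ¬ σ n ≤ t

/-- The branch generated by a sequence. -/
def down (σ : ℕ → T) : Set T := {t | ∃ n, t ≤ σ n}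

lemma isSeg_down {σ : ℕ → T} (hσ : IsBranch σ) : IsSeg (down σ) := by
  constructor
  · exact ⟨fun a _ b hb c hc => by
      obtain ⟨n, hn⟩ := hb
      exact ⟨n, hc.2.trans hn⟩⟩
  · rintro a ⟨n, hn⟩ b ⟨m, hm⟩ _
    exact TreeLike.comp_of_le (hn.trans (hσ.mono (le_max_left n m)))
      (hm.trans (hσ.mono (le_max_right n m)))

lemma exists_above {σ : ℕ → T} (hσ : IsBranch σ) (x : JFin T) (n : ℕ) :
    ∃ N, n ≤ N ∧ ∀ a ∈ supp x, ¬ σ N ≤ a := by
  classical
  choose g hg using hσ.escape
  refine ⟨max n ((supp x).sup g), le_max_left _ _, fun a ha h => hg a ?_⟩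
  exact (hσ.mono ((Finset.le_sup (f := g) ha).trans (le_max_right _ _))).trans h

/-- The zero-sum vectors beyond `σ n`. -/
noncomputable def ZV (σ : ℕ → T) (n : ℕ) : Submodule ℝ (JFin T) :=
  Sup (Set.Ici (σ n)) ⊓ LinearMap.ker (sumOn (down σ))

lemma ZV_anti {σ : ℕ → T} (hσ : IsBranch σ) : Antitone (ZV σ) := by
  intro m n hmn x hx
  refine ⟨Sup_mono ?_ hx.1, hx.2⟩
  exact Set.Ici_subset_Ici.mpr (hσ.mono hmn)

lemma zv_sum_le {σ : ℕ → T} (hσ : IsBranch σ) {x x' : JFin T} {n N : ℕ}
    (hx : x ∈ ZV σ n) (hx1 : ‖x‖ ≤ 1) (hN : ∀ a ∈ supp x, ¬ σ N ≤ a)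
    (hx' : x' ∈ ZV σ N) (hx'1 : ‖x'‖ ≤ 1) : ‖x + x'‖ ≤ 19 / 10 := by
  classical
  have hsq : ‖x + x'‖ ^ 2 ≤ 7 / 2 := by
    apply norm_sq_le
    intro P hP
    have hs := sum_sq_le_norm_sq hP x
    have ht := sum_sq_le_norm_sq hP x'
    have hs1 : ‖x‖ ^ 2 ≤ 1 := by nlinarith [norm_nonneg x]
    have ht1 : ‖x'‖ ^ 2 ≤ 1 := by nlinarith [norm_nonneg x']
    -- crossing segments contain `σ N`
    have hcross : ∀ p ∈ P, sumOn (Set.Icc p.1 p.2) x * sumOn (Set.Icc p.1 p.2) x' ≠ 0 →
        σ N ∈ Set.Icc p.1 p.2 := by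
      intro p _ hne
      obtain ⟨a, ha, haI⟩ : ∃ a ∈ supp x, a ∈ Set.Icc p.1 p.2 := by
        by_contra hcon; push Not at hcon
        exact hne (by rw [sumOn_eq_zero hcon, zero_mul])
      obtain ⟨b, hb, hbI⟩ : ∃ b ∈ supp x', b ∈ Set.Icc p.1 p.2 := by
        by_contra hcon; push Not at hcon
        exact hne (by rw [sumOn_eq_zero hcon, mul_zero])
      have hb' : σ N ≤ b := mem_Sup_iff_supp.mp hx'.1 b hb
      have hna : ¬ σ N ≤ a := hN a ha
      have hab : a ≤ b := by
        rcases TreeLike.comp_of_le haI.2 hbI.2 with h | h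
        · exact h
        · exact absurd (hb'.trans h) hna
      have haN : a ≤ σ N := by
        rcases TreeLike.comp_of_le hab hb' with h | h
        · exact h
        · exact absurd h hna
      exact ⟨haI.1.trans haN, hb'.trans hbI.2⟩
    -- estimate of the sum of products
    have hprod : ∑ p ∈ P, sumOn (Set.Icc p.1 p.2) x * sumOn (Set.Icc p.1 p.2) x' ≤ 3 / 4 := by
      by_cases hex : ∃ p ∈ P, σ N ∈ Set.Icc p.1 p.2
      · obtain ⟨p, hp, hpN⟩ := hex
        rw [Finset.sum_eq_single_of_mem p hp]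
        · set s := sumOn (Set.Icc p.1 p.2) x with hs_def
          set t := sumOn (Set.Icc p.1 p.2) x' with ht_def
          have ht2 : t ^ 2 ≤ 1 := by
            have := Finset.single_le_sum (f := fun p : T × T => (sumOn (Set.Icc p.1 p.2) x') ^ 2)
              (fun _ _ => sq_nonneg _) hp
            exact this.trans (ht.trans ht1)
          have hs2 : s ^ 2 ≤ 1 / 2 := by
            -- `s` is the sum over `{p.1 ≤ a < σ N}`
            set A1 : Set T := {a | p.1 ≤ a ∧ a < σ N} with hA1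
            set A2 : Set T := {a | a < σ N ∧ ¬ p.1 ≤ a} with hA2
            have e1 : s = sumOn A1 x := by
              apply sumOn_congr
              intro a ha
              constructor
              · intro haI
                refine ⟨haI.1, ?_⟩
                have : a ≤ σ N := by
                  rcases TreeLike.comp_of_le haI.2 hpN.2 with h | h
                  · exact h
                  · exact absurd h (hN a ha)
                exact lt_of_le_of_ne this (fun h => hN a ha (by rw [h]))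
              · intro h
                exact ⟨h.1, h.2.le.trans hpN.2⟩
            have e2 : sumOn (down σ) x = sumOn (A1 ∪ A2) x := by
              apply sumOn_congr
              intro a ha
              constructor
              · rintro ⟨k, hk⟩
                have haN : a ≤ σ N := by
                  rcases TreeLike.comp_of_le (hk.trans (hσ.mono (le_max_left k N)))
                    (hσ.mono (le_max_right k N)) with h | h
                  · exact h
                  · exact absurd h (hN a ha)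
                have hlt : a < σ N := lt_of_le_of_ne haN (fun h => hN a ha (by rw [h]))
                by_cases hpa : p.1 ≤ a
                · exact Or.inl ⟨hpa, hlt⟩
                · exact Or.inr ⟨hlt, hpa⟩
              · rintro (h | h)
                · exact ⟨N, h.2.le⟩
                · exact ⟨N, h.1.le⟩
            have hdis : Disjoint A1 A2 := by
              rw [Set.disjoint_left]; rintro a h1 h2; exact h2.2 h1.1
            have e3 : sumOn A1 x + sumOn A2 x = 0 := by
              rw [← sumOn_union hdis, ← e2]; exact hx.2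
            have hseg1 : IsSeg A1 := by
              constructor
              · exact ⟨fun a ha b hb c hc => ⟨ha.1.trans hc.1, lt_of_le_of_lt hc.2 hb.2⟩⟩
              · intro a ha b hb _
                exact TreeLike.comp_of_le ha.2.le hb.2.le
            have hseg2 : IsSeg A2 := by
              constructor
              · exact ⟨fun a _ b hb c hc =>
                  ⟨lt_of_le_of_lt hc.2 hb.1, fun h => hb.2 (h.trans hc.2)⟩⟩
              · intro a ha b hb _
                exact TreeLike.comp_of_le ha.1.le hb.1.le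
            have := sum_sumOn_sq_le (Finset.univ : Finset Bool) (fun i => if i then A1 else A2)
              (by intro i _; cases i <;> simp [hseg1, hseg2])
              (by
                intro i _ j _ hij
                cases i <;> cases j
                · exact absurd rfl hij
                · exact hdis.symm
                · exact hdis
                · exact absurd rfl hij) x
            simp at this
            have h3 : sumOn A2 x = - sumOn A1 x := by linarith
            rw [h3] at this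
            rw [e1]
            nlinarith
          have h1 : (s * t) ^ 2 ≤ 1 / 2 := by
            rw [mul_pow]; nlinarith [sq_nonneg s, sq_nonneg t]
          nlinarith [sq_nonneg (s * t - 3 / 4)]
        · intro q hq hqp
          by_contra hne
          have := hcross q hq hne
          exact Set.disjoint_left.mp (hP.2 q hq p hp hqp) this hpN
      · push Not at hex
        rw [Finset.sum_eq_zero]
        · norm_num
        · intro p hp
          by_contra hne
          exact hex p hp (hcross p hp hne)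
    have hexp : ∑ p ∈ P, (sumOn (Set.Icc p.1 p.2) (x + x')) ^ 2 =
        ∑ p ∈ P, (sumOn (Set.Icc p.1 p.2) x) ^ 2 + ∑ p ∈ P, (sumOn (Set.Icc p.1 p.2) x') ^ 2 +
          2 * ∑ p ∈ P, sumOn (Set.Icc p.1 p.2) x * sumOn (Set.Icc p.1 p.2) x' := by
      rw [Finset.mul_sum, ← Finset.sum_add_distrib, ← Finset.sum_add_distrib]
      exact Finset.sum_congr rfl fun p _ => by rw [map_add]; ring
    rw [hexp]
    linarith
  have h0 := norm_nonneg (x + x')
  nlinarith

/-- **Branch theorem.** -/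
theorem branch_thm {σ : ℕ → T} (hσ : IsBranch σ) (f : StrongDual ℝ (JFin T)) :
    ∃ c : ℝ, Filter.Tendsto (fun n => f (e (σ n))) Filter.atTop (nhds c) ∧
      ∀ ε > 0, ∃ n, ∀ x ∈ Sup (Set.Ici (σ n)), |f x - c * sumOn (down σ) x| ≤ ε * ‖x‖ := by
  classical
  have key : ∀ ε > 0, ∃ n, ∀ x ∈ ZV σ n, |f x| ≤ ε * ‖x‖ := by
    apply two_block f (ZV σ) (ZV_anti hσ)
    intro θ _ hnear n x hx hx1 η hη
    obtain ⟨N, hnN, hN⟩ := exists_above hσ x n
    obtain ⟨x', hx'V, hx'1, hx'2⟩ := hnear N η hη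
    exact ⟨x', ZV_anti hσ hnN hx'V, hx'1, hx'2, zv_sum_le hσ hx hx1 hN hx'V hx'1⟩
  have hsum_e : ∀ n, sumOn (down σ) (e (σ n)) = 1 := by
    intro n
    rw [sumOn_e, if_pos ⟨n, le_refl _⟩]
  have hmem : ∀ {n p : ℕ}, n ≤ p → ∀ x ∈ Sup (Set.Ici (σ n)),
      x - (sumOn (down σ) x) • e (σ p) ∈ ZV σ n := by
    intro n p hnp x hx
    refine ⟨Submodule.sub_mem _ hx (Submodule.smul_mem _ _ (e_mem_Sup (hσ.mono hnp))), ?_⟩
    show sumOn (down σ) (x - (sumOn (down σ) x) • e (σ p)) = 0
    rw [map_sub, map_smul, hsum_e]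
    simp
  have hcauchy : CauchySeq (fun n => f (e (σ n))) := by
    rw [Metric.cauchySeq_iff']
    intro ε hε
    obtain ⟨n, hn⟩ := key (ε / 4) (by positivity)
    refine ⟨n, fun m hm => ?_⟩
    have h1 := hmem (le_refl n) (e (σ m)) (e_mem_Sup (hσ.mono hm))
    rw [hsum_e, one_smul] at h1
    have h2 := hn _ h1
    have h3 : ‖e (σ m) - (e (σ n) : JFin T)‖ ≤ 2 := by
      calc _ ≤ ‖(e (σ m) : JFin T)‖ + ‖(e (σ n) : JFin T)‖ := norm_sub_le _ _
        _ ≤ 1 + 1 := add_le_add (norm_e _) (norm_e _)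
        _ = 2 := by norm_num
    rw [Real.dist_eq, ← map_sub]
    calc |f (e (σ m) - e (σ n))| ≤ ε / 4 * ‖e (σ m) - (e (σ n) : JFin T)‖ := h2
      _ ≤ ε / 4 * 2 := by gcongr
      _ < ε := by linarith
  obtain ⟨c, hc⟩ := cauchySeq_tendsto_of_complete hcauchy
  refine ⟨c, hc, fun ε hε => ?_⟩
  obtain ⟨n, hn⟩ := key (ε / 2) (by positivity)
  refine ⟨n, fun x hx => ?_⟩
  set s := sumOn (down σ) x with hs
  have hs1 : |s| ≤ ‖x‖ := by
    have h1 := ContinuousLinearMap.le_opNorm (bOn (down σ)) x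
    rw [bOn_apply (isSeg_down hσ), Real.norm_eq_abs] at h1
    calc |s| ≤ ‖bOn (down σ)‖ * ‖x‖ := h1
      _ ≤ 1 * ‖x‖ := by gcongr; exact norm_bOn_le _
      _ = ‖x‖ := one_mul _
  have hlim : Filter.Tendsto (fun k => |f x - f (e (σ k)) * s|) Filter.atTop
      (nhds |f x - c * s|) := by
    exact (tendsto_const_nhds.sub (hc.mul_const s)).abs
  refine le_of_tendsto hlim ?_
  filter_upwards [Filter.eventually_ge_atTop n] with k hk
  have h1 := hn _ (hmem hk x hx)
  rw [map_sub, map_smul, smul_eq_mul, ← hs] at h1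
  rw [mul_comm (f (e (σ k))) s]
  refine h1.trans ?_
  have h3 : ‖x - s • (e (σ k) : JFin T)‖ ≤ 2 * ‖x‖ := by
    calc _ ≤ ‖x‖ + ‖s • (e (σ k) : JFin T)‖ := norm_sub_le _ _
      _ = ‖x‖ + |s| * ‖(e (σ k) : JFin T)‖ := by rw [norm_smul, Real.norm_eq_abs]
      _ ≤ ‖x‖ + ‖x‖ * 1 := by gcongr; exact norm_e _
      _ = 2 * ‖x‖ := by ring
  calc ε / 2 * ‖x - s • (e (σ k) : JFin T)‖ ≤ ε / 2 * (2 * ‖x‖) := by gcongr
    _ = ε * ‖x‖ := by ring

end

end JTree
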