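import Pool.Agent.Work.MP_245e03_an.Defs

/-!
# The James norm is a norm
-/

open scoped BigOperators
open Finset

namespace JTree

/-- A poset in which the elements below any given element form a chain. -/
class TreeLike (T : Type*) [PartialOrder T] : Prop where
  comp_of_le : ∀ {a b c : T}, a ≤ c → b ≤ c → a ≤ b ∨ b ≤ a

instance : TreeLike ℕ := ⟨fun {a b _} _ _ => le_total a b⟩

instance : TreeLike Node := ⟨fun {_ _ _} h1 h2 => List.prefix_or_prefix_of_prefix h1 h2⟩

/-- The level (length) of a node. -/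
def Node.len (a : Node) : ℕ := List.length (show List Bool from a)

lemma sqrt_sum_add_sq_le {ι : Type*} (s : Finset ι) (f g : ι → ℝ) :
    Real.sqrt (∑ i ∈ s, (f i + g i) ^ 2) ≤
      Real.sqrt (∑ i ∈ s, f i ^ 2) + Real.sqrt (∑ i ∈ s, g i ^ 2) := by
  have hA : 0 ≤ ∑ i ∈ s, f i ^ 2 := Finset.sum_nonneg fun i _ => sq_nonneg _
  have hB : 0 ≤ ∑ i ∈ s, g i ^ 2 := Finset.sum_nonneg fun i _ => sq_nonneg _
  apply Real.sqrt_le_iff.mpr
  refine ⟨add_nonneg (Real.sqrt_nonneg _) (Real.sqrt_nonneg _), ?_⟩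
  have h1 := Real.sum_mul_le_sqrt_mul_sqrt s f g
  have h2 : ∑ i ∈ s, (f i + g i) ^ 2 =
      ∑ i ∈ s, f i ^ 2 + ∑ i ∈ s, g i ^ 2 + 2 * ∑ i ∈ s, f i * g i := by
    rw [Finset.mul_sum, ← Finset.sum_add_distrib, ← Finset.sum_add_distrib]
    exact Finset.sum_congr rfl fun i _ => by ring
  rw [h2, add_sq, Real.sq_sqrt hA, Real.sq_sqrt hB]
  nlinarith

section
variable {T : Type*}

/-- The support of a vector. -/
noncomputable def supp (x : JFin T) : Finset T := Finsupp.support (show T →₀ ℝ from x)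

/-- The coordinate of a vector. -/
noncomputable def co (x : JFin T) (a : T) : ℝ := @DFunLike.coe (T →₀ ℝ) T (fun _ => ℝ) _ x a

@[simp] lemma co_add (x y : JFin T) (a : T) : co (x + y) a = co x a + co y a := rfl
@[simp] lemma co_sub (x y : JFin T) (a : T) : co (x - y) a = co x a - co y a := rfl
@[simp] lemma co_neg (x : JFin T) (a : T) : co (-x) a = - co x a := rfl
@[simp] lemma co_zero (a : T) : co (0 : JFin T) a = 0 := rfl
@[simp] lemma co_smul (r : ℝ) (x : JFin T) (a : T) : co (r • x) a = r * co x a := rfl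

lemma mem_supp {x : JFin T} {a : T} : a ∈ supp x ↔ co x a ≠ 0 := Finsupp.mem_support_iff

lemma ext_co {x y : JFin T} (h : ∀ a, co x a = co y a) : x = y := Finsupp.ext h

open Classical in
lemma co_e (a b : T) : co (e a) b = if a = b then 1 else 0 := by
  unfold co e
  exact Finsupp.single_apply

open Classical in
lemma sumOn_eq (A : Set T) (x : JFin T) :
    sumOn A x = ∑ a ∈ supp x, if a ∈ A then co x a else 0 := by
  unfold sumOn
  show Finsupp.linearCombination ℝ (A.indicator (fun _ => (1 : ℝ))) (show T →₀ ℝ from x) = _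
  rw [Finsupp.linearCombination_apply, Finsupp.sum]
  refine Finset.sum_congr rfl fun a _ => ?_
  by_cases h : a ∈ A <;> simp [h, co]

open Classical in
lemma sumOn_eq_of_subset (A : Set T) (x : JFin T) (F : Finset T) (hF : supp x ⊆ F) :
    sumOn A x = ∑ a ∈ F, if a ∈ A then co x a else 0 := by
  rw [sumOn_eq]
  apply Finset.sum_subset hF
  intro a _ ha
  have : co x a = 0 := by
    by_contra h; exact ha (mem_supp.mpr h)
  simp [this]

lemma sumOn_congr {A B : Set T} {x : JFin T} (h : ∀ a ∈ supp x, (a ∈ A ↔ a ∈ B)) :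
    sumOn A x = sumOn B x := by
  classical
  rw [sumOn_eq, sumOn_eq]
  refine Finset.sum_congr rfl fun a ha => ?_
  simp [h a ha]

lemma sumOn_eq_zero {A : Set T} {x : JFin T} (h : ∀ a ∈ supp x, a ∉ A) : sumOn A x = 0 := by
  classical
  rw [sumOn_eq]
  exact Finset.sum_eq_zero fun a ha => by simp [h a ha]

open Classical in
lemma sumOn_e (A : Set T) (a : T) : sumOn A (e a) = if a ∈ A then 1 else 0 := by
  unfold sumOn e
  show Finsupp.linearCombination ℝ (A.indicator (fun _ => (1 : ℝ))) (Finsupp.single a 1) = _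
  rw [Finsupp.linearCombination_single]
  by_cases h : a ∈ A <;> simp [h]

lemma sumOn_singleton (a : T) (x : JFin T) : sumOn {a} x = co x a := by
  classical
  rw [sumOn_eq]
  by_cases h : a ∈ supp x
  · rw [Finset.sum_eq_single a]
    · simp
    · intro b _ hb; simp [hb]
    · intro h'; exact absurd h h'
  · rw [Finset.sum_eq_zero]
    · by_contra h'; exact h (mem_supp.mpr (Ne.symm h'))
    · intro b hb
      have : b ≠ a := by rintro rfl; exact h hb
      simp [this]

lemma sumOn_union {A B : Set T} (h : Disjoint A B) (x : JFin T) :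
    sumOn (A ∪ B) x = sumOn A x + sumOn B x := by
  classical
  rw [sumOn_eq, sumOn_eq, sumOn_eq, ← Finset.sum_add_distrib]
  refine Finset.sum_congr rfl fun a _ => ?_
  by_cases hA : a ∈ A
  · have hB : a ∉ B := Set.disjoint_left.mp h hA
    simp [hA, hB]
  · simp [hA]

/-- The `ℓ₁` norm. -/
noncomputable def l1 (x : JFin T) : ℝ := ∑ a ∈ supp x, |co x a|

lemma l1_nonneg (x : JFin T) : 0 ≤ l1 x := Finset.sum_nonneg fun _ _ => abs_nonneg _

lemma sum_abs_sumOn_le {ι : Type*} (s : Finset ι) (A : ι → Set T)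
    (hd : ∀ i ∈ s, ∀ j ∈ s, i ≠ j → Disjoint (A i) (A j)) (x : JFin T) :
    ∑ i ∈ s, |sumOn (A i) x| ≤ l1 x := by
  classical
  calc ∑ i ∈ s, |sumOn (A i) x|
      ≤ ∑ i ∈ s, ∑ a ∈ supp x, (if a ∈ A i then |co x a| else 0) := by
        refine Finset.sum_le_sum fun i _ => ?_
        rw [sumOn_eq]
        refine (Finset.abs_sum_le_sum_abs _ _).trans (le_of_eq ?_)
        refine Finset.sum_congr rfl fun a _ => ?_
        split_ifs <;> simp
    _ = ∑ a ∈ supp x, ∑ i ∈ s, (if a ∈ A i then |co x a| else 0) := Finset.sum_comm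
    _ ≤ ∑ a ∈ supp x, |co x a| := by
        refine Finset.sum_le_sum fun a _ => ?_
        by_cases h : ∃ i ∈ s, a ∈ A i
        · obtain ⟨i, hi, hai⟩ := h
          rw [Finset.sum_eq_single_of_mem i hi]
          · simp [hai]
          · intro j hj hji
            have : a ∉ A j := fun haj => Set.disjoint_left.mp (hd i hi j hj (Ne.symm hji)) hai haj
            simp [this]
        · push Not at h
          rw [Finset.sum_eq_zero]
          · exact abs_nonneg _
          · intro i hi
            simp [h i hi]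

end

section
variable {T : Type*} [PartialOrder T]

lemma famVal_nonneg (P : Finset (T × T)) (x : JFin T) : 0 ≤ famVal P x := Real.sqrt_nonneg _

lemma famVal_sq (P : Finset (T × T)) (x : JFin T) :
    famVal P x ^ 2 = ∑ p ∈ P, (sumOn (Set.Icc p.1 p.2) x) ^ 2 :=
  Real.sq_sqrt (Finset.sum_nonneg fun _ _ => sq_nonneg _)

lemma famVal_le_l1 {P : Finset (T × T)} (hP : IsFam P) (x : JFin T) : famVal P x ≤ l1 x := by
  unfold famVal
  apply Real.sqrt_le_iff.mpr
  refine ⟨l1_nonneg x, ?_⟩
  have h1 := sum_abs_sumOn_le P (fun p => Set.Icc p.1 p.2) hP.2 x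
  have h2 : ∑ p ∈ P, (sumOn (Set.Icc p.1 p.2) x) ^ 2 ≤ (∑ p ∈ P, |sumOn (Set.Icc p.1 p.2) x|) ^ 2 := by
    calc ∑ p ∈ P, (sumOn (Set.Icc p.1 p.2) x) ^ 2
        = ∑ p ∈ P, |sumOn (Set.Icc p.1 p.2) x| ^ 2 :=
          Finset.sum_congr rfl fun p _ => (sq_abs _).symm
      _ ≤ (∑ p ∈ P, |sumOn (Set.Icc p.1 p.2) x|) ^ 2 :=
          Finset.sum_sq_le_sq_sum_of_nonneg fun p _ => abs_nonneg _
  have h3 : 0 ≤ ∑ p ∈ P, |sumOn (Set.Icc p.1 p.2) x| := Finset.sum_nonneg fun _ _ => abs_nonneg _
  calc _ ≤ _ := h2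
    _ ≤ l1 x ^ 2 := by gcongr

lemma bddAbove_famVal (x : JFin T) :
    BddAbove {r : ℝ | ∃ P : Finset (T × T), IsFam P ∧ r = famVal P x} :=
  ⟨l1 x, by rintro r ⟨P, hP, rfl⟩; exact famVal_le_l1 hP x⟩

lemma isFam_empty : IsFam (∅ : Finset (T × T)) := by
  constructor <;> simp

lemma nonempty_famVal (x : JFin T) :
    {r : ℝ | ∃ P : Finset (T × T), IsFam P ∧ r = famVal P x}.Nonempty :=
  ⟨_, ∅, isFam_empty, rfl⟩

lemma famVal_le_jnorm {P : Finset (T × T)} (hP : IsFam P) (x : JFin T) : famVal P x ≤ jnorm x :=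
  le_csSup (bddAbove_famVal x) ⟨P, hP, rfl⟩

lemma jnorm_le {x : JFin T} {C : ℝ} (h : ∀ P, IsFam P → famVal P x ≤ C) : jnorm x ≤ C :=
  csSup_le (nonempty_famVal x) (by rintro r ⟨P, hP, rfl⟩; exact h P hP)

lemma jnorm_nonneg (x : JFin T) : 0 ≤ jnorm x :=
  (famVal_nonneg ∅ x).trans (famVal_le_jnorm isFam_empty x)

lemma famVal_add_le (P : Finset (T × T)) (x y : JFin T) :
    famVal P (x + y) ≤ famVal P x + famVal P y := by
  unfold famVal
  simp only [map_add]
  exact sqrt_sum_add_sq_le _ _ _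

lemma famVal_smul (P : Finset (T × T)) (r : ℝ) (x : JFin T) :
    famVal P (r • x) = |r| * famVal P x := by
  unfold famVal
  simp only [map_smul, smul_eq_mul, mul_pow]
  rw [← Finset.mul_sum, Real.sqrt_mul (sq_nonneg r), Real.sqrt_sq_eq_abs]

lemma jnorm_smul (r : ℝ) (x : JFin T) : jnorm (r • x) = |r| * jnorm x := by
  apply le_antisymm
  · apply jnorm_le
    intro P hP
    rw [famVal_smul]
    exact mul_le_mul_of_nonneg_left (famVal_le_jnorm hP x) (abs_nonneg r)
  · by_cases hr : r = 0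
    · simp [hr, jnorm_nonneg]
    · have hr' : 0 < |r| := abs_pos.mpr hr
      rw [← le_div_iff₀' hr']
      apply jnorm_le
      intro P hP
      rw [le_div_iff₀' hr', ← famVal_smul]
      exact famVal_le_jnorm hP _

lemma isFam_singleton (a : T) : IsFam ({(a, a)} : Finset (T × T)) := by
  constructor
  · intro p hp
    rw [Finset.mem_singleton] at hp
    subst hp; exact le_refl _
  · intro p hp q hq hpq
    rw [Finset.mem_singleton] at hp hq
    exact absurd (hp.trans hq.symm) hpq

lemma abs_co_le_jnorm (x : JFin T) (a : T) : |co x a| ≤ jnorm x := by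
  have h := famVal_le_jnorm (isFam_singleton a) x
  have h2 : famVal {(a, a)} x = |co x a| := by
    unfold famVal
    rw [Finset.sum_singleton]
    simp only [Set.Icc_self]
    rw [sumOn_singleton, Real.sqrt_sq_eq_abs]
  rwa [h2] at h

lemma norm_def (x : JFin T) : ‖x‖ = jnorm x := rfl

theorem jfin_core_proof : NormedSpace.Core ℝ (JFin T) where
  norm_nonneg x := jnorm_nonneg x
  norm_smul r x := jnorm_smul r x
  norm_triangle x y := by
    apply jnorm_le
    intro P hP
    exact (famVal_add_le P x y).trans (add_le_add (famVal_le_jnorm hP x) (famVal_le_jnorm hP y))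
  norm_eq_zero_iff x := by
    constructor
    · intro h
      apply ext_co
      intro a
      have := abs_co_le_jnorm x a
      rw [← norm_def, h] at this
      simpa using this
    · rintro rfl
      have := jnorm_smul (0 : ℝ) (0 : JFin T)
      simpa [norm_def] using this

end

end JTree
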