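import Mathlib

/-!
# James type norms on tree-like posets

`JFin T` is the space of finitely supported real functions on a poset `T` with the norm
`sup (∑_{S ∈ P} (∑_{a ∈ S} x a)^2)^{1/2}`, the supremum over finite families `P` of pairwise
disjoint segments `[α, γ]`.  For `T = ℕ` this gives the James space `J`, for `T = Node`
(the dyadic tree) the James tree space `JT`.
-/

open scoped BigOperators

namespace JTree

/-- The dyadic tree: finite 0-1 sequences. -/
def Node : Type := List Bool

/-- The dyadic tree is ordered by extension. -/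
instance : PartialOrder Node where
  le a b := List.IsPrefix (show List Bool from a) (show List Bool from b)
  le_refl a := List.prefix_refl _
  le_trans a b c h1 h2 := List.IsPrefix.trans h1 h2
  le_antisymm a b h1 h2 := List.IsPrefix.eq_of_length h1 (le_antisymm h1.length_le h2.length_le)

/-- Finitely supported functions on `T` (to be normed by the James norm). -/
def JFin (T : Type*) : Type _ := T →₀ ℝ

section
variable {T : Type*}

noncomputable instance : AddCommGroup (JFin T) := by delta JFin; infer_instance
noncomputable instance : Module ℝ (JFin T) := by delta JFin; infer_instance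

/-- The unit vector `e_a`. -/
noncomputable def e (a : T) : JFin T := (Finsupp.single a (1 : ℝ) : T →₀ ℝ)

/-- `sumOn A x = ∑_{a ∈ A} x a`. -/
noncomputable def sumOn (A : Set T) : JFin T →ₗ[ℝ] ℝ :=
  (Finsupp.linearCombination ℝ (A.indicator (fun _ => (1 : ℝ))) : (T →₀ ℝ) →ₗ[ℝ] ℝ)

variable [PartialOrder T]

/-- A finite family of pairwise disjoint segments `[α, γ]`, `α ≤ γ`, coded by its end points. -/
def IsFam (P : Finset (T × T)) : Prop :=
  (∀ p ∈ P, p.1 ≤ p.2) ∧
    ∀ p ∈ P, ∀ q ∈ P, p ≠ q → Disjoint (Set.Icc p.1 p.2) (Set.Icc q.1 q.2)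

/-- The value `(∑_{S ∈ P} (∑_{a ∈ S} x a)^2)^{1/2}`. -/
noncomputable def famVal (P : Finset (T × T)) (x : JFin T) : ℝ :=
  Real.sqrt (∑ p ∈ P, (sumOn (Set.Icc p.1 p.2) x) ^ 2)

/-- The James norm of a finitely supported function. -/
noncomputable def jnorm (x : JFin T) : ℝ :=
  sSup {r : ℝ | ∃ P : Finset (T × T), IsFam P ∧ r = famVal P x}

noncomputable instance : Norm (JFin T) := ⟨jnorm⟩

end

end JTree
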