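import Pool.Agent.Work.MP_245e03_an.Tree

/-!
# The embedding criterion.
-/

open scoped BigOperators
open Finset

namespace JTree

/-- Extension of a bounded below and bounded map from a dense subspace. -/
theorem extend_abs {E F A : Type*} [NormedAddCommGroup E] [NormedSpace ℝ E] [NormedAddCommGroup F]
    [NormedSpace ℝ F] [CompleteSpace F] [AddCommGroup A] [Module ℝ A] (W : Submodule ℝ E)
    (g : A →ₗ[ℝ] W) (u : A →ₗ[ℝ] F) (hg : DenseRange g) (C c : ℝ)
    (h1 : ∀ a, ‖u a‖ ≤ C * ‖g a‖) (h2 : ∀ a, c * ‖g a‖ ≤ ‖u a‖) :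
    ∃ S : W →L[ℝ] F, (∀ a, S (g a) = u a) ∧ (∀ z, c * ‖z‖ ≤ ‖S z‖) := by
  refine ⟨u.extendOfNorm g, fun a => LinearMap.extendOfNorm_eq hg ⟨C, h1⟩ a, ?_⟩
  intro f
  refine hg.induction_on (p := fun f => c * ‖f‖ ≤ ‖(u.extendOfNorm g) f‖) f ?_ ?_
  · exact isClosed_le (continuous_const.mul continuous_norm)
      ((u.extendOfNorm g).continuous.norm)
  · intro a
    rw [LinearMap.extendOfNorm_eq hg ⟨C, h1⟩]; exact h2 a

/-- The closed linear span of the biorthogonal functionals. -/
noncomputable def BSpace (T : Type*) [PartialOrder T] [TreeLike T] :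
    Submodule ℝ (StrongDual ℝ (JFin T)) :=
  (Submodule.span ℝ (Set.range (estar : T → StrongDual ℝ (JFin T)))).topologicalClosure

/-- Finite combinations of the biorthogonal functionals. -/
noncomputable def lcB (T : Type*) [PartialOrder T] [TreeLike T] : (T →₀ ℝ) →ₗ[ℝ] BSpace T :=
  LinearMap.codRestrict (BSpace T) (Finsupp.linearCombination ℝ estar) (fun a =>
    Submodule.le_topologicalClosure _ (by
      rw [← Finsupp.range_linearCombination]; exact LinearMap.mem_range_self _ a))

lemma denseRange_lcB (T : Type*) [PartialOrder T] [TreeLike T] : DenseRange (lcB T) := by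
  rw [Metric.denseRange_iff]
  rintro ⟨y, hy⟩ ε hε
  have h1 : y ∈ closure ((Submodule.span ℝ (Set.range (estar : T → StrongDual ℝ (JFin T))) :
      Submodule ℝ _) : Set (StrongDual ℝ (JFin T))) := by
    rw [← Submodule.topologicalClosure_coe]; exact hy
  obtain ⟨z, hz, hyz⟩ := Metric.mem_closure_iff.mp h1 ε hε
  rw [SetLike.mem_coe, ← Finsupp.range_linearCombination] at hz
  obtain ⟨a, rfl⟩ := hz
  exact ⟨a, hyz⟩

section
variable {T T' : Type} [PartialOrder T] [TreeLike T] [PartialOrder T'] [TreeLike T']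

lemma lc_apply (u : T' → StrongDual ℝ (JFin T)) (a : T' →₀ ℝ) (x : JFin T) :
    Finsupp.linearCombination ℝ u a x = ∑ t ∈ a.support, a t * u t x := by
  rw [Finsupp.linearCombination_apply, Finsupp.sum, ContinuousLinearMap.sum_apply]
  rfl

lemma embed_upper
    (r : T' → ℕ) (hr : Function.Injective r) (hmono : Monotone r)
    (u : T' → StrongDual ℝ (JFin T)) (V : T' → T' → StrongDual ℝ (JFin T)) (C : ℝ)
    (h0 : ∀ α γ, α ≤ γ → ∀ F : Finset T', (∀ t, t ∈ F ↔ α ≤ t ∧ t ≤ γ) → ∑ t ∈ F, u t = V α γ)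
    (h3 : ∀ P : Finset (T' × T'), IsFam P → ∀ x : JFin T,
      ∑ p ∈ P, (V p.1 p.2 x) ^ 2 ≤ C ^ 2 * ‖x‖ ^ 2) (a : T' →₀ ℝ) :
    ‖Finsupp.linearCombination ℝ u a‖ ≤ |C| * ‖lcB T' a‖ := by
  classical
  apply ContinuousLinearMap.opNorm_le_bound _ (by positivity)
  intro x
  set n0 : ℕ := a.support.sup r with hn0
  have hfin : {t | r t ≤ n0}.Finite :=
    Set.Finite.preimage hr.injOn (Set.finite_le_nat n0)
  set F : Finset T' := hfin.toFinset with hF
  have hmemF : ∀ t, t ∈ F ↔ r t ≤ n0 := by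
    intro t; rw [hF, Set.Finite.mem_toFinset]; rfl
  set xh : JFin T' := ∑ t ∈ F, (u t x) • e t with hxh
  have hco : ∀ s, co xh s = if s ∈ F then u s x else 0 := by
    intro s
    have h : ∀ G : Finset T', co (∑ t ∈ G, (u t x) • (e t : JFin T')) s =
        if s ∈ G then u s x else 0 := by
      intro G
      induction G using Finset.induction_on with
      | empty => simp
      | insert t G ht ih =>
        rw [Finset.sum_insert ht, co_add, ih, co_smul, co_e]
        by_cases hts : t = s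
        · subst hts; simp [ht]
        · have hst : s ≠ t := fun h => hts h.symm
          simp [hts, hst]
    exact h F
  have hval : Finsupp.linearCombination ℝ u a x = (lcB T' a : StrongDual ℝ (JFin T')) xh := by
    show _ = Finsupp.linearCombination ℝ estar a xh
    rw [lc_apply, lc_apply]
    refine Finset.sum_congr rfl fun t ht => ?_
    rw [estar_apply, hco, if_pos]
    rw [hmemF]
    exact Finset.le_sup (f := r) ht
  have hnorm : ‖xh‖ ^ 2 ≤ C ^ 2 * ‖x‖ ^ 2 := by
    apply norm_sq_le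
    intro P hP
    set P1 : Finset (T' × T') := P.filter (fun p => p.1 ∈ F) with hP1
    have hsumOn : ∀ p : T' × T', sumOn (Set.Icc p.1 p.2) xh =
        ∑ t ∈ F.filter (fun t => t ∈ Set.Icc p.1 p.2), u t x := by
      intro p
      have hsub : supp xh ⊆ F := by
        intro t ht
        by_contra h
        exact mem_supp.mp ht (by rw [hco, if_neg h])
      rw [sumOn_eq_of_subset _ _ F hsub, Finset.sum_filter]
      refine Finset.sum_congr rfl fun t ht => ?_
      rw [hco, if_pos ht]
      by_cases h : t ∈ Set.Icc p.1 p.2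
      · rw [if_pos h, if_pos h]
      · rw [if_neg h, if_neg h]
    have hex : ∀ p : T' × T', ∃ γ : T', p.1 ∈ F → p.1 ≤ p.2 →
        p.1 ≤ γ ∧ γ ≤ p.2 ∧ sumOn (Set.Icc p.1 p.2) xh = V p.1 γ x := by
      intro p
      by_cases h : p.1 ∈ F ∧ p.1 ≤ p.2
      · set G := F.filter (fun t => t ∈ Set.Icc p.1 p.2) with hG
        have hGne : G.Nonempty := ⟨p.1, Finset.mem_filter.mpr ⟨h.1, le_refl _, h.2⟩⟩
        obtain ⟨γ, hγ⟩ := G.exists_maximal hGne
        have hγG := Finset.mem_filter.mp hγ.prop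
        have hle : ∀ t ∈ G, t ≤ γ := by
          intro t ht
          rcases TreeLike.comp_of_le (Finset.mem_filter.mp ht).2.2 hγG.2.2 with h' | h'
          · exact h'
          · exact hγ.le_of_ge ht h'
        refine ⟨γ, fun _ _ => ⟨hγG.2.1, hγG.2.2, ?_⟩⟩
        rw [hsumOn, ← h0 p.1 γ hγG.2.1 G ?_, ContinuousLinearMap.sum_apply]
        intro t
        constructor
        · intro ht
          exact ⟨(Finset.mem_filter.mp ht).2.1, hle t ht⟩
        · rintro ⟨h1, h2⟩
          refine Finset.mem_filter.mpr ⟨?_, h1, h2.trans hγG.2.2⟩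
          rw [hmemF]
          exact (hmono h2).trans ((hmemF γ).mp hγG.1)
      · exact ⟨p.1, fun h1 h2 => absurd ⟨h1, h2⟩ h⟩
    choose γ hγ using hex
    have hzero : ∀ p ∈ P, p ∉ P1 → sumOn (Set.Icc p.1 p.2) xh = 0 := by
      intro p hp hp1
      rw [hsumOn, Finset.sum_eq_zero]
      intro t ht
      exfalso
      apply hp1
      rw [hP1, Finset.mem_filter]
      refine ⟨hp, ?_⟩
      rw [hmemF]
      exact (hmono (Finset.mem_filter.mp ht).2.1).trans ((hmemF t).mp (Finset.mem_filter.mp ht).1)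
    have hsum1 : ∑ p ∈ P, (sumOn (Set.Icc p.1 p.2) xh) ^ 2 =
        ∑ p ∈ P1, (V p.1 (γ p) x) ^ 2 := by
      rw [← Finset.sum_subset (Finset.filter_subset (fun p => p.1 ∈ F) P)]
      · refine Finset.sum_congr rfl fun p hp => ?_
        have hp' := Finset.mem_filter.mp hp
        rw [(hγ p hp'.2 (hP.1 p hp'.1)).2.2]
      · intro p hp hp1
        rw [hzero p hp hp1]; norm_num
    have hinj : Set.InjOn (fun p : T' × T' => (p.1, γ p)) (P1 : Set (T' × T')) := by
      intro p hp q hq hpq
      by_contra hne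
      have hp' := Finset.mem_filter.mp hp
      have hq' := Finset.mem_filter.mp hq
      have h1 : p.1 = q.1 := (Prod.mk.inj hpq).1
      have hd := hP.2 p hp'.1 q hq'.1 hne
      exact Set.disjoint_left.mp hd ⟨le_refl _, hP.1 p hp'.1⟩
        ⟨h1.symm.le, by rw [h1]; exact hP.1 q hq'.1⟩
    have hfam : IsFam (P1.image (fun p : T' × T' => (p.1, γ p))) := by
      constructor
      · intro q hq
        obtain ⟨p, hp, rfl⟩ := Finset.mem_image.mp hq
        have hp' := Finset.mem_filter.mp hp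
        exact (hγ p hp'.2 (hP.1 p hp'.1)).1
      · intro q hq q' hq' hne
        obtain ⟨p, hp, rfl⟩ := Finset.mem_image.mp hq
        obtain ⟨p', hp', rfl⟩ := Finset.mem_image.mp hq'
        have hpp : p ≠ p' := by rintro rfl; exact hne rfl
        have h1 := Finset.mem_filter.mp hp
        have h2 := Finset.mem_filter.mp hp'
        exact (hP.2 p h1.1 p' h2.1 hpp).mono
          (Set.Icc_subset_Icc_right (hγ p h1.2 (hP.1 p h1.1)).2.1)
          (Set.Icc_subset_Icc_right (hγ p' h2.2 (hP.1 p' h2.1)).2.1)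
    rw [hsum1]
    have := h3 _ hfam x
    rwa [Finset.sum_image hinj] at this
  have hnorm' : ‖xh‖ ≤ |C| * ‖x‖ := by
    apply le_of_sq_le_sq _ (by positivity)
    rw [mul_pow, sq_abs]; exact hnorm
  rw [hval]
  calc ‖(lcB T' a : StrongDual ℝ (JFin T')) xh‖
      ≤ ‖(lcB T' a : StrongDual ℝ (JFin T'))‖ * ‖xh‖ := ContinuousLinearMap.le_opNorm _ _
    _ ≤ ‖(lcB T' a : StrongDual ℝ (JFin T'))‖ * (|C| * ‖x‖) := by gcongr
    _ = |C| * ‖lcB T' a‖ * ‖x‖ := by
        rw [Submodule.coe_norm]; ring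

lemma embed_lower
    (u w : T' → StrongDual ℝ (JFin T))
    (ν : T' → T) (hν : ∀ s t, ν s ≤ ν t ↔ s ≤ t) (d : ℝ) (hd : d ≠ 0)
    (h1 : ∀ s t, w t (e (ν t)) = d ∧ (s ≠ t → w t (e (ν s)) = 0))
    (h2 : ∀ F : Finset T', ∑ t ∈ F, ‖u t - w t‖ ≤ |d| / 2) (a : T' →₀ ℝ) :
    |d| / 2 * ‖lcB T' a‖ ≤ ‖Finsupp.linearCombination ℝ u a‖ := by
  classical
  have hd' : 0 < |d| := abs_pos.mpr hd
  set A : StrongDual ℝ (JFin T') := Finsupp.linearCombination ℝ estar a with hA
  have hAn : ‖lcB T' a‖ = ‖A‖ := rfl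
  have hcoef : ∀ t, |a t| ≤ ‖A‖ := by
    intro t
    have hval : A (e t) = a t := by
      rw [hA, lc_apply]
      by_cases ht : t ∈ a.support
      · rw [Finset.sum_eq_single_of_mem t ht]
        · rw [estar_apply, co_e, if_pos rfl, mul_one]
        · intro s _ hs
          rw [estar_apply, co_e, if_neg (Ne.symm hs), mul_zero]
      · rw [Finset.sum_eq_zero]
        · exact (Finsupp.notMem_support_iff.mp ht).symm
        · intro s hs
          have hst : s ≠ t := by rintro rfl; exact ht hs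
          rw [estar_apply, co_e, if_neg (Ne.symm hst), mul_zero]
    rw [← hval, ← Real.norm_eq_abs]
    calc ‖A (e t)‖ ≤ ‖A‖ * ‖(e t : JFin T')‖ := ContinuousLinearMap.le_opNorm _ _
      _ ≤ ‖A‖ * 1 := by gcongr; exact norm_e _
      _ = ‖A‖ := mul_one _
  have key : ‖A‖ ≤ (‖Finsupp.linearCombination ℝ u a‖ + |d| / 2 * ‖A‖) / |d| := by
    apply ContinuousLinearMap.opNorm_le_bound _ (by positivity)
    intro x'
    set v : JFin T := ∑ s ∈ supp x', co x' s • e (ν s) with hv
    -- norm of v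
    have hvn : ‖v‖ ≤ ‖x'‖ := by
      have : ‖v‖ ^ 2 ≤ ‖x'‖ ^ 2 := by
        apply norm_sq_le
        intro P hP
        have hs : ∀ p : T × T, sumOn (Set.Icc p.1 p.2) v = sumOn (ν ⁻¹' Set.Icc p.1 p.2) x' := by
          intro p
          rw [hv, map_sum, sumOn_eq]
          refine Finset.sum_congr rfl fun s _ => ?_
          rw [map_smul, sumOn_e, smul_eq_mul]
          by_cases h : ν s ∈ Set.Icc p.1 p.2
          · have h' : s ∈ ν ⁻¹' Set.Icc p.1 p.2 := h
            rw [if_pos h, if_pos h', mul_one]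
          · have h' : s ∉ ν ⁻¹' Set.Icc p.1 p.2 := h
            rw [if_neg h, if_neg h', mul_zero]
        simp only [hs]
        apply sum_sumOn_sq_le P (fun p => ν ⁻¹' Set.Icc p.1 p.2)
        · intro p _
          constructor
          · constructor
            intro s hs t ht q hq
            exact ⟨hs.1.trans ((hν _ _).mpr hq.1), ((hν _ _).mpr hq.2).trans ht.2⟩
          · intro s hs t ht _
            rcases TreeLike.comp_of_le hs.2 ht.2 with h | h
            · exact Or.inl ((hν _ _).mp h)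
            · exact Or.inr ((hν _ _).mp h)
        · intro p hp q hq hne
          exact (hP.2 p hp q hq hne).preimage ν
      exact le_of_sq_le_sq this (norm_nonneg _)
    have hw : ∀ t, w t v = d * co x' t := by
      intro t
      rw [hv, map_sum]
      by_cases ht : t ∈ supp x'
      · rw [Finset.sum_eq_single_of_mem t ht]
        · rw [map_smul, (h1 t t).1, smul_eq_mul, mul_comm]
        · intro s _ hs
          rw [map_smul, (h1 s t).2 hs, smul_zero]
      · rw [Finset.sum_eq_zero]
        · have : co x' t = 0 := by by_contra h; exact ht (mem_supp.mpr h)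
          rw [this, mul_zero]
        · intro s hs
          have hst : s ≠ t := by rintro rfl; exact ht hs
          rw [map_smul, (h1 s t).2 hst, smul_zero]
    have hAx : d * A x' = Finsupp.linearCombination ℝ u a v -
        ∑ t ∈ a.support, a t * (u t - w t) v := by
      rw [hA, lc_apply, lc_apply, ← Finset.sum_sub_distrib, Finset.mul_sum]
      refine Finset.sum_congr rfl fun t _ => ?_
      rw [estar_apply, ContinuousLinearMap.sub_apply, hw]
      ring
    have hbound : |d| * |A x'| ≤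
        (‖Finsupp.linearCombination ℝ u a‖ + |d| / 2 * ‖A‖) * ‖x'‖ := by
      rw [← abs_mul, hAx]
      calc |Finsupp.linearCombination ℝ u a v - ∑ t ∈ a.support, a t * (u t - w t) v|
          ≤ |Finsupp.linearCombination ℝ u a v| + |∑ t ∈ a.support, a t * (u t - w t) v| :=
            abs_sub _ _
        _ ≤ ‖Finsupp.linearCombination ℝ u a‖ * ‖x'‖ +
            ∑ t ∈ a.support, ‖A‖ * (‖u t - w t‖ * ‖x'‖) := by
            gcongr
            · rw [← Real.norm_eq_abs]
              calc _ ≤ ‖Finsupp.linearCombination ℝ u a‖ * ‖v‖ :=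
                    ContinuousLinearMap.le_opNorm _ _
                _ ≤ _ := by gcongr
            · refine (Finset.abs_sum_le_sum_abs _ _).trans (Finset.sum_le_sum fun t _ => ?_)
              rw [abs_mul]
              gcongr
              · exact hcoef t
              · rw [← Real.norm_eq_abs]
                calc _ ≤ ‖u t - w t‖ * ‖v‖ := ContinuousLinearMap.le_opNorm _ _
                  _ ≤ _ := by gcongr
        _ = ‖Finsupp.linearCombination ℝ u a‖ * ‖x'‖ +
            ‖A‖ * ((∑ t ∈ a.support, ‖u t - w t‖) * ‖x'‖) := by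
            rw [← Finset.mul_sum, ← Finset.sum_mul]
        _ ≤ ‖Finsupp.linearCombination ℝ u a‖ * ‖x'‖ + ‖A‖ * (|d| / 2 * ‖x'‖) := by
            gcongr
            exact h2 _
        _ = _ := by ring
    rw [Real.norm_eq_abs, div_mul_eq_mul_div, le_div_iff₀ hd', mul_comm |A x'| |d|]
    exact hbound
  rw [le_div_iff₀ hd'] at key
  rw [hAn]
  linarith

/-- **Embedding criterion.** `u t` is a family in `X*` indexed by the tree-like poset `T'`,
`V α γ = ∑_{α ≤ t ≤ γ} u t`; upper estimate `h3`; `w` is a perturbation of `u`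
(`h2`) which is exactly biorthogonal up to the factor `d` to the nodes `ν t`. -/
theorem embed_criterion
    (r : T' → ℕ) (hr : Function.Injective r) (hmono : Monotone r)
    (u w : T' → StrongDual ℝ (JFin T)) (V : T' → T' → StrongDual ℝ (JFin T))
    (ν : T' → T) (hν : ∀ s t, ν s ≤ ν t ↔ s ≤ t) (d : ℝ) (hd : d ≠ 0) (C : ℝ)
    (h0 : ∀ α γ, α ≤ γ → ∀ F : Finset T', (∀ t, t ∈ F ↔ α ≤ t ∧ t ≤ γ) → ∑ t ∈ F, u t = V α γ)
    (h1 : ∀ s t, w t (e (ν t)) = d ∧ (s ≠ t → w t (e (ν s)) = 0))
    (h2 : ∀ F : Finset T', ∑ t ∈ F, ‖u t - w t‖ ≤ |d| / 2)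
    (h3 : ∀ P : Finset (T' × T'), IsFam P → ∀ x : JFin T,
      ∑ p ∈ P, (V p.1 p.2 x) ^ 2 ≤ C ^ 2 * ‖x‖ ^ 2) :
    ∃ S : BSpace T' →L[ℝ] StrongDual ℝ (JFin T), (∃ c > 0, ∀ f, c * ‖f‖ ≤ ‖S f‖) ∧
      ∀ f, S f ∈ (Submodule.span ℝ (Set.range u)).topologicalClosure := by
  classical
  have hup := embed_upper r hr hmono u V C h0 h3
  have hlow := embed_lower u w ν hν d hd h1 h2
  obtain ⟨S, hSeq, hSlow⟩ := extend_abs (E := StrongDual ℝ (JFin T'))
    (F := StrongDual ℝ (JFin T)) (A := (T' →₀ ℝ)) (BSpace T') (lcB T')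
    (Finsupp.linearCombination ℝ u) (denseRange_lcB T') |C| (|d| / 2) hup hlow
  refine ⟨S, ⟨|d| / 2, by positivity, hSlow⟩, ?_⟩
  intro f
  refine (denseRange_lcB T').induction_on
    (p := fun f => S f ∈ (Submodule.span ℝ (Set.range u)).topologicalClosure) f ?_ ?_
  · exact (Submodule.isClosed_topologicalClosure _).preimage S.continuous
  · intro a
    rw [hSeq]
    apply Submodule.le_topologicalClosure
    rw [← Finsupp.range_linearCombination]
    exact LinearMap.mem_range_self _ a

end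

end JTree
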