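import Mathlib

/-!
# Helly's lemma (Goldstine's theorem for finitely many functionals).
-/

open scoped BigOperators

namespace JTree

theorem helly {Y : Type*} [NormedAddCommGroup Y] [NormedSpace ℝ Y]
    (Φ : StrongDual ℝ (StrongDual ℝ Y)) {ι : Type*} [Fintype ι] (g : ι → StrongDual ℝ Y)
    {ε : ℝ} (hε : 0 < ε) :
    ∃ y : Y, ‖y‖ ≤ ‖Φ‖ + 1 ∧ ∀ i, |g i y - Φ (g i)| < ε := by
  classical
  set R : ℝ := ‖Φ‖ + 1 with hR
  have hRpos : 0 < R := by positivity
  set L : Y →L[ℝ] (ι → ℝ) := ContinuousLinearMap.pi g with hL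
  set K : Set (ι → ℝ) := closure (L '' Metric.closedBall 0 R) with hK
  have hKconv : Convex ℝ K := by
    apply Convex.closure
    exact (convex_closedBall (0 : Y) R).is_linear_image L.toLinearMap.isLinear
  have hmem : (fun i => Φ (g i)) ∈ K := by
    by_contra hnot
    obtain ⟨φ, s, h1, h2⟩ := geometric_hahn_banach_closed_point hKconv isClosed_closure hnot
    set g0 : StrongDual ℝ Y := φ.comp L with hg0
    have hval : ∀ v : ι → ℝ, φ v = ∑ i, φ (Pi.single i 1) * v i := by
      intro v
      have hv : v = ∑ i, v i • (Pi.single i (1 : ℝ) : ι → ℝ) := by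
        ext j
        simp [Finset.sum_apply, Pi.single_apply]
      conv_lhs => rw [hv]
      rw [map_sum]
      refine Finset.sum_congr rfl fun i _ => ?_
      rw [map_smul, smul_eq_mul, mul_comm]
    have hg0' : g0 = ∑ i, φ (Pi.single i 1) • g i := by
      ext y
      rw [hg0, ContinuousLinearMap.comp_apply, hval, ContinuousLinearMap.sum_apply]
      refine Finset.sum_congr rfl fun i _ => ?_
      rfl
    have hΦ : Φ g0 = φ (fun i => Φ (g i)) := by
      rw [hval, hg0', map_sum]
      refine Finset.sum_congr rfl fun i _ => ?_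
      rw [map_smul, smul_eq_mul]
    have hball : ∀ y : Y, ‖y‖ ≤ R → g0 y < s := by
      intro y hy
      apply h1
      apply subset_closure
      exact ⟨y, by simpa using hy, rfl⟩
    have hs : 0 < s := by
      have := hball 0 (by simp [hRpos.le])
      simpa using this
    have hnorm : ‖g0‖ ≤ s / R := by
      apply ContinuousLinearMap.opNorm_le_of_unit_norm (by positivity)
      intro y hy
      have hb1 := hball (R • y) (by rw [norm_smul, hy, Real.norm_of_nonneg hRpos.le, mul_one])
      have hb2 := hball (-(R • y)) (by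
        rw [norm_neg, norm_smul, hy, Real.norm_of_nonneg hRpos.le, mul_one])
      rw [map_smul, smul_eq_mul] at hb1
      rw [map_neg, map_smul, smul_eq_mul] at hb2
      rw [Real.norm_eq_abs, abs_le]
      constructor
      · have h6 : -g0 y ≤ s / R := by
          rw [le_div_iff₀ hRpos]; linarith
        linarith
      · rw [le_div_iff₀ hRpos]; linarith
    have h3 : Φ g0 ≤ ‖Φ‖ * (s / R) := by
      calc Φ g0 ≤ |Φ g0| := le_abs_self _
        _ ≤ ‖Φ‖ * ‖g0‖ := by rw [← Real.norm_eq_abs]; exact ContinuousLinearMap.le_opNorm _ _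
        _ ≤ ‖Φ‖ * (s / R) := by gcongr
    have h4 : ‖Φ‖ * (s / R) ≤ s := by
      rw [mul_div_assoc', div_le_iff₀ hRpos, mul_comm]
      gcongr
      linarith
    rw [hΦ] at h3
    linarith
  obtain ⟨v, ⟨y, hy, rfl⟩, hv⟩ := Metric.mem_closure_iff.mp hmem ε hε
  refine ⟨y, by simpa using hy, fun i => ?_⟩
  have h5 := (dist_pi_lt_iff hε).mp hv i
  rw [Real.dist_eq, abs_sub_comm] at h5
  exact h5

end JTree
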