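import Pool.Agent.Work.MP_245e03_an.Structure
import Pool.Agent.Work.MP_245e03_an.Embed

/-! The interface: everything is now proved in `Structure.lean` and `Embed.lean`. -/
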