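import Pool.Agent.Work.MP_245e03_an.Branch
import Pool.Agent.Work.MP_245e03_an.Embed

/-!
# `J*` embeds into the closed span of the biorthogonal functionals.
-/

open scoped BigOperators
open Finset

namespace JTree

lemma lin_ext {T V : Type*} [AddCommGroup V] [Module ℝ V] {F G : JFin T →ₗ[ℝ] V}
    (h : ∀ a, F (e a) = G (e a)) : F = G := by
  apply LinearMap.ext
  intro x
  rw [eq_sum_e x, map_sum, map_sum]
  refine Finset.sum_congr rfl fun a _ => ?_
  rw [map_smul, map_smul, h]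

/-- Left shift. -/
noncomputable def Lsh : JFin ℕ →ₗ[ℝ] JFin ℕ :=
  (Finsupp.linearCombination ℝ (fun n : ℕ => (if n = 0 then 0 else e (n - 1) : JFin ℕ)) :
    (ℕ →₀ ℝ) →ₗ[ℝ] JFin ℕ)

/-- Right shift. -/
noncomputable def Rsh : JFin ℕ →ₗ[ℝ] JFin ℕ :=
  (Finsupp.linearCombination ℝ (fun n : ℕ => (e (n + 1) : JFin ℕ)) :
    (ℕ →₀ ℝ) →ₗ[ℝ] JFin ℕ)

lemma Lsh_e (n : ℕ) : Lsh (e n) = if n = 0 then 0 else e (n - 1) := by
  show Finsupp.linearCombination ℝ _ (Finsupp.single n (1 : ℝ)) = _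
  rw [Finsupp.linearCombination_single, one_smul]

lemma Rsh_e (n : ℕ) : Rsh (e n) = e (n + 1) := by
  show Finsupp.linearCombination ℝ _ (Finsupp.single n (1 : ℝ)) = _
  rw [Finsupp.linearCombination_single, one_smul]

lemma Lsh_Rsh (x : JFin ℕ) : Lsh (Rsh x) = x := by
  have : Lsh ∘ₗ Rsh = LinearMap.id := by
    apply lin_ext
    intro a
    rw [LinearMap.comp_apply, Rsh_e, Lsh_e, LinearMap.id_apply]
    simp
  exact congrArg (fun F : JFin ℕ →ₗ[ℝ] JFin ℕ => F x) this

lemma sumOn_Lsh (A : Set ℕ) (x : JFin ℕ) : sumOn A (Lsh x) = sumOn (Nat.succ '' A) x := by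
  classical
  have : sumOn A ∘ₗ Lsh = sumOn (Nat.succ '' A) := by
    apply lin_ext
    intro a
    rw [LinearMap.comp_apply, Lsh_e, sumOn_e]
    cases a with
    | zero => simp
    | succ n =>
      rw [if_neg (Nat.succ_ne_zero n)]
      simp only [Nat.add_sub_cancel]
      rw [sumOn_e]
      have : (n + 1 ∈ Nat.succ '' A) ↔ n ∈ A := by
        constructor
        · rintro ⟨k, hk, hkn⟩
          have : k = n := Nat.succ_injective hkn
          rwa [← this]
        · intro h; exact ⟨n, h, rfl⟩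
      simp only [this]
  exact congrArg (fun F : JFin ℕ →ₗ[ℝ] ℝ => F x) this

lemma sumOn_Rsh (A : Set ℕ) (x : JFin ℕ) : sumOn A (Rsh x) = sumOn (Nat.succ ⁻¹' A) x := by
  classical
  have : sumOn A ∘ₗ Rsh = sumOn (Nat.succ ⁻¹' A) := by
    apply lin_ext
    intro a
    rw [LinearMap.comp_apply, Rsh_e, sumOn_e, sumOn_e]
    rfl
  exact congrArg (fun F : JFin ℕ →ₗ[ℝ] ℝ => F x) this

lemma norm_Lsh_le (x : JFin ℕ) : ‖Lsh x‖ ≤ ‖x‖ := by
  apply le_of_sq_le_sq _ (norm_nonneg _)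
  apply norm_sq_le
  intro P hP
  simp only [sumOn_Lsh]
  apply sum_sumOn_sq_le P (fun p => Nat.succ '' Set.Icc p.1 p.2)
  · intro p _
    constructor
    · constructor
      rintro _ ⟨a, ha, rfl⟩ _ ⟨b, hb, rfl⟩ c hc
      have h1 : a + 1 ≤ c := hc.1
      have h2 : c ≤ b + 1 := hc.2
      refine ⟨c - 1, ⟨?_, ?_⟩, ?_⟩
      · have := ha.1; omega
      · have := hb.2; omega
      · show c - 1 + 1 = c
        omega
    · intro a _ b _ _; exact le_total a b
  · intro p hp q hq hne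
    exact (Set.disjoint_image_iff Nat.succ_injective).mpr (hP.2 p hp q hq hne)

lemma norm_Rsh_le (x : JFin ℕ) : ‖Rsh x‖ ≤ ‖x‖ := by
  apply le_of_sq_le_sq _ (norm_nonneg _)
  apply norm_sq_le
  intro P hP
  simp only [sumOn_Rsh]
  apply sum_sumOn_sq_le P (fun p => Nat.succ ⁻¹' Set.Icc p.1 p.2)
  · intro p _
    constructor
    · constructor
      intro a ha b hb c hc
      have h1 : p.1 ≤ a + 1 := ha.1
      have h2 : b + 1 ≤ p.2 := hb.2
      have h3 := hc.1
      have h4 := hc.2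
      show p.1 ≤ c + 1 ∧ c + 1 ≤ p.2
      constructor <;> omega
    · intro a _ b _ _; exact le_total a b
  · intro p hp q hq hne
    exact (hP.2 p hp q hq hne).preimage _

/-- Continuous left shift. -/
noncomputable def LshL : JFin ℕ →L[ℝ] JFin ℕ :=
  Lsh.mkContinuous 1 (fun x => by rw [one_mul]; exact norm_Lsh_le x)

/-- Continuous right shift. -/
noncomputable def RshL : JFin ℕ →L[ℝ] JFin ℕ :=
  Rsh.mkContinuous 1 (fun x => by rw [one_mul]; exact norm_Rsh_le x)

lemma LshL_apply (x : JFin ℕ) : LshL x = Lsh x := rfl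
lemma RshL_apply (x : JFin ℕ) : RshL x = Rsh x := rfl

lemma isBranch_nat : IsBranch (fun n : ℕ => n) where
  mono := fun _ _ h => h
  escape := fun t => ⟨t + 1, by omega⟩

lemma down_nat : down (fun n : ℕ => n) = Set.univ := by
  ext a
  exact ⟨fun _ => trivial, fun _ => ⟨a, le_refl _⟩⟩

/-- The limit of a functional on `J`. -/
noncomputable def cJ (f : StrongDual ℝ (JFin ℕ)) : ℝ := (branch_thm isBranch_nat f).choose

lemma tendsto_cJ (f : StrongDual ℝ (JFin ℕ)) :
    Filter.Tendsto (fun n => f (e n)) Filter.atTop (nhds (cJ f)) :=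
  (branch_thm isBranch_nat f).choose_spec.1

lemma cJ_spec (f : StrongDual ℝ (JFin ℕ)) :
    ∀ ε > 0, ∃ n, ∀ x ∈ Sup (Set.Ici n), |f x - cJ f * sumOn Set.univ x| ≤ ε * ‖x‖ := by
  rw [← down_nat]
  exact (branch_thm isBranch_nat f).choose_spec.2

lemma abs_cJ_le (f : StrongDual ℝ (JFin ℕ)) : |cJ f| ≤ ‖f‖ := by
  refine le_of_tendsto (tendsto_cJ f).abs (Filter.Eventually.of_forall fun n => ?_)
  rw [← Real.norm_eq_abs]
  calc ‖f (e n)‖ ≤ ‖f‖ * ‖(e n : JFin ℕ)‖ := ContinuousLinearMap.le_opNorm _ _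
    _ ≤ ‖f‖ * 1 := by gcongr; exact norm_e _
    _ = ‖f‖ := mul_one _

lemma isSeg_univ_nat : IsSeg (Set.univ : Set ℕ) :=
  ⟨Set.ordConnected_univ, fun a _ b _ _ => le_total a b⟩

/-- The functional `f - c s`. -/
noncomputable def gJ (f : StrongDual ℝ (JFin ℕ)) : StrongDual ℝ (JFin ℕ) :=
  f - cJ f • bOn Set.univ

lemma gJ_apply (f : StrongDual ℝ (JFin ℕ)) (x : JFin ℕ) :
    gJ f x = f x - cJ f * sumOn Set.univ x := by
  unfold gJ
  rw [ContinuousLinearMap.sub_apply, ContinuousLinearMap.smul_apply, bOn_apply isSeg_univ_nat,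
    smul_eq_mul]

/-- The embedding of `J*` as a function. -/
noncomputable def ThetaFun (f : StrongDual ℝ (JFin ℕ)) : StrongDual ℝ (JFin ℕ) :=
  cJ f • estar 0 + (gJ f).comp LshL

lemma estar_mem (T : Type*) [PartialOrder T] [TreeLike T] (a : T) : estar a ∈ BSpace T :=
  Submodule.le_topologicalClosure _ (Submodule.subset_span ⟨a, rfl⟩)

lemma comp_mem (f : StrongDual ℝ (JFin ℕ)) : (gJ f).comp LshL ∈ BSpace ℕ := by
  classical
  have hcl : (gJ f).comp LshL ∈ closure ((Submodule.span ℝ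
      (Set.range (estar : ℕ → StrongDual ℝ (JFin ℕ))) : Submodule ℝ _) :
        Set (StrongDual ℝ (JFin ℕ))) := by
    rw [Metric.mem_closure_iff]
    intro ε hε
    obtain ⟨n, hn⟩ := cJ_spec f (ε / 2) (half_pos hε)
    refine ⟨∑ k ∈ Finset.range n, gJ f (e k) • estar (k + 1), ?_, ?_⟩
    · apply Submodule.sum_mem
      intro k _
      exact Submodule.smul_mem _ _ (Submodule.subset_span ⟨k + 1, rfl⟩)
    · rw [dist_eq_norm]
      refine lt_of_le_of_lt ?_ (half_lt_self hε)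
      apply ContinuousLinearMap.opNorm_le_bound _ (by positivity)
      intro x
      have h1 : Lsh x = ∑ k ∈ Finset.range n, co (Lsh x) k • e k + proj (Set.Ici n) (Lsh x) := by
        apply ext_co
        intro b
        have h : ∀ s : Finset ℕ, co (∑ k ∈ s, co (Lsh x) k • (e k : JFin ℕ)) b =
            if b ∈ s then co (Lsh x) b else 0 := by
          intro s
          induction s using Finset.induction_on with
          | empty => simp
          | insert a s ha ih =>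
            rw [Finset.sum_insert ha, co_add, ih, co_smul, co_e]
            by_cases hab : a = b
            · subst hab
              simp [ha]
            · have hba : b ≠ a := fun h => hab h.symm
              simp [hab, hba]
        rw [co_add, h, co_proj]
        by_cases hb : b < n
        · have h2 : b ∉ Set.Ici n := by simp [hb]
          rw [if_pos (Finset.mem_range.mpr hb), if_neg h2, add_zero]
        · have h2 : b ∈ Set.Ici n := by simpa using hb
          rw [if_neg (by simpa using hb), if_pos h2, zero_add]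
      have h2 : ∀ k, co (Lsh x) k = co x (k + 1) := by
        intro k
        rw [← sumOn_singleton, sumOn_Lsh, Set.image_singleton, sumOn_singleton]
      have h3 : ((gJ f).comp LshL - ∑ k ∈ Finset.range n, gJ f (e k) • estar (k + 1)) x =
          gJ f (proj (Set.Ici n) (Lsh x)) := by
        rw [ContinuousLinearMap.sub_apply, ContinuousLinearMap.comp_apply, LshL_apply,
          ContinuousLinearMap.sum_apply]
        conv_lhs => rw [h1]
        rw [map_add, map_sum]
        have h4 : ∑ k ∈ Finset.range n, gJ f (co (Lsh x) k • (e k : JFin ℕ)) =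
            ∑ k ∈ Finset.range n, (gJ f (e k) • (estar (k + 1) : StrongDual ℝ (JFin ℕ))) x := by
          refine Finset.sum_congr rfl fun k _ => ?_
          rw [map_smul, ContinuousLinearMap.smul_apply, estar_apply, h2, smul_eq_mul, smul_eq_mul,
            mul_comm]
        rw [h4]; ring
      rw [h3, Real.norm_eq_abs, gJ_apply]
      calc _ ≤ ε / 2 * ‖proj (Set.Ici n) (Lsh x)‖ := hn _ (proj_mem_Sup _ _)
        _ ≤ ε / 2 * ‖x‖ := by
            gcongr
            exact (norm_proj_le Set.ordConnected_Ici _).trans (norm_Lsh_le x)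
  have : ((BSpace ℕ : Submodule ℝ _) : Set (StrongDual ℝ (JFin ℕ))) = closure _ :=
    Submodule.topologicalClosure_coe _
  rw [← SetLike.mem_coe, this]
  exact hcl

lemma ThetaFun_mem (f : StrongDual ℝ (JFin ℕ)) : ThetaFun f ∈ BSpace ℕ :=
  Submodule.add_mem _ (Submodule.smul_mem _ _ (estar_mem ℕ 0)) (comp_mem f)

lemma cJ_add (f g : StrongDual ℝ (JFin ℕ)) : cJ (f + g) = cJ f + cJ g :=
  tendsto_nhds_unique (tendsto_cJ (f + g)) ((tendsto_cJ f).add (tendsto_cJ g))

lemma cJ_smul (r : ℝ) (f : StrongDual ℝ (JFin ℕ)) : cJ (r • f) = r * cJ f :=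
  tendsto_nhds_unique (tendsto_cJ (r • f)) ((tendsto_cJ f).const_mul r)

lemma ThetaFun_apply (f : StrongDual ℝ (JFin ℕ)) (x : JFin ℕ) :
    ThetaFun f x = cJ f * co x 0 + (f (Lsh x) - cJ f * sumOn Set.univ (Lsh x)) := by
  unfold ThetaFun
  rw [ContinuousLinearMap.add_apply, ContinuousLinearMap.smul_apply, estar_apply,
    ContinuousLinearMap.comp_apply, LshL_apply, gJ_apply, smul_eq_mul]

lemma norm_ThetaFun_le (f : StrongDual ℝ (JFin ℕ)) : ‖ThetaFun f‖ ≤ 3 * ‖f‖ := by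
  apply ContinuousLinearMap.opNorm_le_bound _ (by positivity)
  intro x
  rw [ThetaFun_apply, Real.norm_eq_abs]
  have h1 : |cJ f * co x 0| ≤ ‖f‖ * ‖x‖ := by
    rw [abs_mul]
    have := abs_cJ_le f
    have := abs_co_le_norm x 0
    gcongr
  have h2 : |f (Lsh x)| ≤ ‖f‖ * ‖x‖ := by
    rw [← Real.norm_eq_abs]
    calc _ ≤ ‖f‖ * ‖Lsh x‖ := ContinuousLinearMap.le_opNorm _ _
      _ ≤ ‖f‖ * ‖x‖ := by gcongr; exact norm_Lsh_le x
  have h3 : |cJ f * sumOn Set.univ (Lsh x)| ≤ ‖f‖ * ‖x‖ := by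
    rw [abs_mul]
    have h4 := abs_cJ_le f
    have h5 : |sumOn Set.univ (Lsh x)| ≤ ‖x‖ := by
      rw [← bOn_apply isSeg_univ_nat, ← Real.norm_eq_abs]
      calc _ ≤ ‖bOn (Set.univ : Set ℕ)‖ * ‖Lsh x‖ := ContinuousLinearMap.le_opNorm _ _
        _ ≤ 1 * ‖x‖ := by gcongr; exact norm_bOn_le _; exact norm_Lsh_le x
        _ = ‖x‖ := one_mul _
    gcongr
  calc |cJ f * co x 0 + (f (Lsh x) - cJ f * sumOn Set.univ (Lsh x))|
      ≤ |cJ f * co x 0| + (|f (Lsh x)| + |cJ f * sumOn Set.univ (Lsh x)|) :=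
        (abs_add_le _ _).trans (add_le_add (le_refl _) (abs_sub _ _))
    _ ≤ ‖f‖ * ‖x‖ + (‖f‖ * ‖x‖ + ‖f‖ * ‖x‖) := by gcongr
    _ = 3 * ‖f‖ * ‖x‖ := by ring

lemma norm_le_ThetaFun (f : StrongDual ℝ (JFin ℕ)) : ‖f‖ ≤ 2 * ‖ThetaFun f‖ := by
  classical
  have h1 : |cJ f| ≤ ‖ThetaFun f‖ := by
    have h2 : ThetaFun f (e 0) = cJ f := by
      rw [ThetaFun_apply, co_e, if_pos rfl, Lsh_e, if_pos rfl, map_zero, map_zero]
      ring
    rw [← h2, ← Real.norm_eq_abs]
    calc _ ≤ ‖ThetaFun f‖ * ‖(e 0 : JFin ℕ)‖ := ContinuousLinearMap.le_opNorm _ _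
      _ ≤ ‖ThetaFun f‖ * 1 := by gcongr; exact norm_e _
      _ = _ := mul_one _
  have h3 : ∀ x, |f x - cJ f * sumOn Set.univ x| ≤ ‖ThetaFun f‖ * ‖x‖ := by
    intro x
    have h4 : ThetaFun f (Rsh x) = f x - cJ f * sumOn Set.univ x := by
      rw [ThetaFun_apply, Lsh_Rsh, ← sumOn_singleton, sumOn_Rsh]
      have : (Nat.succ ⁻¹' ({0} : Set ℕ)) = ∅ := by
        ext n; simp
      rw [this, sumOn_eq_zero (fun a _ => Set.notMem_empty a)]
      ring
    rw [← h4, ← Real.norm_eq_abs]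
    calc _ ≤ ‖ThetaFun f‖ * ‖Rsh x‖ := ContinuousLinearMap.le_opNorm _ _
      _ ≤ _ := by gcongr; exact norm_Rsh_le x
  apply ContinuousLinearMap.opNorm_le_bound _ (by positivity)
  intro x
  rw [Real.norm_eq_abs]
  have h5 : |sumOn Set.univ x| ≤ ‖x‖ := by
    rw [← bOn_apply isSeg_univ_nat, ← Real.norm_eq_abs]
    calc _ ≤ ‖bOn (Set.univ : Set ℕ)‖ * ‖x‖ := ContinuousLinearMap.le_opNorm _ _
      _ ≤ 1 * ‖x‖ := by gcongr; exact norm_bOn_le _
      _ = ‖x‖ := one_mul _
  calc |f x| = |(f x - cJ f * sumOn Set.univ x) + cJ f * sumOn Set.univ x| := by ring_nf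
    _ ≤ |f x - cJ f * sumOn Set.univ x| + |cJ f * sumOn Set.univ x| := abs_add_le _ _
    _ ≤ ‖ThetaFun f‖ * ‖x‖ + ‖ThetaFun f‖ * ‖x‖ := by
        refine add_le_add (h3 x) ?_
        rw [abs_mul]
        gcongr
    _ = _ := by ring

/-- **`J*` embeds into `B(ℕ)`.** -/
theorem exists_theta : ∃ Θ : StrongDual ℝ (JFin ℕ) →L[ℝ] BSpace ℕ, ∀ f, ‖f‖ ≤ 2 * ‖Θ f‖ := by
  refine ⟨LinearMap.mkContinuous
    { toFun := fun f => (⟨ThetaFun f, ThetaFun_mem f⟩ : BSpace ℕ)
      map_add' := ?_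
      map_smul' := ?_ } 3 ?_, ?_⟩
  · intro f g
    apply Subtype.ext
    show ThetaFun (f + g) = ThetaFun f + ThetaFun g
    ext x
    rw [ContinuousLinearMap.add_apply, ThetaFun_apply, ThetaFun_apply, ThetaFun_apply, cJ_add,
      ContinuousLinearMap.add_apply]
    ring
  · intro r f
    apply Subtype.ext
    show ThetaFun (r • f) = r • ThetaFun f
    ext x
    rw [ContinuousLinearMap.smul_apply, ThetaFun_apply, ThetaFun_apply, cJ_smul,
      ContinuousLinearMap.smul_apply]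
    simp only [smul_eq_mul]
    ring
  · intro f
    exact norm_ThetaFun_le f
  · intro f
    exact norm_le_ThetaFun f

end JTree
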