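import Pool.Agent.Work.MP_245e03_an.Basic

/-!
# Projections, restrictions of functionals, functionals of segments.
-/

open scoped BigOperators
open Finset

namespace JTree

section
variable {T : Type*}

open Classical in
/-- Restriction of a vector to a set. -/
noncomputable def proj (A : Set T) : JFin T →ₗ[ℝ] JFin T where
  toFun x := (Finsupp.filter (· ∈ A) (show T →₀ ℝ from x) : T →₀ ℝ)
  map_add' _ _ := Finsupp.filter_add
  map_smul' _ _ := Finsupp.filter_smul

open Classical in
lemma co_proj (A : Set T) (x : JFin T) (a : T) : co (proj A x) a = if a ∈ A then co x a else 0 := by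
  show (Finsupp.filter (· ∈ A) (show T →₀ ℝ from x) : T →₀ ℝ) a = _
  rw [Finsupp.filter_apply]
  rfl

lemma co_proj_of_mem {A : Set T} {x : JFin T} {a : T} (h : a ∈ A) : co (proj A x) a = co x a := by
  classical
  rw [co_proj, if_pos h]

lemma co_proj_of_notMem {A : Set T} {x : JFin T} {a : T} (h : a ∉ A) : co (proj A x) a = 0 := by
  classical
  rw [co_proj, if_neg h]

lemma supp_proj_subset (A : Set T) (x : JFin T) : supp (proj A x) ⊆ supp x := by
  intro a ha
  rw [mem_supp] at *
  by_cases h : a ∈ A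
  · rwa [co_proj_of_mem h] at ha
  · exact absurd (co_proj_of_notMem h) ha

lemma sumOn_proj (A B : Set T) (x : JFin T) : sumOn B (proj A x) = sumOn (B ∩ A) x := by
  classical
  rw [sumOn_eq_of_subset _ _ (supp x) (supp_proj_subset A x), sumOn_eq]
  refine Finset.sum_congr rfl fun a _ => ?_
  by_cases hB : a ∈ B <;> by_cases hA : a ∈ A
  · simp [hA, hB, co_proj_of_mem hA]
  · simp [hA, hB, co_proj_of_notMem hA]
  · simp [hA, hB]
  · simp [hA, hB]

lemma proj_proj (A B : Set T) (x : JFin T) : proj A (proj B x) = proj (A ∩ B) x := by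
  classical
  apply ext_co
  intro a
  simp only [co_proj]
  by_cases hA : a ∈ A <;> by_cases hB : a ∈ B <;> simp [hA, hB]

/-- Vectors supported in a set. -/
def Sup (A : Set T) : Submodule ℝ (JFin T) where
  carrier := {x | ∀ a, a ∉ A → co x a = 0}
  add_mem' := by
    intro x y hx hy a ha
    rw [co_add, hx a ha, hy a ha, add_zero]
  zero_mem' := by intro a _; rfl
  smul_mem' := by
    intro r x hx a ha
    rw [co_smul, hx a ha, mul_zero]

lemma mem_Sup {A : Set T} {x : JFin T} : x ∈ Sup A ↔ ∀ a, a ∉ A → co x a = 0 := Iff.rfl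

lemma mem_Sup_iff_supp {A : Set T} {x : JFin T} : x ∈ Sup A ↔ ∀ a ∈ supp x, a ∈ A := by
  rw [mem_Sup]
  constructor
  · intro h a ha
    by_contra h'
    exact mem_supp.mp ha (h a h')
  · intro h a ha
    by_contra h'
    exact ha (h a (mem_supp.mpr h'))

lemma Sup_mono {A B : Set T} (h : A ⊆ B) : Sup A ≤ Sup B := fun _ hx a ha => hx a fun h' => ha (h h')

lemma proj_mem_Sup (A : Set T) (x : JFin T) : proj A x ∈ Sup A := fun _ ha => co_proj_of_notMem ha

lemma proj_eq_self {A : Set T} {x : JFin T} (h : x ∈ Sup A) : proj A x = x := by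
  classical
  apply ext_co
  intro a
  rw [co_proj]
  split_ifs with ha
  · rfl
  · exact (h a ha).symm

lemma e_mem_Sup {A : Set T} {a : T} (h : a ∈ A) : e a ∈ Sup A := by
  classical
  intro b hb
  rw [co_e]
  have : a ≠ b := by rintro rfl; exact hb h
  simp [this]

lemma sumOn_congr_of_mem_Sup {A B C : Set T} {x : JFin T} (hx : x ∈ Sup C)
    (h : ∀ a ∈ C, (a ∈ A ↔ a ∈ B)) : sumOn A x = sumOn B x :=
  sumOn_congr fun a ha => h a (mem_Sup_iff_supp.mp hx a ha)

lemma sumOn_eq_zero_of_mem_Sup {A C : Set T} {x : JFin T} (hx : x ∈ Sup C)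
    (h : ∀ a ∈ C, a ∉ A) : sumOn A x = 0 :=
  sumOn_eq_zero fun a ha => h a (mem_Sup_iff_supp.mp hx a ha)

open Classical in
/-- Decomposition along unit vectors. -/
lemma eq_sum_e (x : JFin T) : x = ∑ a ∈ supp x, co x a • e a := by
  apply ext_co
  intro b
  have h : ∀ s : Finset T, co (∑ a ∈ s, co x a • e a) b = ∑ a ∈ s, if a = b then co x a else 0 := by
    intro s
    induction s using Finset.induction_on with
    | empty => simp
    | insert a s ha ih =>
      rw [Finset.sum_insert ha, Finset.sum_insert ha, co_add, ih, co_smul, co_e]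
      congr 1
      split_ifs <;> simp
  rw [h]
  by_cases hb : b ∈ supp x
  · rw [Finset.sum_ite_eq' (supp x) b, if_pos hb]
  · rw [Finset.sum_ite_eq' (supp x) b, if_neg hb]
    by_contra h'
    exact hb (mem_supp.mpr h')

end

section
variable {T : Type*} [PartialOrder T] [TreeLike T]

/-- **Square lemma.** For pairwise disjoint convex sets `A i`:
`∑ ‖x|A i‖² ≤ ‖x‖²`. -/
theorem sum_norm_proj_sq_le {ι : Type*} (s : Finset ι) (A : ι → Set T)
    (hA : ∀ i ∈ s, (A i).OrdConnected)
    (hd : ∀ i ∈ s, ∀ j ∈ s, i ≠ j → Disjoint (A i) (A j)) (x : JFin T) :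
    ∑ i ∈ s, ‖proj (A i) x‖ ^ 2 ≤ ‖x‖ ^ 2 := by
  classical
  apply le_of_forall_pos_le_add
  intro ε hε
  have hs0 : (0 : ℝ) ≤ s.card := Nat.cast_nonneg _
  set δ : ℝ := ε / (s.card + 1) with hδ
  have hδpos : 0 < δ := by positivity
  have hex : ∀ i, ∃ P : Finset (T × T), IsFam P ∧
      ‖proj (A i) x‖ ^ 2 ≤ ∑ p ∈ P, (sumOn (Set.Icc p.1 p.2) (proj (A i) x)) ^ 2 + δ := by
    intro i
    by_contra hcon
    push Not at hcon
    have : ‖proj (A i) x‖ ^ 2 ≤ ‖proj (A i) x‖ ^ 2 - δ := by
      apply norm_sq_le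
      intro P hP
      linarith [hcon P hP]
    linarith
  choose P hP hPle using hex
  have h1 : ∑ i ∈ s, ‖proj (A i) x‖ ^ 2 ≤
      ∑ i ∈ s, (∑ p ∈ P i, (sumOn (Set.Icc p.1 p.2 ∩ A i) x) ^ 2) + s.card * δ := by
    calc ∑ i ∈ s, ‖proj (A i) x‖ ^ 2
        ≤ ∑ i ∈ s, (∑ p ∈ P i, (sumOn (Set.Icc p.1 p.2 ∩ A i) x) ^ 2 + δ) := by
          refine Finset.sum_le_sum fun i _ => ?_
          have := hPle i
          simpa only [sumOn_proj] using this
      _ = _ := by rw [Finset.sum_add_distrib, Finset.sum_const, nsmul_eq_mul]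
  have h2 : ∑ i ∈ s, (∑ p ∈ P i, (sumOn (Set.Icc p.1 p.2 ∩ A i) x) ^ 2) ≤ ‖x‖ ^ 2 := by
    rw [Finset.sum_sigma' s P (fun i p => (sumOn (Set.Icc p.1 p.2 ∩ A i) x) ^ 2)]
    apply sum_sumOn_sq_le (s.sigma P) (fun ip : (Σ _ : ι, T × T) => Set.Icc ip.2.1 ip.2.2 ∩ A ip.1)
    · intro ip hip
      rw [Finset.mem_sigma] at hip
      exact (isSeg_Icc _ _).inter (hA _ hip.1)
    · rintro ⟨i, p⟩ hip ⟨j, q⟩ hjq hne
      rw [Finset.mem_sigma] at hip hjq
      by_cases hij : i = j
      · subst hij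
        have hpq : p ≠ q := by rintro rfl; exact hne rfl
        exact ((hP i).2 p hip.2 q hjq.2 hpq).mono Set.inter_subset_left Set.inter_subset_left
      · exact (hd i hip.1 j hjq.1 hij).mono Set.inter_subset_right Set.inter_subset_right
  have h3 : (s.card : ℝ) * δ ≤ ε := by
    rw [hδ, mul_div_assoc', div_le_iff₀ (by positivity)]
    nlinarith
  linarith

lemma norm_proj_le {A : Set T} (hA : A.OrdConnected) (x : JFin T) : ‖proj A x‖ ≤ ‖x‖ := by
  have h := sum_norm_proj_sq_le ({()} : Finset Unit) (fun _ => A) (fun _ _ => hA)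
    (fun i _ j _ hij => absurd rfl hij) x
  rw [Finset.sum_singleton] at h
  exact le_of_sq_le_sq h (norm_nonneg _)

open Classical in
/-- The projection as a continuous linear map (zero if `A` is not convex). -/
noncomputable def projL (A : Set T) : JFin T →L[ℝ] JFin T :=
  if h : A.OrdConnected then
    (proj A).mkContinuous 1 (fun x => by simpa using norm_proj_le h x) else 0

lemma projL_apply {A : Set T} (hA : A.OrdConnected) (x : JFin T) : projL A x = proj A x := by
  unfold projL
  rw [dif_pos hA]; rfl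

lemma norm_projL_le (A : Set T) : ‖projL A‖ ≤ 1 := by
  unfold projL
  split_ifs with h
  · exact LinearMap.mkContinuous_norm_le _ zero_le_one _
  · simp

/-- Restriction of a functional to a convex set: `f|A (x) = f (x|A)`. -/
noncomputable def restr (A : Set T) (f : StrongDual ℝ (JFin T)) : StrongDual ℝ (JFin T) :=
  f.comp (projL A)

lemma restr_apply {A : Set T} (hA : A.OrdConnected) (f : StrongDual ℝ (JFin T)) (x : JFin T) :
    restr A f x = f (proj A x) := by
  unfold restr
  rw [ContinuousLinearMap.comp_apply, projL_apply hA]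

@[simp] lemma restr_add (A : Set T) (f g : StrongDual ℝ (JFin T)) :
    restr A (f + g) = restr A f + restr A g := ContinuousLinearMap.add_comp _ _ _
@[simp] lemma restr_sub (A : Set T) (f g : StrongDual ℝ (JFin T)) :
    restr A (f - g) = restr A f - restr A g := ContinuousLinearMap.sub_comp _ _ _
@[simp] lemma restr_smul (A : Set T) (r : ℝ) (f : StrongDual ℝ (JFin T)) :
    restr A (r • f) = r • restr A f := ContinuousLinearMap.smul_comp _ _ _
@[simp] lemma restr_zero (A : Set T) : restr A (0 : StrongDual ℝ (JFin T)) = 0 :=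
  ContinuousLinearMap.zero_comp _
lemma restr_sum {ι : Type*} (A : Set T) (s : Finset ι) (f : ι → StrongDual ℝ (JFin T)) :
    restr A (∑ i ∈ s, f i) = ∑ i ∈ s, restr A (f i) := by
  classical
  induction s using Finset.induction_on with
  | empty => simp
  | insert a s ha ih => rw [Finset.sum_insert ha, Finset.sum_insert ha, restr_add, ih]

lemma norm_restr_le (A : Set T) (f : StrongDual ℝ (JFin T)) : ‖restr A f‖ ≤ ‖f‖ := by
  unfold restr
  calc ‖f.comp (projL A)‖ ≤ ‖f‖ * ‖projL A‖ := ContinuousLinearMap.opNorm_comp_le _ _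
    _ ≤ ‖f‖ * 1 := by gcongr; exact norm_projL_le A
    _ = ‖f‖ := mul_one _

lemma restr_le_of_mem {A : Set T} (hA : A.OrdConnected) (f : StrongDual ℝ (JFin T)) {C : ℝ}
    (hC : 0 ≤ C) (h : ∀ x ∈ Sup A, |f x| ≤ C * ‖x‖) : ‖restr A f‖ ≤ C := by
  apply ContinuousLinearMap.opNorm_le_bound _ hC
  intro x
  rw [restr_apply hA, Real.norm_eq_abs]
  calc |f (proj A x)| ≤ C * ‖proj A x‖ := h _ (proj_mem_Sup A x)
    _ ≤ C * ‖x‖ := by gcongr; exact norm_proj_le hA x

lemma abs_apply_le_restr {A : Set T} (hA : A.OrdConnected) (f : StrongDual ℝ (JFin T))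
    {x : JFin T} (hx : x ∈ Sup A) : |f x| ≤ ‖restr A f‖ * ‖x‖ := by
  have h : restr A f x = f x := by rw [restr_apply hA, proj_eq_self hx]
  rw [← h, ← Real.norm_eq_abs]
  exact ContinuousLinearMap.le_opNorm _ _

lemma restr_restr {A B : Set T} (hA : A.OrdConnected) (hB : B.OrdConnected)
    (f : StrongDual ℝ (JFin T)) : restr A (restr B f) = restr (A ∩ B) f := by
  ext x
  rw [restr_apply hA, restr_apply hB, restr_apply (hA.inter hB), proj_proj, Set.inter_comm]

open Classical in
/-- The functional `x ↦ ∑_{a ∈ A} x a` of a convex chain `A` (zero otherwise). -/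
noncomputable def bOn (A : Set T) : StrongDual ℝ (JFin T) :=
  if h : IsSeg A then
    (sumOn A).mkContinuous 1 (fun x => by
      have := sum_sumOn_sq_le ({()} : Finset Unit) (fun _ => A) (fun _ _ => h)
        (fun i _ j _ hij => absurd rfl hij) x
      rw [Finset.sum_singleton] at this
      rw [one_mul, Real.norm_eq_abs]
      exact abs_le_of_sq_le_sq this (norm_nonneg _)) else 0

lemma bOn_apply {A : Set T} (hA : IsSeg A) (x : JFin T) : bOn A x = sumOn A x := by
  unfold bOn
  rw [dif_pos hA]; rfl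

lemma norm_bOn_le (A : Set T) : ‖bOn A‖ ≤ 1 := by
  unfold bOn
  split_ifs with h
  · exact LinearMap.mkContinuous_norm_le _ zero_le_one _
  · simp

lemma restr_bOn {A B : Set T} (hA : A.OrdConnected) (hB : IsSeg B) :
    restr A (bOn B) = bOn (B ∩ A) := by
  ext x
  rw [restr_apply hA, bOn_apply hB, bOn_apply (hB.inter hA), sumOn_proj]

/-- Combinations of functionals of pairwise disjoint segments. -/
theorem norm_sum_smul_bOn_le {ι : Type*} (s : Finset ι) (A : ι → Set T)
    (hA : ∀ i ∈ s, IsSeg (A i))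
    (hd : ∀ i ∈ s, ∀ j ∈ s, i ≠ j → Disjoint (A i) (A j)) (c : ι → ℝ) :
    ‖∑ i ∈ s, c i • bOn (A i)‖ ≤ Real.sqrt (∑ i ∈ s, c i ^ 2) := by
  apply ContinuousLinearMap.opNorm_le_bound _ (Real.sqrt_nonneg _)
  intro x
  have h1 : (∑ i ∈ s, c i • bOn (A i)) x = ∑ i ∈ s, c i * sumOn (A i) x := by
    rw [ContinuousLinearMap.sum_apply]
    exact Finset.sum_congr rfl fun i hi => by
      rw [ContinuousLinearMap.smul_apply, bOn_apply (hA i hi), smul_eq_mul]
  rw [h1, Real.norm_eq_abs]
  have h2 := sum_sumOn_sq_le s A hA hd x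
  apply abs_le_of_sq_le_sq _ (mul_nonneg (Real.sqrt_nonneg _) (norm_nonneg _))
  calc (∑ i ∈ s, c i * sumOn (A i) x) ^ 2
      ≤ (∑ i ∈ s, c i ^ 2) * (∑ i ∈ s, (sumOn (A i) x) ^ 2) := Finset.sum_mul_sq_le_sq_mul_sq _ _ _
    _ ≤ (∑ i ∈ s, c i ^ 2) * ‖x‖ ^ 2 := by
        gcongr
    _ = (Real.sqrt (∑ i ∈ s, c i ^ 2) * ‖x‖) ^ 2 := by
        rw [mul_pow, Real.sq_sqrt (Finset.sum_nonneg fun i _ => sq_nonneg _)]

/-- The biorthogonal functional `e_a^*`. -/
noncomputable def estar (a : T) : StrongDual ℝ (JFin T) := bOn {a}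

lemma estar_apply (a : T) (x : JFin T) : estar a x = co x a := by
  unfold estar
  rw [bOn_apply (isSeg_singleton a), sumOn_singleton]

lemma norm_e (a : T) : ‖(e a : JFin T)‖ ≤ 1 := by
  classical
  have h : ‖(e a : JFin T)‖ ^ 2 ≤ 1 := by
    apply norm_sq_le
    intro P hP
    by_cases h : ∃ p ∈ P, a ∈ Set.Icc p.1 p.2
    · obtain ⟨p, hp, hap⟩ := h
      rw [Finset.sum_eq_single_of_mem p hp]
      · rw [sumOn_e, if_pos hap]; norm_num
      · intro q hq hqp
        have : a ∉ Set.Icc q.1 q.2 := fun haq =>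
          Set.disjoint_left.mp (hP.2 q hq p hp hqp) haq hap
        rw [sumOn_e, if_neg this]; norm_num
    · push Not at h
      rw [Finset.sum_eq_zero]
      · norm_num
      · intro p hp
        rw [sumOn_e, if_neg (h p hp)]; norm_num
  have h0 := norm_nonneg (e a : JFin T)
  nlinarith

end

end JTree
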