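import Pool.Agent.Work.MP_245e03_an.Q1Seq
import Pool.Agent.Work.MP_245e03_an.Helly

/-!
# Non-reflexive subspaces of `JT*` contain the span of the `e_n^*` of `J*`.
-/

open scoped BigOperators
open Finset

namespace JTree

open scoped Classical

/-- Averages of a gliding hump sequence with `d = 0` are small. -/
theorem exists_small_average {d : (ℕ → Bool) → ℝ} {Z : Set (StrongDual ℝ (JFin Node))}
    {ε : ℕ → ℝ} {z : ℕ → StrongDual ℝ (JFin Node)} {H : ℕ → Finset (ℕ → Bool)} {m m' : ℕ → ℕ}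
    (hS : ∀ n, Stage d Z (ε n) (H n) (m n) (z n) (H (n + 1)) (m' n))
    (hm : ∀ n, m' n < m (n + 1)) {M : ℝ} (hM : ∀ n, ‖z n‖ ≤ M) (hd : ∀ σ, d σ = 0) {E0 : ℝ}
    (hE : ∀ N, ∑ n ∈ Finset.range N, ε n ≤ E0) {η : ℝ} (hη : 0 < η) :
    ∃ N : ℕ, 0 < N ∧ ‖(1 / (N : ℝ)) • ∑ n ∈ Finset.range N, z n‖ ≤ η := by
  have hM0 : 0 ≤ M := (norm_nonneg _).trans (hM 0)
  have hE0 : 0 ≤ E0 := by simpa using hE 0
  have hbound : ∀ N : ℕ, ‖∑ n ∈ Finset.range N, z n‖ ≤ Real.sqrt N * (2 * M) + 3 * E0 := by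
    intro N
    have h1 : ∑ n ∈ Finset.range N, z n = ∑ n ∈ Finset.range N, zt d z H m m' n +
        ∑ n ∈ Finset.range N, (z n - zt d z H m m' n) := by
      rw [← Finset.sum_add_distrib]
      exact Finset.sum_congr rfl fun n _ => by abel
    rw [h1]
    refine (norm_add_le _ _).trans (add_le_add ?_ ?_)
    · apply ContinuousLinearMap.opNorm_le_bound _ (by positivity)
      intro x
      rw [ContinuousLinearMap.sum_apply, Real.norm_eq_abs]
      have h2 := n2_seq_le hS hm hM hd (Finset.range N) x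
      have h3 : (∑ n ∈ Finset.range N, zt d z H m m' n x) ^ 2 ≤
          N * ∑ n ∈ Finset.range N, (zt d z H m m' n x) ^ 2 := by
        have := sq_sum_le_card_mul_sum_sq (s := Finset.range N)
          (f := fun n => zt d z H m m' n x)
        rwa [Finset.card_range] at this
      apply abs_le_of_sq_le_sq _ (by positivity)
      calc _ ≤ _ := h3
        _ ≤ N * (2 * M * ‖x‖) ^ 2 := by
            gcongr
            exact sum_sq_le_of_n2 h2
        _ = (Real.sqrt N * (2 * M) * ‖x‖) ^ 2 := by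
            have hsq : Real.sqrt (N : ℝ) ^ 2 = N := Real.sq_sqrt (Nat.cast_nonneg N)
            calc (N : ℝ) * (2 * M * ‖x‖) ^ 2 = Real.sqrt (N : ℝ) ^ 2 * (2 * M * ‖x‖) ^ 2 := by
                  rw [hsq]
              _ = _ := by ring
    · refine (norm_sum_le _ _).trans ?_
      calc ∑ n ∈ Finset.range N, ‖z n - zt d z H m m' n‖
          ≤ ∑ n ∈ Finset.range N, 3 * ε n := Finset.sum_le_sum fun n _ => norm_sub_zt_le hS n
        _ = 3 * ∑ n ∈ Finset.range N, ε n := by rw [Finset.mul_sum]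
        _ ≤ 3 * E0 := by have := hE N; gcongr
  obtain ⟨k, hk⟩ := exists_nat_gt (max 1 ((2 * M + 3 * E0) / η))
  have hk1 : (1 : ℝ) < k := (le_max_left _ _).trans_lt hk
  have hk2 : (2 * M + 3 * E0) / η < k := (le_max_right _ _).trans_lt hk
  have hk0 : 0 < k := by
    have : (0 : ℝ) < k := by linarith
    exact_mod_cast this
  refine ⟨k ^ 2, by positivity, ?_⟩
  rw [norm_smul, Real.norm_of_nonneg (by positivity)]
  have h4 := hbound (k ^ 2)
  have h5 : Real.sqrt ((k ^ 2 : ℕ) : ℝ) = k := by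
    rw [Nat.cast_pow, Real.sqrt_sq (Nat.cast_nonneg k)]
  rw [h5] at h4
  have h6 : (2 * M + 3 * E0) < η * k := by
    rw [div_lt_iff₀ hη] at hk2; linarith
  have hkpos : (0 : ℝ) < k := by linarith
  calc 1 / ((k ^ 2 : ℕ) : ℝ) * ‖∑ n ∈ Finset.range (k ^ 2), z n‖
      ≤ 1 / ((k ^ 2 : ℕ) : ℝ) * (k * (2 * M) + 3 * E0) := by gcongr
    _ ≤ 1 / ((k ^ 2 : ℕ) : ℝ) * (k * (2 * M + 3 * E0)) := by
        gcongr
        nlinarith
    _ ≤ 1 / ((k ^ 2 : ℕ) : ℝ) * (k * (η * k)) := by gcongr
    _ = η := by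
        rw [Nat.cast_pow]; field_simp

lemma sum_geom_le (c : ℝ) (hc : 0 ≤ c) (F : Finset ℕ) :
    ∑ n ∈ F, c / 2 / 2 ^ n ≤ c := by
  have h1 := (summable_geometric_two' c).sum_le_tsum F (fun n _ => by positivity)
  rwa [tsum_geometric_two'] at h1

/-- The embedding in the case `d σ₀ ≠ 0`. -/
theorem embed_of_seq {d : (ℕ → Bool) → ℝ} {Z : Set (StrongDual ℝ (JFin Node))}
    {ε : ℕ → ℝ} {z : ℕ → StrongDual ℝ (JFin Node)} {H : ℕ → Finset (ℕ → Bool)} {m m' : ℕ → ℕ}
    (hS : ∀ n, Stage d Z (ε n) (H n) (m n) (z n) (H (n + 1)) (m' n))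
    (hm : ∀ n, m' n < m (n + 1)) {M : ℝ} (hM : ∀ n, ‖z n‖ ≤ M) {σ₀ : ℕ → Bool}
    (hσ₀ : σ₀ ∈ H 0) (hd : d σ₀ ≠ 0) (hε0 : ∀ n, 0 ≤ ε n)
    (hE : ∀ F : Finset ℕ, ∑ n ∈ F, ε n ≤ |d σ₀| / 16) :
    ∃ S : BSpace ℕ →L[ℝ] StrongDual ℝ (JFin Node), (∃ c > 0, ∀ f, c * ‖f‖ ≤ ‖S f‖) ∧
      ∀ f, S f ∈ (Submodule.span ℝ (Set.range fun n => z n - z (n + 1))).topologicalClosure := by
  have hM0 : 0 ≤ M := (norm_nonneg _).trans (hM 0)
  have hdpos : 0 < |d σ₀| := abs_pos.mpr hd
  have hεle : ∀ n, ε n ≤ |d σ₀| / 16 := by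
    intro n
    simpa using hE {n}
  have hm'mono := m'_strictMono hS hm
  set C : ℝ := (6 * M + 2 * (|d σ₀| / 16)) + 6 * (|d σ₀| / 16) with hC
  apply embed_criterion (T := Node) (T' := ℕ) (fun n => n) Function.injective_id
    (fun _ _ h => h) (fun n => z n - z (n + 1))
    (fun n => zt d z H m m' n - zt d z H m m' (n + 1)) (fun a b => z a - z (b + 1))
    (fun n => res σ₀ (m' n)) ?_ (d σ₀) hd C ?_ ?_ ?_ ?_
  · -- order embedding
    intro s t
    constructor
    · intro h
      have := Node.len_mono h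
      rw [len_res, len_res] at this
      exact hm'mono.le_iff_le.mp this
    · intro h
      exact res_mono σ₀ (hm'mono.monotone h)
  · -- telescoping
    intro α γ hαγ F hF
    have hFeq : F = Finset.Icc α γ := by
      ext t; rw [hF, Finset.mem_Icc]
    subst hFeq
    clear hF
    induction γ, hαγ using Nat.le_induction with
    | base => simp
    | succ n hn ih =>
      rw [← Finset.insert_Icc_right_eq_Icc_add_one (by omega), Finset.sum_insert (by simp), ih]
      abel
  · -- biorthogonality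
    intro s t
    have hval : ∀ n k, (zt d z H m m' n - zt d z H m m' (n + 1)) (e (res σ₀ (m' k))) =
        (if n ≤ k then d σ₀ else 0) - (if n + 1 ≤ k then d σ₀ else 0) := by
      intro n k
      rw [ContinuousLinearMap.sub_apply, zt_e hS hm hσ₀, zt_e hS hm hσ₀]
    constructor
    · rw [hval]; simp
    · intro hst
      rw [hval]
      rcases lt_or_gt_of_ne hst with h | h
      · have h1 : ¬ t ≤ s := by omega
        have h2 : ¬ t + 1 ≤ s := by omega
        simp [h1, h2]
      · have h1 : t ≤ s := by omega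
        have h2 : t + 1 ≤ s := by omega
        simp [h1, h2]
  · -- perturbation
    intro F
    calc ∑ t ∈ F, ‖(z t - z (t + 1)) - (zt d z H m m' t - zt d z H m m' (t + 1))‖
        ≤ ∑ t ∈ F, (3 * ε t + 3 * ε (t + 1)) := by
          refine Finset.sum_le_sum fun t _ => ?_
          have h1 : (z t - z (t + 1)) - (zt d z H m m' t - zt d z H m m' (t + 1)) =
              (z t - zt d z H m m' t) - (z (t + 1) - zt d z H m m' (t + 1)) := by abel
          rw [h1]
          exact (norm_sub_le _ _).trans (add_le_add (norm_sub_zt_le hS t) (norm_sub_zt_le hS (t + 1)))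
      _ = 3 * ∑ t ∈ F, ε t + 3 * ∑ t ∈ F, ε (t + 1) := by
          rw [Finset.sum_add_distrib, Finset.mul_sum, Finset.mul_sum]
      _ ≤ 3 * (|d σ₀| / 16) + 3 * (|d σ₀| / 16) := by
          have h1 := hE F
          have h2 := hE (F.map ⟨fun n => n + 1, fun a b h => by simpa using h⟩)
          rw [Finset.sum_map] at h2
          simp only [Function.Embedding.coeFn_mk] at h2
          gcongr
      _ ≤ |d σ₀| / 2 := by linarith
  · -- upper estimate
    intro P hP x
    apply sum_sq_le_of_n2 (D := C * ‖x‖) _ |>.trans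
    · rw [mul_pow]
    have hpq : ∀ p ∈ P, p.1 < p.2 + 1 := fun p hp => Nat.lt_succ_of_le (hP.1 p hp)
    have hdis : ∀ p ∈ P, ∀ q ∈ P, p ≠ q → p.2 + 1 ≤ q.1 ∨ q.2 + 1 ≤ p.1 := by
      intro p hp q hq hne
      have h1 := hP.2 p hp q hq hne
      have h2 := hP.1 p hp
      have h3 := hP.1 q hq
      by_contra hcon
      push Not at hcon
      have h4 : max p.1 q.1 ∈ Set.Icc p.1 p.2 := ⟨le_max_left _ _, by omega⟩
      have h5 : max p.1 q.1 ∈ Set.Icc q.1 q.2 := ⟨le_max_right _ _, by omega⟩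
      exact Set.disjoint_left.mp h1 h4 h5
    have h1 := n2_diff_le hS hm hM hεle hε0 P (fun p => p.1) (fun p => p.2 + 1) hpq hdis x
    have h2 : n2 P (fun p => ((z p.1 - zt d z H m m' p.1) -
        (z (p.2 + 1) - zt d z H m m' (p.2 + 1))) x) ≤ 6 * (|d σ₀| / 16) * ‖x‖ := by
      refine (n2_le_sum_abs _ _).trans ?_
      calc ∑ p ∈ P, |((z p.1 - zt d z H m m' p.1) -
            (z (p.2 + 1) - zt d z H m m' (p.2 + 1))) x|
          ≤ ∑ p ∈ P, (3 * ε p.1 + 3 * ε (p.2 + 1)) * ‖x‖ := by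
            refine Finset.sum_le_sum fun p _ => ?_
            refine (abs_apply_le _ x).trans ?_
            gcongr
            exact (norm_sub_le _ _).trans
              (add_le_add (norm_sub_zt_le hS _) (norm_sub_zt_le hS _))
        _ = (3 * ∑ p ∈ P, ε p.1 + 3 * ∑ p ∈ P, ε (p.2 + 1)) * ‖x‖ := by
            rw [← Finset.sum_mul, Finset.sum_add_distrib, Finset.mul_sum, Finset.mul_sum]
        _ ≤ (3 * (|d σ₀| / 16) + 3 * (|d σ₀| / 16)) * ‖x‖ := by
            have hi1 : Set.InjOn (fun p : ℕ × ℕ => p.1) (P : Set (ℕ × ℕ)) := by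
              intro p hp q hq h
              by_contra hne
              have := hpq p hp
              have := hpq q hq
              have h' : p.1 = q.1 := h
              rcases hdis p hp q hq hne with h'' | h'' <;> omega
            have hi2 : Set.InjOn (fun p : ℕ × ℕ => p.2 + 1) (P : Set (ℕ × ℕ)) := by
              intro p hp q hq h
              by_contra hne
              have := hpq p hp
              have := hpq q hq
              have h' : p.2 + 1 = q.2 + 1 := h
              rcases hdis p hp q hq hne with h'' | h'' <;> omega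
            have e1 := hE (P.image (fun p : ℕ × ℕ => p.1))
            have e2 := hE (P.image (fun p : ℕ × ℕ => p.2 + 1))
            rw [Finset.sum_image hi1] at e1
            rw [Finset.sum_image hi2] at e2
            gcongr
        _ = _ := by ring
    have h3 : n2 P (fun p => (z p.1 - z (p.2 + 1)) x) ≤
        n2 P (fun p => (zt d z H m m' p.1 - zt d z H m m' (p.2 + 1)) x) +
        n2 P (fun p => ((z p.1 - zt d z H m m' p.1) -
          (z (p.2 + 1) - zt d z H m m' (p.2 + 1))) x) := by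
      refine le_trans (le_of_eq ?_) (n2_add_le P _ _)
      refine n2_congr fun p _ => ?_
      simp only [ContinuousLinearMap.sub_apply]
      ring
    calc _ ≤ _ := h3
      _ ≤ (6 * M + 2 * (|d σ₀| / 16)) * ‖x‖ + 6 * (|d σ₀| / 16) * ‖x‖ := add_le_add h1 h2
      _ = C * ‖x‖ := by rw [hC]; ring

section
variable {W : Type*} [NormedAddCommGroup W] [NormedSpace ℝ W]
  (j : W →ₗᵢ[ℝ] StrongDual ℝ (JFin Node))

/-- Evaluation functional on a subspace. -/
noncomputable def evY (x : JFin Node) : StrongDual ℝ W :=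
  (ContinuousLinearMap.apply ℝ ℝ x).comp j.toContinuousLinearMap

lemma evY_apply (x : JFin Node) (y : W) : evY j x y = j y x := rfl

/-- The functionals `c_σ` on a subspace. -/
noncomputable def cY (σ : ℕ → Bool) : StrongDual ℝ W := (cfL σ).comp j.toContinuousLinearMap

lemma cY_apply (σ : ℕ → Bool) (y : W) : cY j σ y = cf (j y) σ := rfl

/-- **Q1, core version.** -/
theorem Q1_core (hY : IsClosed (Set.range j))
    (hnr : ¬ Function.Surjective (NormedSpace.inclusionInDoubleDual ℝ W)) :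
    ∃ S : BSpace ℕ →L[ℝ] StrongDual ℝ (JFin Node), (∃ c > 0, ∀ f, c * ‖f‖ ≤ ‖S f‖) ∧
      ∀ f, S f ∈ Set.range j := by
  unfold Function.Surjective at hnr
  push Not at hnr
  obtain ⟨Φ, hΦ⟩ := hnr
  -- the functional `y0`
  have hevn : ∀ x, ‖evY j x‖ ≤ ‖x‖ := by
    intro x
    apply ContinuousLinearMap.opNorm_le_bound _ (norm_nonneg _)
    intro y
    rw [evY_apply]
    calc _ ≤ ‖j y‖ * ‖x‖ := ContinuousLinearMap.le_opNorm _ _
      _ = ‖x‖ * ‖y‖ := by rw [mul_comm, j.norm_map]
  set y0 : StrongDual ℝ (JFin Node) := LinearMap.mkContinuous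
    { toFun := fun x => Φ (evY j x)
      map_add' := fun x x' => by
        rw [← map_add]
        congr 1
        ext y
        simp [evY_apply]
      map_smul' := fun r x => by
        rw [RingHom.id_apply, ← map_smul]
        congr 1
        ext y
        simp [evY_apply] } ‖Φ‖
    (fun x => by
      calc ‖Φ (evY j x)‖ ≤ ‖Φ‖ * ‖evY j x‖ := ContinuousLinearMap.le_opNorm _ _
        _ ≤ ‖Φ‖ * ‖x‖ := by gcongr; exact hevn x) with hy0
  have hy0app : ∀ x, y0 x = Φ (evY j x) := fun x => rfl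
  set d : (ℕ → Bool) → ℝ := fun σ => Φ (cY j σ) - cf y0 σ with hd
  set Zs : StrongDual ℝ W → ℝ → Set (StrongDual ℝ (JFin Node)) := fun g δ =>
    {z | ∃ y : W, ‖y‖ ≤ ‖Φ‖ + 1 ∧ |g y - Φ g| < δ ∧ z = j y - y0}
    with hZs
  have hZbound : ∀ g δ, ∀ z ∈ Zs g δ, ‖z‖ ≤ ‖Φ‖ + 1 + ‖y0‖ := by
    rintro g δ z ⟨y, hy, _, rfl⟩
    exact (norm_sub_le _ _).trans (add_le_add (by rw [j.norm_map]; exact hy) (le_refl _))
  have happrox : ∀ (g : StrongDual ℝ W) (δ : ℝ), 0 < δ → Approx d (Zs g δ) := by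
    intro g δ hδ k H ε hε
    obtain ⟨y, hy1, hy2⟩ := helly Φ
      (ι := (below k) ⊕ (H ⊕ Unit))
      (Sum.elim (fun a => evY j (e (a : Node))) (Sum.elim (fun σ => cY j (σ : ℕ → Bool))
        (fun _ => g))) (ε := min ε δ) (lt_min hε hδ)
    refine ⟨j y - y0, ⟨y, hy1, ?_, rfl⟩, ?_, ?_⟩
    · have := hy2 (Sum.inr (Sum.inr ()))
      exact this.trans_le (min_le_right _ _)
    · intro a ha
      have := hy2 (Sum.inl ⟨a, ha⟩)
      simp only [Sum.elim_inl] at this
      rw [ContinuousLinearMap.sub_apply, hy0app]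
      exact (this.le).trans (min_le_left _ _)
    · intro σ hσ
      have := hy2 (Sum.inr (Sum.inl ⟨σ, hσ⟩))
      simp only [Sum.elim_inl, Sum.elim_inr] at this
      rw [cY_apply] at this
      have h1 : cf (j y - y0) σ - d σ = cf (j y) σ - Φ (cY j σ) := by
        rw [cf_sub, hd]; ring
      rw [h1]
      exact (this.le).trans (min_le_left _ _)
  by_cases hdz : ∀ σ, d σ = 0
  · -- impossible
    exfalso
    -- for all `g`, `δ`, `η` there is `y ∈ Y` close to `y0` with `g y` close to `Φ g`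
    have hkey : ∀ (g : StrongDual ℝ W) (δ : ℝ), 0 < δ → ∀ η : ℝ, 0 < η →
        ∃ y : W, |g y - Φ g| ≤ δ ∧ ‖j y - y0‖ ≤ η := by
      intro g δ hδ η hη
      obtain ⟨z, H, m, m', _, hm, hS⟩ := exists_seq (happrox g δ hδ) (fun n => 1 / 2 / 2 ^ n)
        (fun n => by positivity) ∅
      have hM : ∀ n, ‖z n‖ ≤ ‖Φ‖ + 1 + ‖y0‖ := fun n => hZbound g δ _ (hS n).memZ
      obtain ⟨N, hN, hsmall⟩ := exists_small_average hS hm hM hdz
        (fun N => sum_geom_le 1 zero_le_one (Finset.range N)) hη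
      choose y hy1 hy2 hy3 using fun n => (hS n).memZ
      have hNr : (0 : ℝ) < N := by exact_mod_cast hN
      refine ⟨(1 / (N : ℝ)) • ∑ n ∈ Finset.range N, y n, ?_, ?_⟩
      · rw [map_smul, map_sum, smul_eq_mul]
        have h1 : 1 / (N : ℝ) * ∑ n ∈ Finset.range N, g (y n) - Φ g =
            1 / (N : ℝ) * ∑ n ∈ Finset.range N, (g (y n) - Φ g) := by
          rw [Finset.sum_sub_distrib, Finset.sum_const, Finset.card_range, nsmul_eq_mul]
          field_simp
        rw [h1, abs_mul, abs_of_nonneg (by positivity)]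
        calc 1 / (N : ℝ) * |∑ n ∈ Finset.range N, (g (y n) - Φ g)|
            ≤ 1 / (N : ℝ) * ∑ n ∈ Finset.range N, δ := by
              gcongr
              exact (Finset.abs_sum_le_sum_abs _ _).trans
                (Finset.sum_le_sum fun n _ => (hy2 n).le)
          _ = δ := by
              rw [Finset.sum_const, Finset.card_range, nsmul_eq_mul]; field_simp
      · have h1 : j ((1 / (N : ℝ)) • ∑ n ∈ Finset.range N, y n) - y0
            = (1 / (N : ℝ)) • ∑ n ∈ Finset.range N, z n := by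
          have h2 : ∑ n ∈ Finset.range N, z n =
              ∑ n ∈ Finset.range N, j (y n) - (N : ℝ) • y0 := by
            rw [Finset.sum_congr rfl fun n _ => hy3 n, Finset.sum_sub_distrib, Finset.sum_const,
              Finset.card_range, Nat.cast_smul_eq_nsmul]
          rw [h2, smul_sub, smul_smul, one_div_mul_cancel hNr.ne', one_smul, map_smul, map_sum]
        rw [h1]; exact hsmall
    -- `y0 ∈ Y`
    have hy0Y : y0 ∈ Set.range j := by
      have : y0 ∈ closure (Set.range j) := by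
        rw [Metric.mem_closure_iff]
        intro η hη
        obtain ⟨y, _, hy⟩ := hkey 0 1 one_pos (η / 2) (half_pos hη)
        refine ⟨j y, ⟨y, rfl⟩, ?_⟩
        rw [dist_comm, dist_eq_norm]
        linarith
      rwa [hY.closure_eq] at this
    obtain ⟨w0, hw0⟩ := hy0Y
    apply hΦ w0
    ext g
    rw [NormedSpace.dual_def]
    -- `g w0 = Φ g`
    have hall : ∀ δ > 0, |g w0 - Φ g| ≤ δ := by
      intro δ hδ
      obtain ⟨y, hy1, hy2⟩ := hkey g (δ / 2) (half_pos hδ) (δ / (2 * (‖g‖ + 1))) (by positivity)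
      have h1 : |g w0 - g y| ≤ δ / 2 := by
        rw [← map_sub, ← Real.norm_eq_abs]
        have h2 : ‖w0 - y‖ ≤ δ / (2 * (‖g‖ + 1)) := by
          rw [norm_sub_rev, ← j.norm_map, map_sub, hw0]; exact hy2
        calc _ ≤ ‖g‖ * ‖w0 - y‖ := ContinuousLinearMap.le_opNorm _ _
          _ ≤ ‖g‖ * (δ / (2 * (‖g‖ + 1))) := by gcongr
          _ ≤ δ / 2 := by
              rw [mul_div_assoc', div_le_div_iff₀ (by positivity) (by norm_num)]
              nlinarith [norm_nonneg g]
      calc |g w0 - Φ g| = |(g w0 - g y) + (g y - Φ g)| := by ring_nf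
        _ ≤ |g w0 - g y| + |g y - Φ g| := abs_add_le _ _
        _ ≤ δ / 2 + δ / 2 := add_le_add h1 hy1
        _ = δ := by ring
    have h0 : |g w0 - Φ g| ≤ 0 := le_of_forall_pos_le_add fun δ hδ => by
      rw [zero_add]; exact hall δ hδ
    have := abs_nonpos_iff.mp h0
    linarith
  · push Not at hdz
    obtain ⟨σ₀, hσ₀⟩ := hdz
    have hdpos : 0 < |d σ₀| := abs_pos.mpr hσ₀
    obtain ⟨z, H, m, m', hH0, hm, hS⟩ := exists_seq (happrox 0 1 one_pos)
      (fun n => (|d σ₀| / 16) / 2 / 2 ^ n) (fun n => by positivity) {σ₀}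
    have hM : ∀ n, ‖z n‖ ≤ ‖Φ‖ + 1 + ‖y0‖ := fun n => hZbound 0 1 _ (hS n).memZ
    obtain ⟨S, hS1, hS2⟩ := embed_of_seq hS hm hM (hH0 (Finset.mem_singleton_self σ₀)) hσ₀
      (fun n => by positivity) (fun F => sum_geom_le _ (by positivity) F)
    refine ⟨S, hS1, fun f => ?_⟩
    have hY' : IsClosed ((LinearMap.range j.toLinearMap : Submodule ℝ _) :
        Set (StrongDual ℝ (JFin Node))) := by
      have : ((LinearMap.range j.toLinearMap : Submodule ℝ _) :
        Set (StrongDual ℝ (JFin Node))) = Set.range j := by ext v; exact Iff.rfl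
      rw [this]; exact hY
    have hsub : (Submodule.span ℝ (Set.range fun n => z n - z (n + 1))).topologicalClosure ≤
        LinearMap.range j.toLinearMap := by
      apply Submodule.topologicalClosure_minimal _ _ hY'
      rw [Submodule.span_le]
      rintro _ ⟨n, rfl⟩
      obtain ⟨y, _, _, hy⟩ := (hS n).memZ
      obtain ⟨y', _, _, hy'⟩ := (hS (n + 1)).memZ
      refine ⟨y - y', ?_⟩
      show j (y - y') = z n - z (n + 1)
      rw [hy, hy', map_sub]
      abel
    exact hsub (hS2 f)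

end

end JTree
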