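import Pool.Agent.Work.MP_245e03_an.Tools

/-!
# Gliding hump sequences in `JT*` and their upper estimates.
-/

open scoped BigOperators
open Finset

namespace JTree

open scoped Classical

/-- The data of one stage of the construction. -/
structure Stage (d : (ℕ → Bool) → ℝ) (Z : Set (StrongDual ℝ (JFin Node))) (ε : ℝ)
    (H : Finset (ℕ → Bool)) (m : ℕ) (z : StrongDual ℝ (JFin Node)) (H' : Finset (ℕ → Bool))
    (m' : ℕ) : Prop where
  memZ : z ∈ Z
  sub : H ⊆ H'
  le : m ≤ m'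
  low : ∑ a ∈ below m, |z (e a)| ≤ ε
  close : ∑ σ ∈ H, |cf z σ - d σ| ≤ ε
  st : ∀ k, m' ≤ k → ‖restr (lvl k) z - ∑ σ ∈ H', cf z σ • tb σ k‖ ≤ ε
  sep : ∀ k, m' ≤ k → ∀ σ ∈ H', ∀ τ ∈ H', res σ k = res τ k → σ = τ

/-- Approximability hypothesis. -/
def Approx (d : (ℕ → Bool) → ℝ) (Z : Set (StrongDual ℝ (JFin Node))) : Prop :=
  ∀ (m : ℕ) (H : Finset (ℕ → Bool)) (ε : ℝ), 0 < ε → ∃ z ∈ Z,
    (∀ a ∈ below m, |z (e a)| ≤ ε) ∧ (∀ σ ∈ H, |cf z σ - d σ| ≤ ε)

lemma exists_stage {d : (ℕ → Bool) → ℝ} {Z : Set (StrongDual ℝ (JFin Node))} (hZ : Approx d Z)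
    {ε : ℝ} (hε : 0 < ε) (H : Finset (ℕ → Bool)) (m : ℕ) :
    ∃ z H' m', Stage d Z ε H m z H' m' := by
  set δ : ℝ := ε / ((below m).card + H.card + 1) with hδ
  have hδpos : 0 < δ := by positivity
  obtain ⟨z, hzZ, hz1, hz2⟩ := hZ m H δ hδpos
  obtain ⟨H0, hH0⟩ := structure_thm z hε
  obtain ⟨m0, hm0⟩ := hH0 (H ∪ H0) Finset.subset_union_right
  obtain ⟨m1, hm1⟩ := exists_sep (H ∪ H0)
  have hb : ((below m).card : ℝ) * δ ≤ ε := by
    rw [hδ, mul_div_assoc', div_le_iff₀ (by positivity)]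
    have h1 : (0 : ℝ) ≤ (H.card : ℝ) := Nat.cast_nonneg _
    nlinarith
  have hh : (H.card : ℝ) * δ ≤ ε := by
    rw [hδ, mul_div_assoc', div_le_iff₀ (by positivity)]
    have h1 : (0 : ℝ) ≤ ((below m).card : ℝ) := Nat.cast_nonneg _
    nlinarith
  refine ⟨z, H ∪ H0, max m (max m0 m1), hzZ, Finset.subset_union_left, le_max_left _ _, ?_, ?_,
    ?_, ?_⟩
  · calc ∑ a ∈ below m, |z (e a)| ≤ ∑ _a ∈ below m, δ := Finset.sum_le_sum fun a ha => hz1 a ha
      _ = (below m).card * δ := by rw [Finset.sum_const, nsmul_eq_mul]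
      _ ≤ ε := hb
  · calc ∑ σ ∈ H, |cf z σ - d σ| ≤ ∑ _σ ∈ H, δ := Finset.sum_le_sum fun σ hσ => hz2 σ hσ
      _ = H.card * δ := by rw [Finset.sum_const, nsmul_eq_mul]
      _ ≤ ε := hh
  · intro k hk
    exact hm0 k (((le_max_left _ _).trans (le_max_right _ _)).trans hk)
  · intro k hk
    exact hm1 k (((le_max_right _ _).trans (le_max_right _ _)).trans hk)

/-- **Gliding hump sequence.** -/
theorem exists_seq {d : (ℕ → Bool) → ℝ} {Z : Set (StrongDual ℝ (JFin Node))} (hZ : Approx d Z)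
    (ε : ℕ → ℝ) (hε : ∀ n, 0 < ε n) (H0 : Finset (ℕ → Bool)) :
    ∃ (z : ℕ → StrongDual ℝ (JFin Node)) (H : ℕ → Finset (ℕ → Bool)) (m m' : ℕ → ℕ),
      H0 ⊆ H 0 ∧ (∀ n, m' n < m (n + 1)) ∧
      ∀ n, Stage d Z (ε n) (H n) (m n) (z n) (H (n + 1)) (m' n) := by
  have hst : ∀ (n : ℕ) (s : Finset (ℕ → Bool) × ℕ), ∃ (z : StrongDual ℝ (JFin Node))
      (H' : Finset (ℕ → Bool)) (m' : ℕ), Stage d Z (ε n) s.1 s.2 z H' m' := by
    intro n s
    exact exists_stage hZ (hε n) s.1 s.2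
  choose zf Hf mf hf using hst
  set st : ℕ → Finset (ℕ → Bool) × ℕ := fun n =>
    Nat.rec (H0, 0) (fun n s => (Hf n s, mf n s + 1)) n with hst
  have hst0 : st 0 = (H0, 0) := rfl
  have hsts : ∀ n, st (n + 1) = (Hf n (st n), mf n (st n) + 1) := fun n => rfl
  refine ⟨fun n => zf n (st n), fun n => (st n).1, fun n => (st n).2, fun n => mf n (st n),
    ?_, ?_, ?_⟩
  · simp [hst0]
  · intro n
    show mf n (st n) < (st (n + 1)).2
    rw [hsts]; simp
  · intro n
    show Stage d Z (ε n) (st n).1 (st n).2 (zf n (st n)) (st (n + 1)).1 (mf n (st n))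
    rw [hsts]
    exact hf n (st n)

section
variable {d : (ℕ → Bool) → ℝ} {Z : Set (StrongDual ℝ (JFin Node))} {ε : ℕ → ℝ}
  {z : ℕ → StrongDual ℝ (JFin Node)} {H : ℕ → Finset (ℕ → Bool)} {m m' : ℕ → ℕ}

/-- The structured part of `z n`. -/
noncomputable def zt (d : (ℕ → Bool) → ℝ) (z : ℕ → StrongDual ℝ (JFin Node))
    (H : ℕ → Finset (ℕ → Bool)) (m m' : ℕ → ℕ) (n : ℕ) : StrongDual ℝ (JFin Node) :=
  restr (band (m n) (m' n)) (z n) + ∑ σ ∈ H n, d σ • tb σ (m' n) +
    ∑ σ ∈ H (n + 1) \ H n, cf (z n) σ • tb σ (m' n)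

lemma restr_lvl_tb_of_le (σ : ℕ → Bool) {m n : ℕ} (h : n ≤ m) : restr (lvl n) (tb σ m) = tb σ m := by
  rw [restr_lvl_tb, max_eq_left h]

lemma tb_e_of_lt (σ : ℕ → Bool) {m : ℕ} {a : Node} (h : a.len < m) : tb σ m (e a) = 0 := by
  rw [tb_e, if_neg]
  rw [mem_tail]; omega

lemma norm_sub_zt_le (hS : ∀ n, Stage d Z (ε n) (H n) (m n) (z n) (H (n + 1)) (m' n)) (n : ℕ) :
    ‖z n - zt d z H m m' n‖ ≤ 3 * ε n := by
  have hs := hS n
  have h1 := norm_le_below_add (z n - zt d z H m m' n) (m n)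
  have hlow : ∑ a ∈ below (m n), |(z n - zt d z H m m' n) (e a)| ≤ ε n := by
    refine le_trans (le_of_eq ?_) hs.low
    refine Finset.sum_congr rfl fun a ha => ?_
    have hlen : a.len < m n := mem_below.mp ha
    have hlen' : a.len < m' n := lt_of_lt_of_le hlen hs.le
    have hz : zt d z H m m' n (e a) = 0 := by
      unfold zt
      rw [ContinuousLinearMap.add_apply, ContinuousLinearMap.add_apply,
        restr_band_e_of_notMem _ (by rw [mem_band]; omega), ContinuousLinearMap.sum_apply,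
        ContinuousLinearMap.sum_apply, Finset.sum_eq_zero, Finset.sum_eq_zero]
      · ring
      · intro σ _
        rw [ContinuousLinearMap.smul_apply, tb_e_of_lt σ hlen', smul_zero]
      · intro σ _
        rw [ContinuousLinearMap.smul_apply, tb_e_of_lt σ hlen', smul_zero]
    rw [ContinuousLinearMap.sub_apply, hz, sub_zero]
  have hhigh : restr (lvl (m n)) (z n - zt d z H m m' n) =
      (restr (lvl (m' n)) (z n) - ∑ σ ∈ H (n + 1), cf (z n) σ • tb σ (m' n)) +
        ∑ σ ∈ H n, (cf (z n) σ - d σ) • tb σ (m' n) := by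
    unfold zt
    rw [restr_sub, restr_add, restr_add, restr_sum, restr_sum,
      restr_lvl_eq_add (z n) hs.le]
    have e1 : restr (lvl (m n)) (restr (band (m n) (m' n)) (z n)) =
        restr (band (m n) (m' n)) (z n) := by
      rw [restr_restr (ordConnected_lvl _) (ordConnected_band _ _)]
      congr 1
      ext a
      simp only [Set.mem_inter_iff, mem_lvl, mem_band]
      tauto
    have e2 : ∀ σ : ℕ → Bool, ∀ c : ℝ, restr (lvl (m n)) (c • tb σ (m' n)) = c • tb σ (m' n) := by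
      intro σ c
      rw [restr_smul, restr_lvl_tb_of_le σ hs.le]
    simp only [e1, e2]
    have e3 : ∑ σ ∈ H n, (cf (z n) σ - d σ) • tb σ (m' n) =
        ∑ σ ∈ H n, cf (z n) σ • tb σ (m' n) - ∑ σ ∈ H n, d σ • tb σ (m' n) := by
      rw [← Finset.sum_sub_distrib]
      exact Finset.sum_congr rfl fun σ _ => sub_smul (cf (z n) σ) (d σ) (tb σ (m' n))
    rw [← Finset.sum_sdiff hs.sub, e3]
    abel
  have hhigh2 : ‖restr (lvl (m n)) (z n - zt d z H m m' n)‖ ≤ 2 * ε n := by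
    rw [hhigh]
    calc _ ≤ ‖restr (lvl (m' n)) (z n) - ∑ σ ∈ H (n + 1), cf (z n) σ • tb σ (m' n)‖ +
          ‖∑ σ ∈ H n, (cf (z n) σ - d σ) • tb σ (m' n)‖ := norm_add_le _ _
      _ ≤ ε n + ∑ σ ∈ H n, |cf (z n) σ - d σ| := by
          gcongr
          · exact hs.st (m' n) (le_refl _)
          · refine (norm_sum_le _ _).trans (Finset.sum_le_sum fun σ _ => ?_)
            rw [norm_smul, Real.norm_eq_abs]
            calc |cf (z n) σ - d σ| * ‖tb σ (m' n)‖ ≤ |cf (z n) σ - d σ| * 1 := by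
                  gcongr; exact norm_bOn_le _
              _ = _ := mul_one _
      _ ≤ ε n + ε n := by gcongr; exact hs.close
      _ = 2 * ε n := by ring
  linarith

lemma H_mono (hS : ∀ n, Stage d Z (ε n) (H n) (m n) (z n) (H (n + 1)) (m' n)) : Monotone H :=
  monotone_nat_of_le_succ fun n => (hS n).sub

lemma m'_strictMono (hS : ∀ n, Stage d Z (ε n) (H n) (m n) (z n) (H (n + 1)) (m' n))
    (hm : ∀ n, m' n < m (n + 1)) : StrictMono m' :=
  strictMono_nat_of_lt_succ fun n => lt_of_lt_of_le (hm n) (hS (n + 1)).le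

lemma m_strictMono (hS : ∀ n, Stage d Z (ε n) (H n) (m n) (z n) (H (n + 1)) (m' n))
    (hm : ∀ n, m' n < m (n + 1)) : StrictMono m :=
  strictMono_nat_of_lt_succ fun n => lt_of_le_of_lt (hS n).le (hm n)

lemma m'_lt_m (hS : ∀ n, Stage d Z (ε n) (H n) (m n) (z n) (H (n + 1)) (m' n))
    (hm : ∀ n, m' n < m (n + 1)) {k n : ℕ} (h : k < n) : m' k < m n :=
  lt_of_lt_of_le (hm k) ((m_strictMono hS hm).monotone h)

/-- Value of the structured part at nodes of a branch `σ₀ ∈ H 0`. -/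
lemma zt_e (hS : ∀ n, Stage d Z (ε n) (H n) (m n) (z n) (H (n + 1)) (m' n))
    (hm : ∀ n, m' n < m (n + 1)) {σ₀ : ℕ → Bool} (hσ₀ : σ₀ ∈ H 0) (n k : ℕ) :
    zt d z H m m' n (e (res σ₀ (m' k))) = if n ≤ k then d σ₀ else 0 := by
  have hσn : σ₀ ∈ H n := H_mono hS (Nat.zero_le n) hσ₀
  unfold zt
  rw [ContinuousLinearMap.add_apply, ContinuousLinearMap.add_apply]
  have h1 : restr (band (m n) (m' n)) (z n) (e (res σ₀ (m' k))) = 0 := by
    apply restr_band_e_of_notMem
    rw [mem_band, len_res]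
    rcases lt_or_ge k n with h | h
    · have := m'_lt_m hS hm h; omega
    · have := (m'_strictMono hS hm).monotone h; omega
  rw [h1, zero_add, ContinuousLinearMap.sum_apply, ContinuousLinearMap.sum_apply]
  by_cases hnk : n ≤ k
  · have hmm : m' n ≤ m' k := (m'_strictMono hS hm).monotone hnk
    rw [if_pos hnk]
    have h3 : ∀ σ ∈ H (n + 1), σ ≠ σ₀ → tb σ (m' n) (e (res σ₀ (m' k))) = 0 := by
      intro σ hσ hne
      rw [tb_e, if_neg]
      intro hmem
      have := (res_mem_tail.mp hmem).2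
      apply hne
      exact (hS n).sep (m' k) hmm σ hσ σ₀ ((hS n).sub hσn) this.symm
    have h4 : tb σ₀ (m' n) (e (res σ₀ (m' k))) = 1 := by
      rw [tb_e, if_pos]
      exact res_mem_tail.mpr ⟨hmm, rfl⟩
    rw [Finset.sum_eq_single_of_mem σ₀ hσn, Finset.sum_eq_zero]
    · rw [ContinuousLinearMap.smul_apply, h4, smul_eq_mul, mul_one, add_zero]
    · intro σ hσ
      rw [Finset.mem_sdiff] at hσ
      have hne : σ ≠ σ₀ := by rintro rfl; exact hσ.2 hσn
      rw [ContinuousLinearMap.smul_apply, h3 σ hσ.1 hne, smul_zero]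
    · intro σ hσ hne
      rw [ContinuousLinearMap.smul_apply, h3 σ ((hS n).sub hσ) hne, smul_zero]
  · push Not at hnk
    have hmm : m' k < m' n := (m'_strictMono hS hm) hnk
    rw [if_neg (by omega), Finset.sum_eq_zero, Finset.sum_eq_zero, add_zero]
    · intro σ _
      rw [ContinuousLinearMap.smul_apply, tb_e_of_lt σ (by rw [len_res]; exact hmm), smul_zero]
    · intro σ _
      rw [ContinuousLinearMap.smul_apply, tb_e_of_lt σ (by rw [len_res]; exact hmm), smul_zero]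

/-! ### Upper estimates -/

lemma sum_d_sq_le (hS : ∀ n, Stage d Z (ε n) (H n) (m n) (z n) (H (n + 1)) (m' n)) {M : ℝ}
    (hM : ∀ n, ‖z n‖ ≤ M) (n : ℕ) : ∑ σ ∈ H n, d σ ^ 2 ≤ (M + ε n) ^ 2 := by
  have h1 : n2 (H n) d ≤ n2 (H n) (fun σ => cf (z n) σ) + n2 (H n) (fun σ => d σ - cf (z n) σ) := by
    have := n2_add_le (H n) (fun σ => cf (z n) σ) (fun σ => d σ - cf (z n) σ)
    simpa using this
  have h2 : n2 (H n) (fun σ => cf (z n) σ) ≤ M := by
    have hM0 : 0 ≤ M := (norm_nonneg _).trans (hM n)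
    apply n2_le_of_sq hM0
    calc _ ≤ ‖z n‖ ^ 2 := sum_cf_sq_le (z n) (H n)
      _ ≤ M ^ 2 := by have := hM n; gcongr
  have h3 : n2 (H n) (fun σ => d σ - cf (z n) σ) ≤ ε n := by
    refine (n2_le_sum_abs _ _).trans ?_
    refine le_trans (le_of_eq ?_) (hS n).close
    exact Finset.sum_congr rfl fun σ _ => abs_sub_comm _ _
  exact sum_sq_le_of_n2 (h1.trans (add_le_add h2 h3))

lemma sum_c_sq_le {M : ℝ} (hM : ∀ n, ‖z n‖ ≤ M) (n : ℕ) :
    ∑ σ ∈ H (n + 1) \ H n, cf (z n) σ ^ 2 ≤ M ^ 2 := by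
  calc _ ≤ ‖z n‖ ^ 2 := sum_cf_sq_le (z n) _
    _ ≤ M ^ 2 := by have := hM n; gcongr

/-- The `E n` part. -/
noncomputable def En (z : ℕ → StrongDual ℝ (JFin Node)) (H : ℕ → Finset (ℕ → Bool)) (m' : ℕ → ℕ)
    (n : ℕ) (x : JFin Node) : ℝ :=
  ∑ σ ∈ H (n + 1) \ H n, cf (z n) σ * sumOn (tail σ (m' n)) x

lemma zt_apply (n : ℕ) (x : JFin Node) :
    zt d z H m m' n x = restr (band (m n) (m' n)) (z n) x +
      ∑ σ ∈ H n, d σ * sumOn (tail σ (m' n)) x + En z H m' n x := by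
  unfold zt En
  rw [ContinuousLinearMap.add_apply, ContinuousLinearMap.add_apply, ContinuousLinearMap.sum_apply,
    ContinuousLinearMap.sum_apply]
  simp only [ContinuousLinearMap.smul_apply, tb_apply, smul_eq_mul]

variable {ι : Type*}

lemma n2_band_le (hS : ∀ n, Stage d Z (ε n) (H n) (m n) (z n) (H (n + 1)) (m' n))
    (hm : ∀ n, m' n < m (n + 1)) {M : ℝ} (hM : ∀ n, ‖z n‖ ≤ M) (s : Finset ι) (p : ι → ℕ)
    (hp : Set.InjOn p s) (x : JFin Node) :
    n2 s (fun i => restr (band (m (p i)) (m' (p i))) (z (p i)) x) ≤ M * ‖x‖ := by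
  have hM0 : 0 ≤ M := (norm_nonneg _).trans (hM 0)
  apply n2_restr_le s (fun i => band (m (p i)) (m' (p i))) (fun i _ => ordConnected_band _ _) _
    (fun i => z (p i)) hM0 (fun i _ => hM _)
  intro i hi j hj hij
  have hne : p i ≠ p j := fun h => hij (hp hi hj h)
  rcases lt_or_gt_of_ne hne with h | h
  · exact disjoint_band (m'_lt_m hS hm h).le
  · exact (disjoint_band (m'_lt_m hS hm h).le).symm

lemma n2_En_le (hS : ∀ n, Stage d Z (ε n) (H n) (m n) (z n) (H (n + 1)) (m' n))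
    (hm : ∀ n, m' n < m (n + 1)) {M : ℝ} (hM : ∀ n, ‖z n‖ ≤ M) (s : Finset ι) (p : ι → ℕ)
    (hp : Set.InjOn p s) (x : JFin Node) :
    n2 s (fun i => En z H m' (p i) x) ≤ M * ‖x‖ := by
  have hM0 : 0 ≤ M := (norm_nonneg _).trans (hM 0)
  apply n2_famsum_le s (fun i => H (p i + 1) \ H (p i)) (fun i σ => tail σ (m' (p i)))
    (fun i _ σ _ => isSeg_tail _ _) _ (fun i σ => cf (z (p i)) σ) hM0
    (fun i _ => sum_c_sq_le hM (p i))
  -- disjointness
  have hlt : ∀ {k l : ℕ}, k < l → ∀ σ ∈ H (k + 1) \ H k, ∀ τ ∈ H (l + 1) \ H l,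
      Disjoint (tail σ (m' k)) (tail τ (m' l)) := by
    intro k l hkl σ hσ τ hτ
    rw [Finset.mem_sdiff] at hσ hτ
    have hσl : σ ∈ H l := H_mono hS hkl hσ.1
    have hne : σ ≠ τ := by rintro rfl; exact hτ.2 hσl
    apply disjoint_tail (k := m' l) _ (le_max_right _ _)
    intro heq
    exact hne ((hS l).sep (m' l) (le_refl _) σ ((hS l).sub hσl) τ hτ.1 heq)
  intro i hi σ hσ j hj τ hτ hor
  by_cases hij : i = j
  · subst hij
    have hne : σ ≠ τ := by
      rcases hor with h | h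
      · exact absurd rfl h
      · exact h
    rw [Finset.mem_sdiff] at hσ hτ
    apply disjoint_tail (k := m' (p i)) _ (le_max_right _ _)
    intro heq
    exact hne ((hS (p i)).sep (m' (p i)) (le_refl _) σ hσ.1 τ hτ.1 heq)
  · have hne : p i ≠ p j := fun h => hij (hp hi hj h)
    rcases lt_or_gt_of_ne hne with h | h
    · exact hlt h σ hσ τ hτ
    · exact (hlt h τ hτ σ hσ).symm

/-- Upper `2`-estimate of the differences over disjoint intervals `[p i, q i)`. -/
theorem n2_diff_le (hS : ∀ n, Stage d Z (ε n) (H n) (m n) (z n) (H (n + 1)) (m' n))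
    (hm : ∀ n, m' n < m (n + 1)) {M : ℝ} (hM : ∀ n, ‖z n‖ ≤ M) {e0 : ℝ} (hε : ∀ n, ε n ≤ e0)
    (hε0 : ∀ n, 0 ≤ ε n)
    (s : Finset ι) (p q : ι → ℕ) (hpq : ∀ i ∈ s, p i < q i)
    (hdis : ∀ i ∈ s, ∀ j ∈ s, i ≠ j → q i ≤ p j ∨ q j ≤ p i) (x : JFin Node) :
    n2 s (fun i => (zt d z H m m' (p i) - zt d z H m m' (q i)) x) ≤ (6 * M + 2 * e0) * ‖x‖ := by
  have hM0 : 0 ≤ M := (norm_nonneg _).trans (hM 0)
  have he0 : 0 ≤ e0 := (hε0 0).trans (hε 0)
  have hpinj : Set.InjOn p s := by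
    intro i hi j hj h
    by_contra hne
    have h1 := hpq i hi
    have h2 := hpq j hj
    rcases hdis i hi j hj hne with h' | h' <;> omega
  have hqinj : Set.InjOn q s := by
    intro i hi j hj h
    by_contra hne
    have h1 := hpq i hi
    have h2 := hpq j hj
    rcases hdis i hi j hj hne with h' | h' <;> omega
  have hmono := (m'_strictMono hS hm).monotone
  have hD : ∀ n, ∑ σ ∈ H n, d σ ^ 2 ≤ (M + e0) ^ 2 := by
    intro n
    refine (sum_d_sq_le hS hM n).trans ?_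
    have := hε n
    have := hε0 n
    gcongr
  -- decomposition
  have hdec : ∀ i ∈ s, (zt d z H m m' (p i) - zt d z H m m' (q i)) x =
      ((restr (band (m (p i)) (m' (p i))) (z (p i)) x - restr (band (m (q i)) (m' (q i))) (z (q i)) x) +
      (En z H m' (p i) x - En z H m' (q i) x)) +
      ((∑ σ ∈ H (p i), d σ * sumOn (tband σ (m' (p i)) (m' (q i))) x) -
        ∑ σ ∈ H (q i) \ H (p i), d σ * sumOn (tail σ (m' (q i))) x) := by
    intro i hi
    rw [ContinuousLinearMap.sub_apply, zt_apply, zt_apply]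
    have h1 : ∑ σ ∈ H (p i), d σ * sumOn (tail σ (m' (p i))) x =
        ∑ σ ∈ H (p i), d σ * sumOn (tband σ (m' (p i)) (m' (q i))) x +
          ∑ σ ∈ H (p i), d σ * sumOn (tail σ (m' (q i))) x := by
      rw [← Finset.sum_add_distrib]
      refine Finset.sum_congr rfl fun σ _ => ?_
      rw [sumOn_tail_eq σ (hmono (hpq i hi).le) x]; ring
    have h2 : ∑ σ ∈ H (q i), d σ * sumOn (tail σ (m' (q i))) x =
        ∑ σ ∈ H (q i) \ H (p i), d σ * sumOn (tail σ (m' (q i))) x +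
          ∑ σ ∈ H (p i), d σ * sumOn (tail σ (m' (q i))) x := by
      rw [Finset.sum_sdiff (H_mono hS (hpq i hi).le)]
    rw [h1, h2]; ring
  rw [n2_congr hdec]
  -- the four simple pieces
  have b1 := n2_band_le hS hm hM s p hpinj x
  have b2 := n2_band_le hS hm hM s q hqinj x
  have b3 := n2_En_le hS hm hM s p hpinj x
  have b4 := n2_En_le hS hm hM s q hqinj x
  have b5 : n2 s (fun i => ∑ σ ∈ H (p i), d σ * sumOn (tband σ (m' (p i)) (m' (q i))) x) ≤
      (M + e0) * ‖x‖ := by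
    apply n2_famsum_le s (fun i => H (p i)) (fun i σ => tband σ (m' (p i)) (m' (q i)))
      (fun i _ σ _ => isSeg_tband _ _ _) _ (fun _ σ => d σ) (by positivity)
      (fun i _ => hD (p i))
    intro i hi σ hσ j hj τ hτ hor
    by_cases hij : i = j
    · subst hij
      have hne : σ ≠ τ := by
        rcases hor with h | h
        · exact absurd rfl h
        · exact h
      refine (disjoint_tail (m := m' (p i)) (n := m' (p i)) (k := m' (p i)) ?_ (le_max_right _ _)).mono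
        (tband_subset_tail _ _ _) (tband_subset_tail _ _ _)
      intro heq
      exact hne ((hS (p i)).sep (m' (p i)) (le_refl _) σ ((hS _).sub hσ) τ ((hS _).sub hτ) heq)
    · rcases hdis i hi j hj hij with h | h
      · exact (disjoint_band (hmono h)).mono (tband_subset_band _ _ _) (tband_subset_band _ _ _)
      · exact (disjoint_band (hmono h)).symm.mono (tband_subset_band _ _ _) (tband_subset_band _ _ _)
  have b6 : n2 s (fun i => ∑ σ ∈ H (q i) \ H (p i), d σ * sumOn (tail σ (m' (q i))) x) ≤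
      (M + e0) * ‖x‖ := by
    apply n2_famsum_le s (fun i => H (q i) \ H (p i)) (fun i σ => tail σ (m' (q i)))
      (fun i _ σ _ => isSeg_tail _ _) _ (fun _ σ => d σ) (by positivity)
      (fun i _ => ?_)
    · have hone : ∀ i ∈ s, ∀ j ∈ s, q i ≤ p j → ∀ σ ∈ H (q i) \ H (p i), ∀ τ ∈ H (q j) \ H (p j),
          Disjoint (tail σ (m' (q i))) (tail τ (m' (q j))) := by
        intro i hi j hj hle σ hσ τ hτ
        rw [Finset.mem_sdiff] at hσ hτ
        have hσj : σ ∈ H (p j) := H_mono hS hle hσ.1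
        have hne : σ ≠ τ := by rintro rfl; exact hτ.2 hσj
        have hσq : σ ∈ H (q j) := H_mono hS (hpq j hj).le hσj
        apply disjoint_tail (k := m' (q j)) _ (le_max_right _ _)
        intro heq
        exact hne ((hS (q j)).sep (m' (q j)) (le_refl _) σ ((hS _).sub hσq) τ ((hS _).sub hτ.1) heq)
      intro i hi σ hσ j hj τ hτ hor
      by_cases hij : i = j
      · subst hij
        have hne : σ ≠ τ := by
          rcases hor with h | h
          · exact absurd rfl h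
          · exact h
        rw [Finset.mem_sdiff] at hσ hτ
        apply disjoint_tail (k := m' (q i)) _ (le_max_right _ _)
        intro heq
        exact hne ((hS (q i)).sep (m' (q i)) (le_refl _) σ ((hS _).sub hσ.1) τ
          ((hS _).sub hτ.1) heq)
      · rcases hdis i hi j hj hij with h | h
        · exact hone i hi j hj h σ hσ τ hτ
        · exact (hone j hj i hi h τ hτ σ hσ).symm
    · refine (Finset.sum_le_sum_of_subset_of_nonneg Finset.sdiff_subset
        fun _ _ _ => sq_nonneg _).trans (hD (q i))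
  have c1 := n2_sub_le s (fun i => restr (band (m (p i)) (m' (p i))) (z (p i)) x)
    (fun i => restr (band (m (q i)) (m' (q i))) (z (q i)) x)
  have c2 := n2_sub_le s (fun i => En z H m' (p i) x) (fun i => En z H m' (q i) x)
  have c3 := n2_sub_le s (fun i => ∑ σ ∈ H (p i), d σ * sumOn (tband σ (m' (p i)) (m' (q i))) x)
    (fun i => ∑ σ ∈ H (q i) \ H (p i), d σ * sumOn (tail σ (m' (q i))) x)
  have c4 := n2_add_le s (fun i => restr (band (m (p i)) (m' (p i))) (z (p i)) x -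
    restr (band (m (q i)) (m' (q i))) (z (q i)) x) (fun i => En z H m' (p i) x - En z H m' (q i) x)
  have c5 := n2_add_le s (fun i => (restr (band (m (p i)) (m' (p i))) (z (p i)) x -
    restr (band (m (q i)) (m' (q i))) (z (q i)) x) + (En z H m' (p i) x - En z H m' (q i) x))
    (fun i => (∑ σ ∈ H (p i), d σ * sumOn (tband σ (m' (p i)) (m' (q i))) x) -
        ∑ σ ∈ H (q i) \ H (p i), d σ * sumOn (tail σ (m' (q i))) x)
  calc _ ≤ _ := c5
    _ ≤ ((M * ‖x‖ + M * ‖x‖) + (M * ‖x‖ + M * ‖x‖)) + ((M + e0) * ‖x‖ + (M + e0) * ‖x‖) := by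
        refine add_le_add (c4.trans (add_le_add (c1.trans (add_le_add b1 b2))
          (c2.trans (add_le_add b3 b4)))) (c3.trans (add_le_add b5 b6))
    _ = _ := by ring

/-- Upper `2`-estimate of the sequence itself if `d = 0`. -/
theorem n2_seq_le (hS : ∀ n, Stage d Z (ε n) (H n) (m n) (z n) (H (n + 1)) (m' n))
    (hm : ∀ n, m' n < m (n + 1)) {M : ℝ} (hM : ∀ n, ‖z n‖ ≤ M) (hd : ∀ σ, d σ = 0)
    (s : Finset ℕ) (x : JFin Node) :
    n2 s (fun n => zt d z H m m' n x) ≤ 2 * M * ‖x‖ := by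
  have h1 : ∀ n ∈ s, zt d z H m m' n x = restr (band (m n) (m' n)) (z n) x + En z H m' n x := by
    intro n _
    rw [zt_apply, Finset.sum_eq_zero]
    · ring
    · intro σ _
      rw [hd σ, zero_mul]
  rw [n2_congr h1]
  have b1 := n2_band_le hS hm hM s (fun n => n) (Function.injective_id.injOn) x
  have b3 := n2_En_le hS hm hM s (fun n => n) (Function.injective_id.injOn) x
  have c := n2_add_le s (fun n => restr (band (m n) (m' n)) (z n) x) (fun n => En z H m' n x)
  calc _ ≤ _ := c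
    _ ≤ M * ‖x‖ + M * ‖x‖ := add_le_add b1 b3
    _ = _ := by ring

end

end JTree
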