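import Pool.Agent.Work.MP_245e03_an.Structure

/-!
# Condensation points and the data used in the recursion for Q2.
-/

open scoped BigOperators
open Finset

namespace JTree

/-- Branches. -/
abbrev Br : Type := ℕ → Bool

/-- Every countable set of branches is contained in the range of an injective sequence starting at
a given branch. -/
lemma exists_enum (C : Set Br) (hC : C.Countable) (g : Br) :
    ∃ τ : ℕ → Br, Function.Injective τ ∧ τ 0 = g ∧ ∀ σ ∈ C, ∃ j, τ j = σ := by
  classical
  have hinf : Infinite Br := by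
    refine Infinite.of_injective (fun n : ℕ => (fun i => decide (i = n) : Br)) ?_
    intro a b hab
    have := congrFun hab a
    simpa using this
  set C' : Set Br := C ∪ {g} ∪ Set.range (Infinite.natEmbedding Br) with hC'
  have hcount : C'.Countable :=
    (hC.union (Set.countable_singleton g)).union (Set.countable_range _)
  have hinf' : C'.Infinite :=
    (Set.infinite_range_of_injective (Infinite.natEmbedding Br).injective).mono
      Set.subset_union_right
  have : Countable C' := hcount.to_subtype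
  have : Infinite C' := hinf'.to_subtype
  obtain ⟨e⟩ : Nonempty (ℕ ≃ C') := by
    obtain ⟨d⟩ := nonempty_denumerable C'
    exact ⟨(Denumerable.eqv C').symm⟩
  have hg : g ∈ C' := Or.inl (Or.inr rfl)
  set n0 := e.symm ⟨g, hg⟩ with hn0
  refine ⟨fun n => (e (Equiv.swap 0 n0 n) : Br), ?_, ?_, ?_⟩
  · intro a b hab
    exact (Equiv.swap 0 n0).injective (e.injective (Subtype.ext hab))
  · simp [hn0]
  · intro σ hσ
    refine ⟨Equiv.swap 0 n0 (e.symm ⟨σ, Or.inl (Or.inl hσ)⟩), ?_⟩
    simp

/-- The data extracted from a non-separable subspace. -/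
structure Dat (Y : Submodule ℝ (StrongDual ℝ (JFin Node))) where
  Sg : Set Br
  y : Br → StrongDual ℝ (JFin Node)
  τ : Br → ℕ → Br
  M : ℝ
  unc : ¬ Sg.Countable
  yY : ∀ g ∈ Sg, y g ∈ Y
  yM : ∀ g ∈ Sg, ‖y g‖ ≤ M
  cfg : ∀ g ∈ Sg, cf (y g) g = 1
  τ0 : ∀ g, τ g 0 = g
  τinj : ∀ g, Function.Injective (τ g)
  τsupp : ∀ g σ, cf (y g) σ ≠ 0 → ∃ j, τ g j = σ

lemma tb_eq (σ : Br) (m : ℕ) : tb σ m = tb σ 0 - ∑ j ∈ Finset.range m, estar (res σ j) := by
  classical
  ext x
  rw [_root_.sub_apply, _root_.sum_apply, tb_apply, tb_apply]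
  have h1 : ∀ m : ℕ, sumOn (tail σ 0) x = sumOn (tail σ m) x + ∑ j ∈ Finset.range m, estar (res σ j) x := by
    intro m
    induction m with
    | zero => simp
    | succ m ih =>
      rw [ih, Finset.sum_range_succ]
      have h2 : sumOn (tail σ m) x = sumOn {res σ m} x + sumOn (tail σ (m + 1)) x := by
        rw [← sumOn_union]
        · congr 2
          ext a
          simp only [Set.mem_union, Set.mem_singleton_iff, mem_tail]
          constructor
          · rintro ⟨h3, h4⟩
            rcases eq_or_lt_of_le h3 with h5 | h5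
            · left; rw [h4, ← h5]
            · exact Or.inr ⟨h5, h4⟩
          · rintro (h3 | ⟨h3, h4⟩)
            · subst h3; simp
            · exact ⟨by omega, h4⟩
        · rw [Set.disjoint_left]
          rintro a h3 ⟨h4, _⟩
          rw [Set.mem_singleton_iff] at h3
          subst h3
          simp at h4
      rw [h2, estar_apply, sumOn_singleton]
      ring
  rw [h1 m]; ring

lemma restr_below_eq (f : StrongDual ℝ (JFin Node)) (m : ℕ) :
    ‖f - ∑ a ∈ below m, f (e a) • estar a - restr (lvl m) f‖ = 0 := by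
  classical
  rw [norm_eq_zero]
  ext x
  rw [_root_.sub_apply, _root_.sub_apply, _root_.sum_apply, restr_apply (ordConnected_lvl m)]
  have hx : x = (∑ a ∈ below m, co x a • e a) + proj (lvl m) x := by
    apply ext_co
    intro b
    have h : ∀ G : Finset Node, co (∑ a ∈ G, co x a • (e a : JFin Node)) b =
        if b ∈ G then co x b else 0 := by
      intro G
      induction G using Finset.induction_on with
      | empty => simp
      | insert t G ht ih =>
        rw [Finset.sum_insert ht, co_add, ih, co_smul, co_e]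
        by_cases hts : t = b
        · subst hts; simp [ht]
        · have hst : b ≠ t := fun h => hts h.symm
          simp [hts, hst]
    rw [co_add, h, co_proj]
    by_cases hb : b.len < m
    · rw [if_pos (mem_below.mpr hb), if_neg (fun h' => not_le.mpr hb (mem_lvl.mp h')), add_zero]
    · rw [if_neg (fun h' => hb (mem_below.mp h')), if_pos (mem_lvl.mpr (not_lt.mp hb)), zero_add]
  have h1 : f x = ∑ a ∈ below m, co x a * f (e a) + f (proj (lvl m) x) := by
    conv_lhs => rw [hx]
    rw [map_add, map_sum]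
    simp only [map_smul, smul_eq_mul]
  rw [h1]
  have h2 : ∑ a ∈ below m, (f (e a) • estar a) x = ∑ a ∈ below m, co x a * f (e a) := by
    refine Finset.sum_congr rfl fun a _ => ?_
    rw [_root_.smul_apply, estar_apply, smul_eq_mul, mul_comm]
  rw [h2]
  simp

/-- If the branches seen by `Y` form a countable set then `Y` is separable. -/
lemma separable_of_countable (Y : Submodule ℝ (StrongDual ℝ (JFin Node)))
    (h : {g : Br | ∃ f ∈ Y, cf f g ≠ 0}.Countable) :
    TopologicalSpace.IsSeparable (Y : Set (StrongDual ℝ (JFin Node))) := by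
  classical
  set Sg := {g : Br | ∃ f ∈ Y, cf f g ≠ 0} with hSg
  have hcN : Countable Node := inferInstanceAs (Countable (List Bool))
  set G : Set (StrongDual ℝ (JFin Node)) := Set.range (estar : Node → _) ∪ (fun g => tb g 0) '' Sg
    with hG
  have hGc : G.Countable := (Set.countable_range _).union (h.image _)
  have hsep : TopologicalSpace.IsSeparable
      (closure ((Submodule.span ℝ G : Submodule ℝ _) : Set (StrongDual ℝ (JFin Node)))) :=
    (hGc.isSeparable.span (R := ℝ)).closure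
  refine hsep.mono ?_
  intro f hf
  rw [Metric.mem_closure_iff]
  intro ε hε
  obtain ⟨H, hH⟩ := structure_thm f (show 0 < ε / 2 by linarith)
  obtain ⟨m, hm⟩ := hH H (le_refl _)
  have hm' := hm m (le_refl _)
  refine ⟨∑ a ∈ below m, f (e a) • estar a + ∑ σ ∈ H, cf f σ • tb σ m, ?_, ?_⟩
  · refine Submodule.add_mem _ (Submodule.sum_mem _ fun a _ => Submodule.smul_mem _ _
      (Submodule.subset_span (Or.inl ⟨a, rfl⟩))) (Submodule.sum_mem _ fun σ _ => ?_)
    by_cases hσ : cf f σ = 0
    · rw [hσ, zero_smul]; exact Submodule.zero_mem _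
    · rw [tb_eq]
      refine Submodule.smul_mem _ _ (Submodule.sub_mem _ (Submodule.subset_span
        (Or.inr ⟨σ, ⟨f, hf, hσ⟩, rfl⟩)) (Submodule.sum_mem _ fun j _ =>
          Submodule.subset_span (Or.inl ⟨_, rfl⟩)))
  · have h1 := norm_eq_zero.mp (restr_below_eq f m)
    have h2 : f - (∑ a ∈ below m, f (e a) • estar a + ∑ σ ∈ H, cf f σ • tb σ m)
        = restr (lvl m) f - ∑ σ ∈ H, cf f σ • tb σ m := by
      have : f - ∑ a ∈ below m, f (e a) • estar a = restr (lvl m) f := by
        rwa [sub_eq_zero] at h1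
      rw [← sub_sub, this]
    rw [dist_eq_norm, h2]
    linarith

/-- Extraction of the data. -/
lemma exists_dat (Y : Submodule ℝ (StrongDual ℝ (JFin Node)))
    (hsep : ¬ TopologicalSpace.IsSeparable (Y : Set (StrongDual ℝ (JFin Node)))) :
    Nonempty (Dat Y) := by
  classical
  set Sg := {g : Br | ∃ f ∈ Y, cf f g ≠ 0} with hSg
  have hunc : ¬ Sg.Countable := fun h => hsep (separable_of_countable Y h)
  have hex : ∀ g : Br, ∃ f : StrongDual ℝ (JFin Node), g ∈ Sg → f ∈ Y ∧ cf f g = 1 := by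
    intro g
    by_cases hg : g ∈ Sg
    · obtain ⟨f, hf, hfg⟩ := hg
      refine ⟨(cf f g)⁻¹ • f, fun _ => ⟨Y.smul_mem _ hf, ?_⟩⟩
      rw [cf_smul, inv_mul_cancel₀ hfg]
    · exact ⟨0, fun h => absurd h hg⟩
  choose y hy using hex
  have hexτ : ∀ g : Br, ∃ τ : ℕ → Br, Function.Injective τ ∧ τ 0 = g ∧
      ∀ σ, cf (y g) σ ≠ 0 → ∃ j, τ j = σ := by
    intro g
    have hc : (Function.support fun σ => cf (y g) σ ^ 2).Countable :=
      (summable_cf_sq (y g)).countable_support
    obtain ⟨τ, h1, h2, h3⟩ := exists_enum _ hc g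
    refine ⟨τ, h1, h2, fun σ hσ => h3 σ ?_⟩
    exact pow_ne_zero 2 hσ
  choose τ hτ using hexτ
  have hcover : Sg = ⋃ N : ℕ, {g | g ∈ Sg ∧ ‖y g‖ ≤ N} := by
    ext g
    simp only [Set.mem_iUnion, Set.mem_ofPred_eq]
    constructor
    · intro hg
      obtain ⟨N, hN⟩ := exists_nat_ge ‖y g‖
      exact ⟨N, hg, hN⟩
    · rintro ⟨_, hg, _⟩; exact hg
  have hN : ∃ N : ℕ, ¬ {g | g ∈ Sg ∧ ‖y g‖ ≤ N}.Countable := by
    by_contra hcon
    push Not at hcon
    exact hunc (hcover ▸ Set.countable_iUnion hcon)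
  obtain ⟨N, hN⟩ := hN
  exact ⟨{
    Sg := {g | g ∈ Sg ∧ ‖y g‖ ≤ N}
    y := y
    τ := τ
    M := N
    unc := hN
    yY := fun g hg => (hy g hg.1).1
    yM := fun g hg => hg.2
    cfg := fun g hg => (hy g hg.1).2
    τ0 := fun g => (hτ g).2.1
    τinj := fun g => (hτ g).1
    τsupp := fun g => (hτ g).2.2 }⟩

namespace Dat

variable {Y : Submodule ℝ (StrongDual ℝ (JFin Node))} (D : Dat Y)

/-- The coefficients. -/
noncomputable def c (g : Br) (j : ℕ) : ℝ := cf (D.y g) (D.τ g j)

lemma csum (g : Br) (J : Finset ℕ) : ∑ j ∈ J, D.c g j ^ 2 ≤ ‖D.y g‖ ^ 2 := by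
  classical
  have h := sum_cf_sq_le (D.y g) (J.image (D.τ g))
  rwa [Finset.sum_image (fun x _ y _ h => D.τinj g h)] at h

/-- Good pairs `(k, m)` for `g`. -/
def Good (ε : ℝ) (k m : ℕ) (g : Br) : Prop :=
  ‖restr (lvl m) (D.y g) - ∑ j ∈ Finset.range k, D.c g j • tb (D.τ g j) m‖ ≤ ε ∧
    ∀ J : Finset ℕ, (∀ j ∈ J, k ≤ j) → ∑ j ∈ J, D.c g j ^ 2 ≤ ε ^ 2

lemma exists_good (g : Br) {ε : ℝ} (hε : 0 < ε) :
    ∃ k0, ∀ k, k0 ≤ k → ∃ m0, ∀ m, m0 ≤ m → D.Good ε k m g := by
  classical
  -- tails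
  have hs : Summable (fun j => D.c g j ^ 2) :=
    (summable_cf_sq (D.y g)).comp_injective (D.τinj g)
  obtain ⟨s0, hs0⟩ := summable_iff_vanishing_norm.mp hs (ε ^ 2) (by positivity)
  obtain ⟨H0, hH0⟩ := structure_thm (D.y g) hε
  have hidx : ∀ σ : Br, ∃ j, cf (D.y g) σ ≠ 0 → D.τ g j = σ := by
    intro σ
    by_cases h : cf (D.y g) σ = 0
    · exact ⟨0, fun h' => absurd h h'⟩
    · obtain ⟨j, hj⟩ := D.τsupp g σ h
      exact ⟨j, fun _ => hj⟩
  choose ix hix using hidx
  refine ⟨max (s0.sup id + 1) (H0.sup ix + 1), fun k hk => ?_⟩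
  obtain ⟨m0, hm0⟩ := hH0 (H0 ∪ (Finset.range k).image (D.τ g)) Finset.subset_union_left
  refine ⟨m0, fun m hm => ⟨?_, ?_⟩⟩
  · have h1 := hm0 m hm
    have h2 : ∑ σ ∈ H0 ∪ (Finset.range k).image (D.τ g), cf (D.y g) σ • tb σ m
        = ∑ j ∈ Finset.range k, D.c g j • tb (D.τ g j) m := by
      rw [← Finset.sum_subset (s₁ := (Finset.range k).image (D.τ g)) Finset.subset_union_right]
      · rw [Finset.sum_image (fun x _ y _ h => D.τinj g h)]
        rfl
      · intro σ hσ hσ'
        have hσ0 : σ ∈ H0 := by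
          rcases Finset.mem_union.mp hσ with h3 | h3
          · exact h3
          · exact absurd h3 hσ'
        by_cases h3 : cf (D.y g) σ = 0
        · rw [h3, zero_smul]
        · exfalso
          apply hσ'
          have h4 : ix σ ≤ H0.sup ix := Finset.le_sup hσ0
          have h5 : ix σ < k := by
            have := (le_max_right (s0.sup id + 1) (H0.sup ix + 1)).trans hk
            omega
          exact Finset.mem_image.mpr ⟨ix σ, Finset.mem_range.mpr h5, hix σ h3⟩
    rw [h2] at h1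
    exact h1
  · intro J hJ
    have hd : Disjoint J s0 := by
      rw [Finset.disjoint_left]
      intro j hj hj'
      have h1 : j ≤ s0.sup id := Finset.le_sup (f := id) hj'
      have h2 := (le_max_left (s0.sup id + 1) (H0.sup ix + 1)).trans hk
      have h3 := hJ j hj
      omega
    have h1 := hs0 J hd
    rw [Real.norm_eq_abs] at h1
    exact (le_abs_self _).trans h1.le

/-- Index set of the coordinates. -/
abbrev Ix : Type := (ℕ × Node) ⊕ (ℕ × ℕ) ⊕ (ℕ × ℕ) ⊕ (ℕ × ℕ × ℕ)

instance : Countable Node := inferInstanceAs (Countable (List Bool))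

open Classical in
/-- The countable-valued coordinates. -/
noncomputable def psi : Ix → Br → ℤ
  | Sum.inl (i, a) => fun g => ⌊(2 : ℝ) ^ i * D.y g (e a)⌋
  | Sum.inr (Sum.inl (i, j)) => fun g => ⌊(2 : ℝ) ^ i * D.c g j⌋
  | Sum.inr (Sum.inr (Sum.inl (i, j))) => fun g => if D.τ g j i then 1 else 0
  | Sum.inr (Sum.inr (Sum.inr (i, k, m))) => fun g => if D.Good ((1 / 2) ^ i) k m g then 1 else 0

/-- The basic neighbourhoods. -/
def cell (s : Br) (F : Finset Ix) : Set Br := {g | ∀ i ∈ F, D.psi i g = D.psi i s}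

lemma mem_cell_self (s : Br) (F : Finset Ix) : s ∈ D.cell s F := fun _ _ => rfl

lemma cell_anti {s : Br} {F G : Finset Ix} (h : F ⊆ G) : D.cell s G ⊆ D.cell s F :=
  fun _ hg i hi => hg i (h hi)

/-- Condensation points. -/
def Cond (s : Br) (A : Set Br) : Prop := ∀ F : Finset Ix, ¬ (A ∩ D.cell s F).Countable

lemma Cond.mono {s : Br} {A B : Set Br} (h : D.Cond s A) (hAB : A ⊆ B) : D.Cond s B :=
  fun F hF => h F (hF.mono (Set.inter_subset_inter_left _ hAB))

lemma Cond.inter_cell {s : Br} {A : Set Br} (h : D.Cond s A) (F : Finset Ix) :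
    D.Cond s (A ∩ D.cell s F) := by
  classical
  intro G hG
  apply h (F ∪ G)
  refine hG.mono ?_
  rintro g ⟨h1, h2⟩
  exact ⟨⟨h1, D.cell_anti Finset.subset_union_left h2⟩, D.cell_anti Finset.subset_union_right h2⟩

lemma Cond.or {s : Br} {A B : Set Br} (h : D.Cond s (A ∪ B)) : D.Cond s A ∨ D.Cond s B := by
  classical
  by_contra hcon
  unfold Cond at hcon
  push Not at hcon
  obtain ⟨⟨F, hF⟩, G, hG⟩ := hcon
  apply h (F ∪ G)
  refine (hF.union hG).mono ?_
  rintro g ⟨h1 | h1, h2⟩
  · exact Or.inl ⟨h1, D.cell_anti Finset.subset_union_left h2⟩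
  · exact Or.inr ⟨h1, D.cell_anti Finset.subset_union_right h2⟩

lemma countable_not_cond (A : Set Br) : {g | g ∈ A ∧ ¬ D.Cond g A}.Countable := by
  classical
  have h1 : {g | g ∈ A ∧ ¬ D.Cond g A}
      = ⋃ F : Finset Ix, {g | g ∈ A ∧ (A ∩ D.cell g F).Countable} := by
    ext g
    simp only [Set.mem_ofPred_eq, Set.mem_iUnion, Cond]
    push Not
    constructor
    · rintro ⟨h2, F, hF⟩; exact ⟨F, h2, hF⟩
    · rintro ⟨F, h2, hF⟩; exact ⟨h2, F, hF⟩
  rw [h1]
  refine Set.countable_iUnion fun F => ?_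
  set B := {g | g ∈ A ∧ (A ∩ D.cell g F).Countable} with hB
  have h2 : B = ⋃ v : (F → ℤ), {g | g ∈ B ∧ (fun i : F => D.psi i g) = v} := by
    ext g
    simp only [Set.mem_iUnion, Set.mem_ofPred_eq]
    constructor
    · intro h; exact ⟨_, h, rfl⟩
    · rintro ⟨_, h, _⟩; exact h
  rw [h2]
  refine Set.countable_iUnion fun v => ?_
  by_cases hne : ∃ g0, g0 ∈ B ∧ (fun i : F => D.psi i g0) = v
  · obtain ⟨g0, hg0, hv⟩ := hne
    refine hg0.2.mono ?_
    rintro g ⟨hg, hgv⟩
    refine ⟨hg.1, fun i hi => ?_⟩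
    have := congrFun (hgv.trans hv.symm) ⟨i, hi⟩
    exact this
  · have : {g | g ∈ B ∧ (fun i : F => D.psi i g) = v} = ∅ := by
      ext g
      simp only [Set.mem_ofPred_eq, Set.mem_empty_iff_false, iff_false]
      exact fun h => hne ⟨g, h⟩
    rw [this]
    exact Set.countable_empty

lemma exists_cond (A : Set Br) (hA : ¬ A.Countable) (b : Br) : ∃ g ∈ A, g ≠ b ∧ D.Cond g A := by
  by_contra hcon
  push Not at hcon
  apply hA
  refine ((D.countable_not_cond A).union (Set.countable_singleton b)).mono ?_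
  intro g hg
  by_cases h : g = b
  · exact Or.inr h
  · exact Or.inl ⟨hg, hcon g hg h⟩

lemma Cond.uncountable {s : Br} {A : Set Br} (h : D.Cond s A) : ¬ A.Countable :=
  fun hA => h ∅ (hA.mono Set.inter_subset_left)

/-- Making the status of the first `k` branches constant. -/
lemma exists_split {s : Br} {A : Set Br} (h : D.Cond s A) (k : ℕ) :
    ∃ A' ⊆ A, D.Cond s A' ∧ ∀ j < k, (∀ g ∈ A', D.τ g j = D.τ s j) ∨ (∀ g ∈ A', D.τ g j ≠ D.τ s j) := by
  induction k with
  | zero => exact ⟨A, le_refl _, h, fun j hj => absurd hj (Nat.not_lt_zero _)⟩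
  | succ k ih =>
    obtain ⟨A', h1, h2, h3⟩ := ih
    have hun : A' = (A' ∩ {g | D.τ g k = D.τ s k}) ∪ (A' ∩ {g | D.τ g k ≠ D.τ s k}) := by
      ext g
      simp only [Set.mem_union, Set.mem_inter_iff, Set.mem_ofPred_eq]
      tauto
    rw [hun] at h2
    rcases h2.or with h4 | h4
    · refine ⟨_, Set.inter_subset_left.trans h1, h4, fun j hj => ?_⟩
      rcases Nat.lt_succ_iff_lt_or_eq.mp hj with h5 | h5
      · rcases h3 j h5 with h6 | h6
        · exact Or.inl fun g hg => h6 g hg.1
        · exact Or.inr fun g hg => h6 g hg.1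
      · subst h5
        exact Or.inl fun g hg => hg.2
    · refine ⟨_, Set.inter_subset_left.trans h1, h4, fun j hj => ?_⟩
      rcases Nat.lt_succ_iff_lt_or_eq.mp hj with h5 | h5
      · rcases h3 j h5 with h6 | h6
        · exact Or.inl fun g hg => h6 g hg.1
        · exact Or.inr fun g hg => h6 g hg.1
      · subst h5
        exact Or.inr fun g hg => hg.2

/-- The neighbourhoods used in the recursion. -/
def Nset (s : Br) (ε : ℝ) (k m : ℕ) : Set Br :=
  {g | (∀ j < k, res (D.τ g j) m = res (D.τ s j) m) ∧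
    ‖D.y g - D.y s - ∑ j ∈ Finset.range k, D.c s j • (tb (D.τ g j) m - tb (D.τ s j) m)‖ ≤ ε ∧
    ∀ J : Finset ℕ, (∀ j ∈ J, k ≤ j) → ∑ j ∈ J, D.c g j ^ 2 ≤ ε ^ 2}

lemma abs_sub_le_of_floor {u v : ℝ} {i : ℕ} (h : ⌊(2 : ℝ) ^ i * u⌋ = ⌊(2 : ℝ) ^ i * v⌋) :
    |u - v| ≤ (1 / 2) ^ i := by
  have h1 := Int.abs_sub_lt_one_of_floor_eq_floor h
  rw [← mul_sub, abs_mul, abs_of_pos (by positivity)] at h1
  rw [one_div, inv_pow, ← one_div, le_div_iff₀ (by positivity)]
  linarith

lemma exists_cell_subset (s : Br) {ε : ℝ} (hε : 0 < ε) :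
    ∃ k0, ∀ k, k0 ≤ k → ∃ m0, ∀ m, m0 ≤ m → ∃ F : Finset Ix, D.cell s F ⊆ D.Nset s ε k m := by
  classical
  obtain ⟨i0, hi0⟩ := exists_pow_lt_of_lt_one (show 0 < ε / 4 by linarith)
    (show (1 / 2 : ℝ) < 1 by norm_num)
  obtain ⟨k0, hk0⟩ := D.exists_good s (show (0 : ℝ) < (1 / 2) ^ i0 by positivity)
  refine ⟨k0, fun k hk => ?_⟩
  obtain ⟨m0, hm0⟩ := hk0 k hk
  refine ⟨m0, fun m hm => ?_⟩
  have hgood := hm0 m hm
  obtain ⟨i1, hi1⟩ := exists_pow_lt_of_lt_one
    (show 0 < ε / (4 * ((below m).card + 1)) by positivity) (show (1 / 2 : ℝ) < 1 by norm_num)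
  obtain ⟨i2, hi2⟩ := exists_pow_lt_of_lt_one
    (show 0 < ε / (4 * (k + 1)) by positivity) (show (1 / 2 : ℝ) < 1 by norm_num)
  set F : Finset Ix := ((below m).image (fun a => (Sum.inl (i1, a) : Ix))) ∪
    ((Finset.range k).image (fun j => (Sum.inr (Sum.inl (i2, j)) : Ix))) ∪
    ((Finset.range m ×ˢ Finset.range k).image (fun p => (Sum.inr (Sum.inr (Sum.inl p)) : Ix))) ∪
    {Sum.inr (Sum.inr (Sum.inr (i0, k, m)))} with hF
  refine ⟨F, fun g hg => ?_⟩
  have hga : ∀ a ∈ below m, |D.y g (e a) - D.y s (e a)| ≤ (1 / 2) ^ i1 := by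
    intro a ha
    have h1 : (Sum.inl (i1, a) : Ix) ∈ F := by
      simp only [hF, Finset.mem_union, Finset.mem_image]
      exact Or.inl (Or.inl (Or.inl ⟨a, ha, rfl⟩))
    exact abs_sub_le_of_floor (hg _ h1)
  have hgc : ∀ j ∈ Finset.range k, |D.c g j - D.c s j| ≤ (1 / 2) ^ i2 := by
    intro j hj
    have h1 : (Sum.inr (Sum.inl (i2, j)) : Ix) ∈ F := by
      simp only [hF, Finset.mem_union, Finset.mem_image]
      exact Or.inl (Or.inl (Or.inr ⟨j, hj, rfl⟩))
    exact abs_sub_le_of_floor (hg _ h1)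
  have hgt : ∀ j < k, res (D.τ g j) m = res (D.τ s j) m := by
    intro j hj
    rw [res_eq_res_iff]
    intro i hi
    have h1 : (Sum.inr (Sum.inr (Sum.inl (i, j))) : Ix) ∈ F := by
      simp only [hF, Finset.mem_union, Finset.mem_image]
      exact Or.inl (Or.inr ⟨(i, j), Finset.mem_product.mpr ⟨Finset.mem_range.mpr hi,
        Finset.mem_range.mpr hj⟩, rfl⟩)
    have h2 := hg _ h1
    simp only [psi] at h2
    by_cases h3 : D.τ g j i = true
    · by_cases h4 : D.τ s j i = true
      · rw [h3, h4]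
      · rw [if_pos h3, if_neg h4] at h2; omega
    · by_cases h4 : D.τ s j i = true
      · rw [if_neg h3, if_pos h4] at h2; omega
      · rw [Bool.not_eq_true] at h3 h4; rw [h3, h4]
  have hgg : D.Good ((1 / 2) ^ i0) k m g := by
    have h1 : (Sum.inr (Sum.inr (Sum.inr (i0, k, m))) : Ix) ∈ F := by
      rw [hF]
      exact Finset.mem_union_right _ (Finset.mem_singleton_self _)
    have h2 := hg _ h1
    simp only [psi] at h2
    rw [if_pos hgood] at h2
    by_contra h3
    rw [if_neg h3] at h2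
    omega
  refine ⟨hgt, ?_, fun J hJ => (hgg.2 J hJ).trans ?_⟩
  · set f := D.y g - D.y s - ∑ j ∈ Finset.range k, D.c s j • (tb (D.τ g j) m - tb (D.τ s j) m)
      with hf
    refine (norm_le_below_add f m).trans ?_
    have hcard : (0 : ℝ) < (below m).card + 1 := by positivity
    have h1 : ∑ a ∈ below m, |f (e a)| ≤ ε / 4 := by
      have h2 : ∀ a ∈ below m, |f (e a)| ≤ (1 / 2) ^ i1 := by
        intro a ha
        have h3 : f (e a) = D.y g (e a) - D.y s (e a) := by
          rw [hf, _root_.sub_apply, _root_.sub_apply, _root_.sum_apply, Finset.sum_eq_zero, sub_zero]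
          intro j _
          have h4 : ∀ σ : Br, tb σ m (e a) = 0 := by
            intro σ
            rw [tb_apply, sumOn_e, if_neg]
            intro h5
            exact absurd h5.1 (not_le.mpr (mem_below.mp ha))
          rw [_root_.smul_apply, _root_.sub_apply, h4, h4]
          simp
        rw [h3]
        exact hga a ha
      refine (Finset.sum_le_sum h2).trans ?_
      rw [Finset.sum_const, nsmul_eq_mul]
      have h5 : ((below m).card : ℝ) * (1 / 2) ^ i1 ≤ ((below m).card + 1) * (ε / (4 * ((below m).card + 1))) := by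
        apply mul_le_mul (by linarith) hi1.le (by positivity) hcard.le
      have h6 : ((below m).card + 1 : ℝ) * (ε / (4 * ((below m).card + 1))) = ε / 4 := by
        field_simp
      linarith
    have h2 : ‖restr (lvl m) f‖ ≤ 3 * (ε / 4) := by
      have h3 : restr (lvl m) f = (restr (lvl m) (D.y g) - ∑ j ∈ Finset.range k, D.c g j • tb (D.τ g j) m)
          - (restr (lvl m) (D.y s) - ∑ j ∈ Finset.range k, D.c s j • tb (D.τ s j) m)
          + ∑ j ∈ Finset.range k, (D.c g j - D.c s j) • tb (D.τ g j) m := by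
        rw [hf, restr_sub, restr_sub, restr_sum]
        have h4 : ∀ j ∈ Finset.range k, restr (lvl m) (D.c s j • (tb (D.τ g j) m - tb (D.τ s j) m))
            = D.c s j • tb (D.τ g j) m - D.c s j • tb (D.τ s j) m := by
          intro j _
          rw [restr_smul, restr_sub, restr_lvl_tb, restr_lvl_tb, max_self, smul_sub]
        rw [Finset.sum_congr rfl h4, Finset.sum_sub_distrib]
        have h5 : ∑ j ∈ Finset.range k, (D.c g j - D.c s j) • tb (D.τ g j) m
            = ∑ j ∈ Finset.range k, D.c g j • tb (D.τ g j) m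
              - ∑ j ∈ Finset.range k, D.c s j • tb (D.τ g j) m := by
          rw [← Finset.sum_sub_distrib]
          exact Finset.sum_congr rfl fun j _ => by module
        rw [h5]
        abel
      rw [h3]
      have h6 : ‖∑ j ∈ Finset.range k, (D.c g j - D.c s j) • tb (D.τ g j) m‖ ≤ ε / 4 := by
        refine (norm_sum_le _ _).trans ?_
        have h7 : ∀ j ∈ Finset.range k, ‖(D.c g j - D.c s j) • tb (D.τ g j) m‖ ≤ (1 / 2) ^ i2 := by
          intro j hj
          rw [norm_smul, Real.norm_eq_abs]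
          have h8 : ‖tb (D.τ g j) m‖ ≤ 1 := norm_bOn_le _
          have h9 := hgc j hj
          have h10 := abs_nonneg (D.c g j - D.c s j)
          nlinarith [norm_nonneg (tb (D.τ g j) m)]
        refine (Finset.sum_le_sum h7).trans ?_
        rw [Finset.sum_const, nsmul_eq_mul, Finset.card_range]
        have h5 : (k : ℝ) * (1 / 2) ^ i2 ≤ (k + 1) * (ε / (4 * (k + 1))) := by
          apply mul_le_mul (by linarith) hi2.le (by positivity) (by positivity)
        have h6 : (k + 1 : ℝ) * (ε / (4 * (k + 1))) = ε / 4 := by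
          field_simp
        linarith
      have h7 := norm_add_le ((restr (lvl m) (D.y g) - ∑ j ∈ Finset.range k, D.c g j • tb (D.τ g j) m)
          - (restr (lvl m) (D.y s) - ∑ j ∈ Finset.range k, D.c s j • tb (D.τ s j) m))
          (∑ j ∈ Finset.range k, (D.c g j - D.c s j) • tb (D.τ g j) m)
      have h8 := norm_sub_le (restr (lvl m) (D.y g) - ∑ j ∈ Finset.range k, D.c g j • tb (D.τ g j) m)
          (restr (lvl m) (D.y s) - ∑ j ∈ Finset.range k, D.c s j • tb (D.τ s j) m)
      have h9 := hgg.1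
      have h10 := hgood.1
      linarith
    linarith
  · exact pow_le_pow_left₀ (by positivity) (by linarith) 2

end Dat

end JTree
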