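import Pool.Agent.Work.MP_245e03_an.Q2Sys
import Pool.Agent.Work.MP_245e03_an.Embed

/-!
# Upper and lower estimates, and the embedding obtained from a system.
-/

open scoped BigOperators
open Finset

namespace JTree

namespace Sys

variable (S : Sys) {ι : Type*} {s : Finset ι} {a q : ι → ℕ}

lemma sum_tail_sq_le (A : (Σ _ : ι, ℕ) → Set Node) (I : Finset (Σ _ : ι, ℕ))
    (hA : ∀ z ∈ I, IsSeg (A z)) (hd : ∀ z ∈ I, ∀ z' ∈ I, z ≠ z' → Disjoint (A z) (A z'))
    (x : JFin Node) : ∑ z ∈ I, (sumOn (A z) x) ^ 2 ≤ ‖x‖ ^ 2 :=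
  sum_sumOn_sq_le I A hA hd x

/-- The estimate for the main parts. -/
lemma sum_gseg_sq_le (h : HFam s a q) (x : JFin Node) :
    ∑ i ∈ s, (S.gseg (a i) (q i) x) ^ 2 ≤ 12 * S.M ^ 2 * ‖x‖ ^ 2 := by
  classical
  set X1 : ι → ℕ → ℝ := fun i j =>
    sumOn (tail (S.t (q i) j) (S.m (a i - 1)) ∩ band (S.m (a i - 1)) (S.m (a i))) x with hX1
  set X2 : ι → ℕ → ℝ := fun i j => sumOn (tail (S.t (q i) j) (S.m (a i))) x with hX2
  set X3 : ι → ℕ → ℝ := fun i j => sumOn (tail (S.t (a i / 2) j) (S.m (a i - 1))) x with hX3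
  set I : Finset (Σ _ : ι, ℕ) := s.sigma (fun i => S.act (a i) (q i)) with hI
  have hmem : ∀ z, z ∈ I ↔ z.1 ∈ s ∧ z.2 ∈ S.act (a z.1) (q z.1) := by
    intro z; rw [hI, Finset.mem_sigma]
  -- the three square sums
  have s1 : ∑ z ∈ I, (X1 z.1 z.2) ^ 2 ≤ ‖x‖ ^ 2 := by
    refine sum_tail_sq_le (fun z => tail (S.t (q z.1) z.2) (S.m (a z.1 - 1)) ∩
      band (S.m (a z.1 - 1)) (S.m (a z.1))) I
      (fun z _ => (isSeg_tail _ _).inter (ordConnected_band _ _)) ?_ x
    intro z hz z' hz' hne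
    rw [hmem] at hz hz'
    exact S.disj1a h hz.1 hz'.1 hz.2 hz'.2 hne
  have s2 : ∑ z ∈ I, (X2 z.1 z.2) ^ 2 ≤ ‖x‖ ^ 2 := by
    refine sum_tail_sq_le (fun z => tail (S.t (q z.1) z.2) (S.m (a z.1))) I
      (fun z _ => isSeg_tail _ _) ?_ x
    intro z hz z' hz' hne
    rw [hmem] at hz hz'
    exact S.disj1b h hz.1 hz'.1 hz.2 hz'.2 hne
  have s3 : ∑ z ∈ I, (X3 z.1 z.2) ^ 2 ≤ 2 * ‖x‖ ^ 2 := by
    have hpar : ∀ r : ℕ, ∑ z ∈ I.filter (fun z => a z.1 % 2 = r), (X3 z.1 z.2) ^ 2 ≤ ‖x‖ ^ 2 := by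
      intro r
      refine sum_tail_sq_le (fun z => tail (S.t (a z.1 / 2) z.2) (S.m (a z.1 - 1))) _
        (fun z _ => isSeg_tail _ _) ?_ x
      intro z hz z' hz' hne
      rw [Finset.mem_filter, hmem] at hz hz'
      exact S.disj2 h hz.1.1 hz'.1.1 (by rw [hz.2, hz'.2]) hz.1.2 hz'.1.2 hne
    have hsplit : I = I.filter (fun z => a z.1 % 2 = 0) ∪ I.filter (fun z => a z.1 % 2 = 1) := by
      ext z
      simp only [Finset.mem_union, Finset.mem_filter]
      constructor
      · intro hz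
        rcases Nat.mod_two_eq_zero_or_one (a z.1) with h1 | h1
        · exact Or.inl ⟨hz, h1⟩
        · exact Or.inr ⟨hz, h1⟩
      · rintro (hz | hz)
        · exact hz.1
        · exact hz.1
    have hdis : Disjoint (I.filter (fun z => a z.1 % 2 = 0)) (I.filter (fun z => a z.1 % 2 = 1)) := by
      rw [Finset.disjoint_left]
      intro z hz hz'
      rw [Finset.mem_filter] at hz hz'
      omega
    rw [hsplit, Finset.sum_union hdis]
    linarith [hpar 0, hpar 1]
  -- pointwise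
  have hpt : ∀ i ∈ s, (S.gseg (a i) (q i) x) ^ 2 ≤
      S.M ^ 2 * ∑ j ∈ S.act (a i) (q i), 3 * ((X1 i j) ^ 2 + (X2 i j) ^ 2 + (X3 i j) ^ 2) := by
    intro i hi
    have hai := h.pos i hi
    have hval : S.gseg (a i) (q i) x = ∑ j ∈ S.act (a i) (q i), S.c (a i / 2) j *
        (X1 i j + X2 i j - X3 i j) := by
      unfold gseg
      rw [_root_.sum_apply]
      refine Finset.sum_congr rfl fun j _ => ?_
      rw [_root_.smul_apply, _root_.sub_apply, tb_apply, tb_apply,
        smul_eq_mul]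
      congr 2
      rw [hX1, hX2]
      rw [← sumOn_union]
      · congr 2
        have hmle : S.m (a i - 1) ≤ S.m (a i) := S.mmono.monotone (by omega)
        ext b
        simp only [Set.mem_union, Set.mem_inter_iff, mem_tail, mem_band]
        constructor
        · rintro ⟨h1, h2⟩
          rcases lt_or_ge b.len (S.m (a i)) with h3 | h3
          · exact Or.inl ⟨⟨h1, h2⟩, h1, h3⟩
          · exact Or.inr ⟨h3, h2⟩
        · rintro (⟨h1, _⟩ | ⟨h1, h2⟩)
          · exact h1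
          · exact ⟨hmle.trans h1, h2⟩
      · rw [Set.disjoint_left]
        rintro b ⟨_, _, h1⟩ ⟨h2, _⟩
        omega
    rw [hval]
    refine (Finset.sum_mul_sq_le_sq_mul_sq _ _ _).trans ?_
    refine mul_le_mul (S.csum _ _) (Finset.sum_le_sum fun j _ => ?_)
      (Finset.sum_nonneg fun j _ => sq_nonneg _) (sq_nonneg _)
    nlinarith [sq_nonneg (X1 i j - X2 i j), sq_nonneg (X1 i j + X3 i j), sq_nonneg (X2 i j + X3 i j)]
  refine (Finset.sum_le_sum hpt).trans ?_
  rw [← Finset.mul_sum]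
  have hsig : ∑ i ∈ s, ∑ j ∈ S.act (a i) (q i), 3 * ((X1 i j) ^ 2 + (X2 i j) ^ 2 + (X3 i j) ^ 2)
      = ∑ z ∈ I, 3 * ((X1 z.1 z.2) ^ 2 + (X2 z.1 z.2) ^ 2 + (X3 z.1 z.2) ^ 2) := by
    rw [hI, Finset.sum_sigma]
  have htot : ∑ i ∈ s, ∑ j ∈ S.act (a i) (q i), 3 * ((X1 i j) ^ 2 + (X2 i j) ^ 2 + (X3 i j) ^ 2)
      ≤ 12 * ‖x‖ ^ 2 := by
    rw [hsig, ← Finset.mul_sum, Finset.sum_add_distrib, Finset.sum_add_distrib]
    linarith
  have hM := sq_nonneg S.M
  nlinarith

lemma eta_nonneg (n : ℕ) : 0 ≤ eta n := by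
  unfold eta
  have := eps_pos (n - 1)
  have := eps_pos (n / 2 - 1)
  positivity

lemma eta_le (n : ℕ) (hn : 1 ≤ n) : eta n ≤ 5 / 16 * (1 / 2) ^ n := by
  have h1 : eps (n - 1) ≤ 1 / 16 * (1 / 2) ^ n := by
    obtain ⟨p, rfl⟩ : ∃ p, n = p + 1 := ⟨n - 1, by omega⟩
    unfold eps
    rw [Nat.add_sub_cancel, pow_succ]
    have h0 : ((1 : ℝ) / 4) ^ p ≤ (1 / 2) ^ p := pow_le_pow_left₀ (by norm_num) (by norm_num) p
    have h00 : (0 : ℝ) < (1 / 2) ^ p := by positivity
    linarith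
  have h2 : eps (n / 2 - 1) ≤ 1 / 8 * (1 / 2) ^ n := by
    unfold eps
    rcases Nat.lt_or_ge n 2 with h3 | h3
    · have : n = 1 := by omega
      subst this
      norm_num
    · set p := n / 2 - 1 with hp
      have hle : n ≤ 2 * p + 3 := by omega
      have h4 : ((1 : ℝ) / 4) ^ p = (1 / 2) ^ (2 * p) := by
        rw [pow_mul]; norm_num
      have h5 : ((1 : ℝ) / 2) ^ (2 * p + 3) ≤ (1 / 2) ^ n :=
        pow_le_pow_of_le_one (by norm_num) (by norm_num) hle
      rw [pow_add] at h5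
      rw [h4]
      linarith
  unfold eta
  linarith

/-- Sum over distinct positive integers. -/
lemma sum_half_pow_le {κ : Type*} (F : Finset κ) (f : κ → ℕ) (hf : Set.InjOn f F)
    (hpos : ∀ i ∈ F, 1 ≤ f i) : ∑ i ∈ F, ((1 : ℝ) / 2) ^ (f i) ≤ 1 := by
  classical
  have h1 : ∑ i ∈ F, ((1 : ℝ) / 2) ^ (f i) = ∑ n ∈ F.image f, ((1 : ℝ) / 2) ^ n :=
    (Finset.sum_image (fun x hx y hy h => hf hx hy h)).symm
  rw [h1]
  have hsub : F.image f ⊆ (Finset.range ((F.image f).sup id)).image (· + 1) := by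
    intro n hn
    have h2 : n ≤ (F.image f).sup id := Finset.le_sup (f := id) hn
    have h3 : 1 ≤ n := by
      obtain ⟨i, hi, rfl⟩ := Finset.mem_image.mp hn
      exact hpos i hi
    exact Finset.mem_image.mpr ⟨n - 1, Finset.mem_range.mpr (by omega), by omega⟩
  refine (Finset.sum_le_sum_of_subset_of_nonneg hsub fun _ _ _ => by positivity).trans ?_
  rw [Finset.sum_image (fun x _ y _ h => by simpa using h)]
  have h4 : ∀ N : ℕ, ∑ n ∈ Finset.range N, ((1 : ℝ) / 2) ^ (n + 1) = 1 - (1 / 2) ^ N := by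
    intro N
    induction N with
    | zero => simp
    | succ N ih => rw [Finset.sum_range_succ, ih]; ring
  rw [h4]
  have : (0 : ℝ) ≤ (1 / 2) ^ ((F.image f).sup id) := by positivity
  linarith

/-- Upper estimate for heap families. -/
lemma upper_heap (h : HFam s a q) (x : JFin Node) :
    ∑ i ∈ s, ((S.y (q i) - S.y (a i / 2)) x) ^ 2 ≤ (24 * S.M ^ 2 + 2) * ‖x‖ ^ 2 := by
  have hpt : ∀ i ∈ s, ((S.y (q i) - S.y (a i / 2)) x) ^ 2
      ≤ 2 * (S.gseg (a i) (q i) x) ^ 2 + 2 * ((1 / 2) ^ (a i) * ‖x‖ ^ 2) := by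
    intro i hi
    have he := S.seg_err (h.seg i hi) (h.pos i hi)
    have he1 : |(S.y (q i) - S.y (a i / 2) - S.gseg (a i) (q i)) x| ≤ eta (a i) * ‖x‖ := by
      rw [← Real.norm_eq_abs]
      exact (ContinuousLinearMap.le_opNorm _ _).trans (by gcongr)
    set E := (S.y (q i) - S.y (a i / 2) - S.gseg (a i) (q i)) x with hE
    have hv : (S.y (q i) - S.y (a i / 2)) x = S.gseg (a i) (q i) x + E := by
      rw [hE, _root_.sub_apply (S.y (q i) - S.y (a i / 2))]; ring
    have he2 : E ^ 2 ≤ (1 / 2) ^ (a i) * ‖x‖ ^ 2 := by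
      have h1 : E ^ 2 ≤ (eta (a i) * ‖x‖) ^ 2 := by
        rw [← sq_abs E]
        exact pow_le_pow_left₀ (abs_nonneg _) he1 2
      have h2 := eta_le (a i) (h.pos i hi)
      have h3 := eta_nonneg (a i)
      have h4 : ((1 : ℝ) / 2) ^ (a i) ≤ 1 := pow_le_one₀ (by norm_num) (by norm_num)
      have h5 : (0 : ℝ) < (1 / 2) ^ (a i) := by positivity
      have h6 : eta (a i) ^ 2 ≤ (1 / 2) ^ (a i) := by nlinarith
      rw [mul_pow] at h1
      have h7 := sq_nonneg ‖x‖
      nlinarith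
    rw [hv]
    nlinarith [sq_nonneg (S.gseg (a i) (q i) x - E)]
  refine (Finset.sum_le_sum hpt).trans ?_
  rw [Finset.sum_add_distrib, ← Finset.mul_sum, ← Finset.mul_sum, ← Finset.sum_mul]
  have h1 := S.sum_gseg_sq_le h x
  have h2 := sum_half_pow_le s a (fun i hi i' hi' hii => by
    by_contra hne
    exact h.a_ne hi hi' hne hii) h.pos
  have h3 := sq_nonneg ‖x‖
  nlinarith

lemma isAnc_exists {o : ℕ} {t : Node} (h : IsAnc o (heap t)) (ho : 1 ≤ o) :
    ∃ t' : Node, heap t' = o ∧ t' ≤ t := by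
  have key : ∀ n : ℕ, ∀ t : Node, heap t = n → IsAnc o (heap t) → ∃ t' : Node, heap t' = o := by
    intro n
    induction n using Nat.strong_induction_on with
    | _ n ih =>
      intro t ht h
      rcases eq_or_ne o (heap t) with h1 | h1
      · exact ⟨t, h1.symm⟩
      · have hlt := lt_of_le_of_ne h.1 h1
        obtain ⟨t', ht'⟩ := exists_parent t (by omega)
        refine ih (heap t') (by omega) t' rfl ?_
        rw [ht']
        exact h.half hlt
  obtain ⟨t', ht'⟩ := key _ t rfl h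
  refine ⟨t', ht', ?_⟩
  rw [← isAnc_heap_iff, ht']
  exact h

lemma hfam_of_isFam {P : Finset (Node × Node)} (hP : IsFam P) :
    HFam P (fun p => heap p.1) (fun p => heap p.2) where
  pos := fun p _ => heap_pos _
  seg := fun p hp => isAnc_heap_iff.mpr (hP.1 p hp)
  disj := by
    intro p hp p' hp' hne o h1 h2 h3 h4
    obtain ⟨t, ht, htle⟩ := isAnc_exists h2 ((heap_pos _).trans h1.1)
    subst ht
    exact Set.disjoint_left.mp (hP.2 p hp p' hp' hne)
      ⟨isAnc_heap_iff.mp h1, isAnc_heap_iff.mp h2⟩ ⟨isAnc_heap_iff.mp h3, isAnc_heap_iff.mp h4⟩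

/-! ### Lower estimate -/

/-- The biorthogonal nodes. -/
noncomputable def nu (n : ℕ) : Node := res (S.t n 0) (S.m n)

lemma newness0 {o i j' : ℕ} (ho : 1 ≤ o) (hi : i < o) (hj' : j' < S.k (o - 1)) :
    S.t o 0 ≠ S.t i j' :=
  S.newness ho (S.kpos _) (S.new0 o ho) hi hj'

lemma nu_le_iff (p r : ℕ) : S.nu p ≤ S.nu r ↔ IsAnc p r := by
  constructor
  · intro h
    unfold nu at h
    rw [le_res_iff] at h
    obtain ⟨h1, h2⟩ := h
    rw [len_res] at h1 h2
    have hpr : p ≤ r := S.mmono.le_iff_le.mp h1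
    refine ⟨hpr, ?_⟩
    rw [S.near1' p r 0 (S.kpos p)] at h2
    have h3 := S.sep p p (anc p r) 0 0 (le_refl _) (anc_le _ _) (S.kpos p) (S.kpos p) h2
    by_contra hne
    have hlt : anc p r < p := lt_of_le_of_ne (anc_le _ _) hne
    exact S.newness0 (by omega) hlt (S.kpos _) h3
  · intro h
    unfold nu
    rw [le_res_iff, len_res]
    refine ⟨S.mmono.monotone h.1, ?_⟩
    have h1 := S.near1' p r 0 (S.kpos p)
    rw [h.2] at h1
    exact h1.symm

open Classical in
lemma tb_e (σ : ℕ → Bool) (m : ℕ) (τ : ℕ → Bool) (l : ℕ) :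
    tb σ m (e (res τ l)) = if m ≤ l ∧ res τ l = res σ l then 1 else 0 := by
  rw [tb_apply, sumOn_e]
  by_cases h : res τ l ∈ tail σ m
  · rw [if_pos h, if_pos (res_mem_tail.mp h)]
  · rw [if_neg h, if_neg (fun h' => h (res_mem_tail.mpr h'))]

lemma gseg_nu_self {n : ℕ} (hn : 1 ≤ n) : S.gseg n n (e (S.nu n)) = 1 := by
  classical
  unfold gseg nu
  rw [_root_.sum_apply]
  have hmem0 : 0 ∈ S.act n n := S.mem_act.mpr ⟨S.kpos _, S.new0 n hn⟩
  have hmm : S.m (n - 1) ≤ S.m n := S.mmono.monotone (by omega)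
  have hkk : S.k (n - 1) ≤ S.k n := S.kmono (by omega)
  have hsecond : ∀ j ∈ S.act n n, tb (S.t (n / 2) j) (S.m (n - 1)) (e (res (S.t n 0) (S.m n))) = 0 := by
    intro j hj
    have hjl := S.act_lt hn hj
    rw [tb_e, if_neg]
    rintro ⟨_, h2⟩
    have h3 := S.sep n n (n / 2) 0 j (le_refl _) (by omega) (S.kpos n)
      (lt_of_lt_of_le hjl hkk) h2
    exact S.newness0 hn (by omega) hjl h3
  rw [Finset.sum_eq_single_of_mem 0 hmem0]
  · rw [_root_.smul_apply, _root_.sub_apply, hsecond 0 hmem0, tb_e,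
      if_pos ⟨hmm, rfl⟩, S.c0]
    simp
  · intro j hj hj0
    have hjl := S.act_lt hn hj
    rw [_root_.smul_apply, _root_.sub_apply, hsecond j hj, tb_e, if_neg]
    · simp
    · rintro ⟨_, h2⟩
      exact hj0 (S.sep_self n n 0 j (S.kpos n) (lt_of_lt_of_le hjl hkk) h2).symm

lemma gseg_nu_ne {n p : ℕ} (hn : 1 ≤ n) (hp : 1 ≤ p) (hne : p ≠ n) :
    S.gseg n n (e (S.nu p)) = 0 := by
  classical
  unfold gseg nu
  rw [_root_.sum_apply]
  refine Finset.sum_eq_zero fun j hj => ?_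
  have hjl := S.act_lt hn hj
  rw [_root_.smul_apply, _root_.sub_apply, tb_e, tb_e]
  rcases lt_or_gt_of_ne hne with h | h
  · -- `p < n`
    have hmle : S.m p ≤ S.m (n - 1) := S.mmono.monotone (by omega)
    have hiff : (S.m (n - 1) ≤ S.m p ∧ res (S.t p 0) (S.m p) = res (S.t n j) (S.m p)) ↔
        (S.m (n - 1) ≤ S.m p ∧ res (S.t p 0) (S.m p) = res (S.t (n / 2) j) (S.m p)) := by
      constructor
      · rintro ⟨h1, h2⟩
        have h3 : S.m p = S.m (n - 1) := le_antisymm hmle h1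
        have h4 := S.near1 (n - 1) n j (by omega) hjl
        rw [anc_pred hn, ← h3] at h4
        exact ⟨h1, by rw [h2, h4]⟩
      · rintro ⟨h1, h2⟩
        have h3 : S.m p = S.m (n - 1) := le_antisymm hmle h1
        have h4 := S.near1 (n - 1) n j (by omega) hjl
        rw [anc_pred hn, ← h3] at h4
        exact ⟨h1, by rw [h2, h4]⟩
    by_cases hc : (S.m (n - 1) ≤ S.m p ∧ res (S.t p 0) (S.m p) = res (S.t n j) (S.m p))
    · rw [if_pos hc, if_pos (hiff.mp hc)]; simp
    · rw [if_neg hc, if_neg (fun h' => hc (hiff.mpr h'))]; simp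
  · -- `n < p`
    have hjp : j < S.k (p - 1) := lt_of_lt_of_le hjl (S.kmono (by omega))
    have hjp' : j < S.k p := lt_of_lt_of_le hjl (S.kmono (by omega))
    rw [if_neg, if_neg]
    · simp
    · rintro ⟨_, h2⟩
      exact S.newness0 hp (show n / 2 < p by omega) hjp
        (S.sep p p (n / 2) 0 j (le_refl _) (by omega) (S.kpos p) hjp' h2)
    · rintro ⟨_, h2⟩
      exact S.newness0 hp h hjp (S.sep p p n 0 j (le_refl _) (by omega) (S.kpos p) hjp' h2)

/-- The embedding obtained from a system. -/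
theorem exists_embedding (Y : Submodule ℝ (StrongDual ℝ (JFin Node)))
    (hY : IsClosed (Y : Set (StrongDual ℝ (JFin Node)))) (hyY : ∀ n, S.y n ∈ Y) :
    ∃ T : BSpace Node →L[ℝ] StrongDual ℝ (JFin Node), (∃ c > 0, ∀ f, c * ‖f‖ ≤ ‖T f‖) ∧
      ∀ f, T f ∈ Y := by
  classical
  set u : Node → StrongDual ℝ (JFin Node) := fun t => S.y (heap t) - S.y (heap t / 2) with hu
  set w : Node → StrongDual ℝ (JFin Node) := fun t => S.gseg (heap t) (heap t) with hw
  set V : Node → Node → StrongDual ℝ (JFin Node) := fun α γ => S.y (heap γ) - S.y (heap α / 2)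
    with hV
  have h0 : ∀ n : ℕ, ∀ α γ : Node, heap γ = n → α ≤ γ → ∀ F : Finset Node,
      (∀ t, t ∈ F ↔ α ≤ t ∧ t ≤ γ) → ∑ t ∈ F, u t = V α γ := by
    intro n
    induction n using Nat.strong_induction_on with
    | _ n ih =>
      intro α γ hγ hle F hF
      rcases eq_or_ne α γ with h1 | h1
      · subst h1
        have : F = {α} := by
          ext t
          rw [hF, Finset.mem_singleton]
          exact ⟨fun h => le_antisymm h.2 h.1, fun h => by rw [h]; exact ⟨le_refl _, le_refl _⟩⟩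
        rw [this, Finset.sum_singleton]
      · have hanc : IsAnc (heap α) (heap γ) := isAnc_heap_iff.mpr hle
        have hlt : heap α < heap γ := lt_of_le_of_ne hanc.1 (fun h => h1 (heap_injective h))
        have hα1 := heap_pos α
        obtain ⟨γ', hγ'⟩ := exists_parent γ (by omega)
        have hle' : α ≤ γ' := by
          rw [← isAnc_heap_iff, hγ']; exact hanc.half hlt
        have hγγ : γ' ≤ γ := by
          rw [← isAnc_heap_iff, hγ']; exact isAnc_half _
        have hlt' : heap γ' < heap γ := by omega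
        have hF' : ∀ t, t ∈ F.erase γ ↔ α ≤ t ∧ t ≤ γ' := by
          intro t
          rw [Finset.mem_erase, hF]
          constructor
          · rintro ⟨h2, h3, h4⟩
            refine ⟨h3, ?_⟩
            rw [← isAnc_heap_iff, hγ']
            have h5 : IsAnc (heap t) (heap γ) := isAnc_heap_iff.mpr h4
            exact h5.half (lt_of_le_of_ne h5.1 (fun h => h2 (heap_injective h)))
          · rintro ⟨h2, h3⟩
            refine ⟨?_, h2, h3.trans hγγ⟩
            rintro rfl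
            have := heap_mono h3
            omega
        have h6 := ih (heap γ') (by omega) α γ' rfl hle' (F.erase γ) hF'
        have hmem : γ ∈ F := (hF γ).mpr ⟨hle, le_refl _⟩
        rw [← Finset.add_sum_erase F u hmem, h6]
        simp only [hu, hV, hγ']
        abel
  obtain ⟨T, hT1, hT2⟩ := embed_criterion (T := Node) (T' := Node) heap heap_injective heap_mono
    u w V (fun t => S.nu (heap t)) (fun s t => by rw [nu_le_iff, isAnc_heap_iff]) 1 one_ne_zero
    (Real.sqrt (24 * S.M ^ 2 + 2)) (fun α γ h F hF => h0 _ α γ rfl h F hF)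
    (fun s t => ⟨S.gseg_nu_self (heap_pos t), fun hst =>
      S.gseg_nu_ne (heap_pos t) (heap_pos s) (fun h => hst (heap_injective h))⟩)
    (by
      intro F
      have h1 : ∀ t ∈ F, ‖u t - w t‖ ≤ 5 / 16 * (1 / 2) ^ (heap t) := fun t _ =>
        (S.seg_err (isAnc_refl _) (heap_pos t)).trans (eta_le _ (heap_pos t))
      refine (Finset.sum_le_sum h1).trans ?_
      rw [← Finset.mul_sum]
      have h2 := sum_half_pow_le F heap (heap_injective.injOn) (fun t _ => heap_pos t)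
      rw [abs_one]
      linarith)
    (by
      intro P hP x
      rw [Real.sq_sqrt (by positivity)]
      exact S.upper_heap (hfam_of_isFam hP) x)
  refine ⟨T, hT1, fun f => ?_⟩
  have h3 : (Submodule.span ℝ (Set.range u)).topologicalClosure ≤ Y := by
    apply Submodule.topologicalClosure_minimal _ _ hY
    rw [Submodule.span_le]
    rintro _ ⟨t, rfl⟩
    exact Y.sub_mem (hyY _) (hyY _)
  exact h3 (hT2 f)

end Sys

end JTree
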