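import Pool.Agent.Work.MP_245e03_an.Tree

/-!
# Heap indexing of the dyadic tree.
-/

namespace JTree

/-- The last ancestor `≤ n` of `q` in the binary heap. -/
def anc (n q : ℕ) : ℕ := if q ≤ n then q else anc n (q / 2)
termination_by q
decreasing_by omega

lemma anc_of_le {n q : ℕ} (h : q ≤ n) : anc n q = q := by
  rw [anc, if_pos h]

lemma anc_of_lt {n q : ℕ} (h : n < q) : anc n q = anc n (q / 2) := by
  rw [anc, if_neg (not_le.mpr h)]

lemma anc_le (n q : ℕ) : anc n q ≤ n := by
  induction q using Nat.strong_induction_on with
  | _ q ih =>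
    rcases le_or_gt q n with h | h
    · rw [anc_of_le h]; exact h
    · rw [anc_of_lt h]; exact ih _ (by omega)

lemma anc_anc {n m : ℕ} (hnm : n ≤ m) (q : ℕ) : anc n (anc m q) = anc n q := by
  induction q using Nat.strong_induction_on with
  | _ q ih =>
    rcases le_or_gt q m with h | h
    · rw [anc_of_le h]
    · rw [anc_of_lt h, ih _ (by omega), ← anc_of_lt (lt_of_le_of_lt hnm h)]

lemma anc_pred {q : ℕ} (hq : 1 ≤ q) : anc (q - 1) q = q / 2 := by
  rw [anc_of_lt (by omega), anc_of_le (by omega)]

/-- Heap ancestor relation. -/
def IsAnc (a q : ℕ) : Prop := a ≤ q ∧ anc a q = a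

lemma isAnc_refl (a : ℕ) : IsAnc a a := ⟨le_refl _, anc_of_le (le_refl _)⟩

lemma IsAnc.trans {a b c : ℕ} (h1 : IsAnc a b) (h2 : IsAnc b c) : IsAnc a c := by
  refine ⟨h1.1.trans h2.1, ?_⟩
  rw [← anc_anc h1.1 c, h2.2, h1.2]

/-- If `a` is an ancestor of `q` and `a ≤ n` then `a` is an ancestor of `anc n q`. -/
lemma IsAnc.anc_right {a n q : ℕ} (h : IsAnc a q) (hn : a ≤ n) : IsAnc a (anc n q) := by
  constructor
  · induction q using Nat.strong_induction_on with
    | _ q ih =>
      rcases le_or_gt q n with h' | h'
      · rw [anc_of_le h']; exact h.1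
      · rw [anc_of_lt h']
        have haq : a < q := lt_of_le_of_lt hn h'
        have h2 : anc a (q / 2) = a := by rw [← anc_of_lt haq]; exact h.2
        refine ih _ (by omega) ⟨?_, h2⟩
        by_contra hcon
        rw [anc_of_le (by omega)] at h2
        omega
  · rw [anc_anc hn, h.2]

/-- `anc n q` is an ancestor of `q`. -/
lemma isAnc_anc (n q : ℕ) (h : anc n q ≤ q) : IsAnc (anc n q) q := by
  refine ⟨h, ?_⟩
  rw [← anc_anc (anc_le n q) q, anc_of_le (le_refl _)]

lemma anc_le_self (n q : ℕ) : anc n q ≤ q := by
  induction q using Nat.strong_induction_on with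
  | _ q ih =>
    rcases le_or_gt q n with h | h
    · rw [anc_of_le h]
    · rw [anc_of_lt h]; exact (ih _ (by omega)).trans (by omega)

lemma isAnc_anc' (n q : ℕ) : IsAnc (anc n q) q := isAnc_anc n q (anc_le_self n q)

/-- below a node `a ≥ 1`, the last ancestor `≤ a - 1` is the parent of `a`. -/
lemma IsAnc.anc_pred {a q : ℕ} (h : IsAnc a q) (ha : 1 ≤ a) : anc (a - 1) q = a / 2 := by
  rw [← anc_anc (show a - 1 ≤ a by omega) q, h.2, JTree.anc_pred ha]

lemma IsAnc.half {a q : ℕ} (h : IsAnc a q) (hlt : a < q) : IsAnc a (q / 2) := by
  have h2 : anc a (q / 2) = a := by rw [← anc_of_lt hlt]; exact h.2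
  refine ⟨?_, h2⟩
  by_contra hcon
  rw [anc_of_le (by omega)] at h2
  omega

lemma isAnc_half (q : ℕ) : IsAnc (q / 2) q := by
  refine ⟨by omega, ?_⟩
  rcases Nat.eq_zero_or_pos q with h | h
  · subst h; exact anc_of_le (le_refl _)
  · rw [anc_of_lt (by omega), anc_of_le (le_refl _)]

/-- The ancestors of a number form a chain. -/
lemma IsAnc.comp {a b q : ℕ} (ha : IsAnc a q) (hb : IsAnc b q) (hab : a ≤ b) : IsAnc a b := by
  refine ⟨hab, ?_⟩
  have := anc_anc hab q
  rw [hb.2, ha.2] at this
  exact this

/-! ### the index of a node -/

/-- Heap index of a list. -/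
def heapList : List Bool → ℕ := List.foldl (fun a b => 2 * a + b.toNat) 1

/-- Heap index of a node. -/
def heap (t : Node) : ℕ := heapList (show List Bool from t)

lemma heapList_append (l : List Bool) (b : Bool) : heapList (l ++ [b]) = 2 * heapList l + b.toNat := by
  unfold heapList
  rw [List.foldl_append]
  rfl

lemma heapList_nil : heapList [] = 1 := rfl

lemma heapList_pos (l : List Bool) : 1 ≤ heapList l := by
  induction l using List.reverseRecOn with
  | nil => exact le_refl _
  | append_singleton l b ih => rw [heapList_append]; omega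

lemma heap_pos (t : Node) : 1 ≤ heap t := heapList_pos _

lemma toNat_lt (b : Bool) : b.toNat < 2 := Bool.toNat_lt b

lemma heapList_half (l : List Bool) (b : Bool) : heapList (l ++ [b]) / 2 = heapList l := by
  rw [heapList_append]
  have := toNat_lt b
  omega

lemma heapList_injective : Function.Injective heapList := by
  intro l
  induction l using List.reverseRecOn with
  | nil =>
    intro l' h
    rcases List.eq_nil_or_concat l' with h' | ⟨L, b, h'⟩
    · exact h'.symm
    · subst h'
      rw [List.concat_eq_append, heapList_append, heapList_nil] at h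
      have := heapList_pos L
      omega
  | append_singleton l b ih =>
    intro l' h
    rcases List.eq_nil_or_concat l' with h' | ⟨L, b', h'⟩
    · subst h'
      rw [heapList_append, heapList_nil] at h
      have := heapList_pos l
      omega
    · subst h'
      rw [List.concat_eq_append] at h ⊢
      have h1 : heapList l = heapList L := by
        rw [← heapList_half l b, ← heapList_half L b', h]
      have h2 := ih h1
      subst h2
      rw [heapList_append, heapList_append] at h
      have h3 : b.toNat = b'.toNat := by omega
      have h4 : b = b' := by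
        cases b <;> cases b' <;> simp_all
      rw [h4]

lemma heap_injective : Function.Injective heap := heapList_injective

lemma isAnc_of_isPrefix {l l' : List Bool} (h : List.IsPrefix l l') :
    IsAnc (heapList l) (heapList l') := by
  obtain ⟨L, rfl⟩ := h
  induction L using List.reverseRecOn with
  | nil => rw [List.append_nil]; exact isAnc_refl _
  | append_singleton L b ih =>
    rw [← List.append_assoc]
    refine ih.trans ?_
    have := isAnc_half (heapList (l ++ L ++ [b]))
    rwa [heapList_half] at this

lemma isPrefix_of_isAnc {l l' : List Bool} (h : IsAnc (heapList l) (heapList l')) :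
    List.IsPrefix l l' := by
  induction l' using List.reverseRecOn with
  | nil =>
    have h1 := h.1
    rw [heapList_nil] at h1
    have h2 := heapList_pos l
    have h3 : heapList l = heapList [] := by rw [heapList_nil]; omega
    rw [heapList_injective h3]
  | append_singleton L b ih =>
    rcases eq_or_ne (heapList l) (heapList (L ++ [b])) with h1 | h1
    · rw [heapList_injective h1]
    · have h2 := h.half (lt_of_le_of_ne h.1 h1)
      rw [heapList_half] at h2
      exact (ih h2).trans (List.prefix_append _ _)

lemma isAnc_heap_iff {s t : Node} : IsAnc (heap s) (heap t) ↔ s ≤ t :=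
  ⟨fun h => isPrefix_of_isAnc h, fun h => isAnc_of_isPrefix h⟩

lemma heap_mono : Monotone heap := fun _ _ h => (isAnc_heap_iff.mpr h).1

/-- A node which is not the root has a parent. -/
lemma exists_parent (t : Node) (ht : heap t ≠ 1) : ∃ t' : Node, heap t' = heap t / 2 := by
  rcases List.eq_nil_or_concat (show List Bool from t) with h | ⟨L, b, h⟩
  · exact absurd (show heapList (show List Bool from t) = 1 by rw [h]; rfl) ht
  · refine ⟨L, ?_⟩
    show heapList L = heapList (show List Bool from t) / 2
    rw [h, List.concat_eq_append, heapList_half]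

end JTree
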