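import Pool.Agent.Work.MP_245e03_an.Q2Cond
import Pool.Agent.Work.MP_245e03_an.Q2Est

/-!
# The recursion for Q2 and the core theorem.
-/

open scoped BigOperators
open Finset

namespace JTree

namespace Dat

variable {Y : Submodule ℝ (StrongDual ℝ (JFin Node))} (D : Dat Y)

/-- States of the recursion. -/
structure St where
  s : ℕ → Br
  A : ℕ → Set Br
  k : ℕ
  m : ℕ

/-- The invariant. -/
structure Inv (n : ℕ) (st : St) : Prop where
  mem : ∀ i ≤ n, st.s i ∈ D.Sg
  cond : ∀ i ≤ n, D.Cond (st.s i) (st.A i)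
  sub : ∀ i ≤ n, st.A i ⊆ D.Sg
  nset : ∀ i ≤ n, st.A i ⊆ D.Nset (st.s i) (eps n) st.k st.m
  split : ∀ i ≤ n, ∀ j < st.k, (∀ g ∈ st.A i, D.τ g j = D.τ (st.s i) j) ∨
    (∀ g ∈ st.A i, D.τ g j ≠ D.τ (st.s i) j)
  tail : ∀ i ≤ n, ∀ J : Finset ℕ, (∀ j ∈ J, st.k ≤ j) → ∑ j ∈ J, D.c (st.s i) j ^ 2 ≤ eps n ^ 2
  sep : ∀ i i' j j', i ≤ n → i' ≤ n → j < st.k → j' < st.k →
    res (D.τ (st.s i) j) st.m = res (D.τ (st.s i') j') st.m → D.τ (st.s i) j = D.τ (st.s i') j'
  kpos : 1 ≤ st.k

lemma exists_refine (n : ℕ) (s : ℕ → Br) (B : ℕ → Set Br) (k0 m0 : ℕ)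
    (hs : ∀ i ≤ n, s i ∈ D.Sg) (hc : ∀ i ≤ n, D.Cond (s i) (B i)) (hB : ∀ i ≤ n, B i ⊆ D.Sg) :
    ∃ st : St, st.s = s ∧ k0 ≤ st.k ∧ m0 < st.m ∧ (∀ i ≤ n, st.A i ⊆ B i) ∧ D.Inv n st := by
  classical
  choose K hK using fun i => D.exists_cell_subset (s i) (eps_pos n)
  set k := max (max k0 1) ((Finset.range (n + 1)).sup K) with hk
  have hKk : ∀ i ≤ n, K i ≤ k := fun i hi =>
    (Finset.le_sup (f := K) (Finset.mem_range.mpr (by omega))).trans (le_max_right _ _)
  have h1 : ∀ i, ∃ M0, i ≤ n → ∀ m, M0 ≤ m →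
      ∃ F : Finset Ix, D.cell (s i) F ⊆ D.Nset (s i) (eps n) k m := by
    intro i
    by_cases hi : i ≤ n
    · obtain ⟨M0, h⟩ := hK i k (hKk i hi)
      exact ⟨M0, fun _ => h⟩
    · exact ⟨0, fun h => absurd h hi⟩
  choose M0 hM0 using h1
  obtain ⟨ms, hms⟩ := exists_sep
    ((Finset.range (n + 1) ×ˢ Finset.range k).image (fun p => D.τ (s p.1) p.2))
  set m := max (max (m0 + 1) ms) ((Finset.range (n + 1)).sup M0) with hm
  have hMm : ∀ i ≤ n, M0 i ≤ m := fun i hi =>
    (Finset.le_sup (f := M0) (Finset.mem_range.mpr (by omega))).trans (le_max_right _ _)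
  have hmsm : ms ≤ m := (le_max_right _ _).trans (le_max_left _ _)
  have hm0 : m0 + 1 ≤ m := (le_max_left _ _).trans (le_max_left _ _)
  have h2 : ∀ i, ∃ A : Set Br, i ≤ n → A ⊆ B i ∧ D.Cond (s i) A ∧
      A ⊆ D.Nset (s i) (eps n) k m ∧ (∀ j < k, (∀ g ∈ A, D.τ g j = D.τ (s i) j) ∨
        (∀ g ∈ A, D.τ g j ≠ D.τ (s i) j)) ∧ s i ∈ D.Nset (s i) (eps n) k m := by
    intro i
    by_cases hi : i ≤ n
    · obtain ⟨F, hF⟩ := hM0 i hi m (hMm i hi)
      obtain ⟨A, hA1, hA2, hA3⟩ := D.exists_split (Cond.inter_cell D (hc i hi) F) k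
      exact ⟨A, fun _ => ⟨hA1.trans Set.inter_subset_left, hA2,
        hA1.trans (Set.inter_subset_right.trans hF), hA3, hF (D.mem_cell_self _ _)⟩⟩
    · exact ⟨∅, fun h => absurd h hi⟩
  choose A hA using h2
  refine ⟨⟨s, A, k, m⟩, rfl, (le_max_left _ _).trans (le_max_left _ _), hm0,
    fun i hi => (hA i hi).1, ?_⟩
  exact {
    mem := hs
    cond := fun i hi => (hA i hi).2.1
    sub := fun i hi => (hA i hi).1.trans (hB i hi)
    nset := fun i hi => (hA i hi).2.2.1
    split := fun i hi => (hA i hi).2.2.2.1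
    tail := fun i hi => (hA i hi).2.2.2.2.2.2
    sep := by
      intro i i' j j' hi hi' hj hj' h
      refine hms m hmsm _ ?_ _ ?_ h
      · exact Finset.mem_image.mpr ⟨(i, j), Finset.mem_product.mpr
          ⟨Finset.mem_range.mpr (by omega), Finset.mem_range.mpr hj⟩, rfl⟩
      · exact Finset.mem_image.mpr ⟨(i', j'), Finset.mem_product.mpr
          ⟨Finset.mem_range.mpr (by omega), Finset.mem_range.mpr hj'⟩, rfl⟩
    kpos := (le_max_right _ _).trans (le_max_left _ _) }

/-- The relation between consecutive states. -/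
structure Rel (n : ℕ) (st st' : St) : Prop where
  s_eq : ∀ i ≤ n, st'.s i = st.s i
  k_le : st.k ≤ st'.k
  m_lt : st.m < st'.m
  A_sub : ∀ i ≤ n + 1, st'.A i ⊆ st.A (anc n i)
  s_mem : st'.s (n + 1) ∈ st.A ((n + 1) / 2)
  s_ne : st'.s (n + 1) ≠ st.s ((n + 1) / 2)

lemma exists_step (n : ℕ) (st : St) (h : D.Inv n st) :
    ∃ st' : St, D.Inv (n + 1) st' ∧ Rel n st st' := by
  classical
  set p := (n + 1) / 2 with hp
  have hpn : p ≤ n := by omega
  obtain ⟨g, hg, hne, hcond⟩ := D.exists_cond (st.A p) (Cond.uncountable D (h.cond p hpn)) (st.s p)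
  set s' := Function.update st.s (n + 1) g with hs'
  set B := Function.update st.A (n + 1) (st.A p) with hB
  have hs1 : s' (n + 1) = g := Function.update_self _ _ _
  have hs2 : ∀ i ≤ n, s' i = st.s i := fun i hi => Function.update_of_ne (by omega) _ _
  have hB1 : B (n + 1) = st.A p := Function.update_self _ _ _
  have hB2 : ∀ i ≤ n, B i = st.A i := fun i hi => Function.update_of_ne (by omega) _ _
  have hcases : ∀ i ≤ n + 1, i ≤ n ∨ i = n + 1 := fun i hi => by omega
  obtain ⟨st', h1, h2, h3, h4, h5⟩ := D.exists_refine (n + 1) s' B st.k st.m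
    (by
      intro i hi
      rcases hcases i hi with h6 | h6
      · rw [hs2 i h6]; exact h.mem i h6
      · rw [h6, hs1]; exact h.sub p hpn hg)
    (by
      intro i hi
      rcases hcases i hi with h6 | h6
      · rw [hs2 i h6, hB2 i h6]; exact h.cond i h6
      · rw [h6, hs1, hB1]; exact hcond)
    (by
      intro i hi
      rcases hcases i hi with h6 | h6
      · rw [hB2 i h6]; exact h.sub i h6
      · rw [h6, hB1]; exact h.sub p hpn)
  refine ⟨st', h5, ?_⟩
  exact {
    s_eq := fun i hi => by rw [h1, hs2 i hi]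
    k_le := h2
    m_lt := h3
    A_sub := by
      intro i hi
      rcases hcases i hi with h6 | h6
      · rw [anc_of_le h6, ← hB2 i h6]; exact h4 i hi
      · subst h6
        have : anc n (n + 1) = p := anc_pred (q := n + 1) (by omega)
        rw [this, ← hB1]
        exact h4 _ (le_refl _)
    s_mem := by rw [h1, hs1]; exact hg
    s_ne := by rw [h1, hs1]; exact hne }

lemma exists_seq : ∃ seq : ℕ → St, (∀ n, D.Inv n (seq n)) ∧ ∀ n, Rel n (seq n) (seq (n + 1)) := by
  classical
  obtain ⟨g, hg, -, hcond⟩ := D.exists_cond D.Sg D.unc (fun _ => false)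
  obtain ⟨st0, -, -, -, -, h0⟩ := D.exists_refine 0 (fun _ => g) (fun _ => D.Sg) 0 0
    (fun _ _ => hg) (fun _ _ => hcond) (fun _ _ => le_refl _)
  choose next hnext using fun (n : ℕ) (p : {st : St // D.Inv n st}) => D.exists_step n p.1 p.2
  let seq : ∀ n, {st : St // D.Inv n st} := fun n => Nat.rec ⟨st0, h0⟩
    (fun n p => ⟨next n p, (hnext n p).1⟩) n
  exact ⟨fun n => (seq n).1, fun n => (seq n).2, fun n => (hnext n (seq n)).2⟩

include D in
lemma exists_sys : ∃ S : Sys, ∀ n, S.y n ∈ Y := by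
  obtain ⟨seq, hinv, hrel⟩ := D.exists_seq
  have hs : ∀ n i, i ≤ n → (seq n).s i = (seq i).s i := by
    intro n
    induction n with
    | zero => intro i hi; rw [Nat.le_zero.mp hi]
    | succ n ih =>
      intro i hi
      rcases Nat.le_succ_iff.mp hi with h | h
      · rw [(hrel n).s_eq i h, ih i h]
      · rw [h]
  have hA : ∀ d n q, n + 1 + d = q → (seq q).s q ∈ (seq n).A (anc n q) := by
    intro d
    induction d with
    | zero =>
      intro n q h
      have hq : q = n + 1 := by omega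
      subst hq
      have : anc n (n + 1) = (n + 1) / 2 := anc_pred (q := n + 1) (by omega)
      rw [this]
      exact (hrel n).s_mem
    | succ d ih =>
      intro n q h
      have h1 := ih (n + 1) q (by omega)
      have h2 := (hrel n).A_sub (anc (n + 1) q) (anc_le _ _) h1
      rwa [anc_anc (Nat.le_succ n)] at h2
  have hA' : ∀ n q, n < q → (seq q).s q ∈ (seq n).A (anc n q) := fun n q h =>
    hA (q - (n + 1)) n q (by omega)
  have hN : ∀ n q, n < q → (seq q).s q ∈
      D.Nset ((seq (anc n q)).s (anc n q)) (eps n) (seq n).k (seq n).m := by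
    intro n q h
    have := (hinv n).nset (anc n q) (anc_le _ _) (hA' n q h)
    rwa [hs n (anc n q) (anc_le _ _)] at this
  have hmem : ∀ q, (seq q).s q ∈ D.Sg := fun q => (hinv q).mem q (le_refl _)
  refine ⟨{
    t := fun q j => D.τ ((seq q).s q) j
    c := fun q j => D.c ((seq q).s q) j
    y := fun q => D.y ((seq q).s q)
    k := fun n => (seq n).k
    m := fun n => (seq n).m
    M := D.M
    inj := fun q => D.τinj _
    c0 := fun q => by
      show cf (D.y ((seq q).s q)) (D.τ ((seq q).s q) 0) = 1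
      rw [D.τ0]
      exact D.cfg _ (hmem q)
    csum := fun q J => (D.csum _ J).trans
      (pow_le_pow_left₀ (norm_nonneg _) (D.yM _ (hmem q)) 2)
    ctail := fun q J hJ => by
      rcases Nat.eq_zero_or_pos q with h | h
      · subst h
        exact (hinv 0).tail 0 (le_refl _) J hJ
      · exact (hN (q - 1) q (by omega)).2.2 J hJ
    kmono := monotone_nat_of_le_succ fun n => (hrel n).k_le
    kpos := fun n => (hinv n).kpos
    mmono := strictMono_nat_of_lt_succ fun n => (hrel n).m_lt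
    near1 := fun n q j h hj => (hN n q h).1 j hj
    near2 := fun n q h => (hN n q h).2.1
    sep := by
      intro n i i' j j' hi hi' hj hj' h
      have h1 := (hinv n).sep i i' j j' hi hi' hj hj'
      rw [hs n i hi, hs n i' hi'] at h1
      exact h1 h
    status := by
      intro n i j hi hj
      rcases (hinv n).split i hi j hj with h | h
      · left
        intro q hq hanc
        have h1 := h _ (hanc ▸ hA' n q hq)
        rwa [hs n i hi] at h1
      · right
        intro q hq hanc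
        have h1 := h _ (hanc ▸ hA' n q hq)
        rwa [hs n i hi] at h1
    new0 := by
      intro q hq h
      obtain ⟨n, rfl⟩ : ∃ n, q = n + 1 := ⟨q - 1, by omega⟩
      simp only [D.τ0] at h
      apply (hrel n).s_ne
      rw [h, hs n ((n + 1) / 2) (by omega)] }, fun n => D.yY _ (hmem n)⟩

end Dat

/-- **Core of Q2**: every closed non-separable subspace of the dual of the James tree space contains
an isomorphic copy of the space `B` built over the dyadic tree. -/
theorem Q2_core (Y : Submodule ℝ (StrongDual ℝ (JFin Node)))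
    (hY : IsClosed (Y : Set (StrongDual ℝ (JFin Node))))
    (hsep : ¬ TopologicalSpace.IsSeparable (Y : Set (StrongDual ℝ (JFin Node)))) :
    ∃ S : BSpace Node →L[ℝ] StrongDual ℝ (JFin Node),
      (∃ c > 0, ∀ f, c * ‖f‖ ≤ ‖S f‖) ∧ ∀ f, S f ∈ Y := by
  obtain ⟨D⟩ := exists_dat Y hsep
  obtain ⟨S, hS⟩ := D.exists_sys
  exact S.exists_embedding Y hY hS

end JTree
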