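import Pool.Agent.Work.MP_245e03_an.Q2Heap

/-!
# Combinatorial estimates for the tree system of Q2.
-/

open scoped BigOperators
open Finset

namespace JTree

/-- The error parameters. -/
noncomputable def eps (n : ℕ) : ℝ := 1 / 64 * (1 / 4) ^ n

lemma eps_pos (n : ℕ) : 0 < eps n := by unfold eps; positivity

/-- The output of the recursion. -/
structure Sys where
  t : ℕ → ℕ → ℕ → Bool
  c : ℕ → ℕ → ℝ
  y : ℕ → StrongDual ℝ (JFin Node)
  k : ℕ → ℕ
  m : ℕ → ℕ
  M : ℝ
  inj : ∀ q, Function.Injective (t q)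
  c0 : ∀ q, c q 0 = 1
  csum : ∀ q (J : Finset ℕ), ∑ j ∈ J, c q j ^ 2 ≤ M ^ 2
  ctail : ∀ q (J : Finset ℕ), (∀ j ∈ J, k (q - 1) ≤ j) → ∑ j ∈ J, c q j ^ 2 ≤ eps (q - 1) ^ 2
  kmono : Monotone k
  kpos : ∀ n, 1 ≤ k n
  mmono : StrictMono m
  near1 : ∀ n q j, n < q → j < k n → res (t q j) (m n) = res (t (anc n q) j) (m n)
  near2 : ∀ n q, n < q → ‖y q - y (anc n q) - ∑ j ∈ Finset.range (k n),
    c (anc n q) j • (tb (t q j) (m n) - tb (t (anc n q) j) (m n))‖ ≤ eps n
  sep : ∀ n i i' j j', i ≤ n → i' ≤ n → j < k n → j' < k n →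
    res (t i j) (m n) = res (t i' j') (m n) → t i j = t i' j'
  status : ∀ n i j, i ≤ n → j < k n → (∀ q, n < q → anc n q = i → t q j = t i j) ∨
    (∀ q, n < q → anc n q = i → t q j ≠ t i j)
  new0 : ∀ q, 1 ≤ q → t q 0 ≠ t (q / 2) 0

namespace Sys

variable (S : Sys)

/-- `near1` also for `q ≤ n`. -/
lemma near1' (n q j : ℕ) (hj : j < S.k n) :
    res (S.t q j) (S.m n) = res (S.t (anc n q) j) (S.m n) := by
  rcases le_or_gt q n with h | h
  · rw [anc_of_le h]
  · exact S.near1 n q j h hj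

/-- Separation along one node. -/
lemma sep_self (n q j j' : ℕ) (hj : j < S.k n) (hj' : j' < S.k n)
    (h : res (S.t q j) (S.m n) = res (S.t q j') (S.m n)) : j = j' := by
  rw [S.near1' n q j hj, S.near1' n q j' hj'] at h
  exact S.inj _ (S.sep n _ _ j j' (anc_le _ _) (anc_le _ _) hj hj' h)

lemma disjoint_tail_self (n q j j' : ℕ) (hj : j < S.k n) (hj' : j' < S.k n) (hne : j ≠ j') :
    Disjoint (tail (S.t q j) (S.m n)) (tail (S.t q j') (S.m n)) :=
  disjoint_tail (k := S.m n) (fun h => hne (S.sep_self n q j j' hj hj' h)) (le_max_left _ _)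

/-- Newness. -/
lemma newness {o i j j' : ℕ} (ho : 1 ≤ o) (hj : j < S.k (o - 1)) (hne : S.t o j ≠ S.t (o / 2) j)
    (hi : i < o) (hj' : j' < S.k (o - 1)) : S.t o j ≠ S.t i j' := by
  intro h
  apply hne
  have h1 := S.near1 (o - 1) o j (by omega) hj
  rw [anc_pred ho] at h1
  have h2 : res (S.t i j') (S.m (o - 1)) = res (S.t (o / 2) j) (S.m (o - 1)) := by rw [← h1, h]
  have h3 := S.sep (o - 1) i (o / 2) j' j (by omega) (by omega) hj' hj h2
  rw [h, h3]

open Classical in
/-- The branches active in the segment functional. -/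
noncomputable def act (a q : ℕ) : Finset ℕ :=
  (Finset.range (S.k (a / 2 - 1))).filter (fun j => S.t q j ≠ S.t (a / 2) j)

lemma mem_act {a q j : ℕ} : j ∈ S.act a q ↔ j < S.k (a / 2 - 1) ∧ S.t q j ≠ S.t (a / 2) j := by
  classical
  unfold act
  rw [Finset.mem_filter, Finset.mem_range]

/-- The main part of `y q - y (a/2)`. -/
noncomputable def gseg (a q : ℕ) : StrongDual ℝ (JFin Node) :=
  ∑ j ∈ S.act a q, S.c (a / 2) j • (tb (S.t q j) (S.m (a - 1)) - tb (S.t (a / 2) j) (S.m (a - 1)))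

/-- The error bound. -/
noncomputable def eta (a : ℕ) : ℝ := eps (a - 1) + 2 * eps (a / 2 - 1)

lemma tail_sum_le (n q p : ℕ) (R : Finset ℕ) (hR : ∀ j ∈ R, j < S.k n ∧ S.k (p - 1) ≤ j) :
    ‖∑ j ∈ R, S.c p j • tb (S.t q j) (S.m n)‖ ≤ eps (p - 1) := by
  refine (norm_sum_smul_tb_le R (fun j => S.t q j) (fun _ => S.m n) ?_ (S.c p)).trans ?_
  · intro i hi j hj hij
    exact S.disjoint_tail_self n q i j (hR i hi).1 (hR j hj).1 hij
  · rw [Real.sqrt_le_left (eps_pos _).le]
    exact S.ctail p R fun j hj => (hR j hj).2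

lemma seg_err {a q : ℕ} (h : IsAnc a q) (ha : 1 ≤ a) :
    ‖S.y q - S.y (a / 2) - S.gseg a q‖ ≤ eta a := by
  classical
  set n := a - 1 with hn
  set p := a / 2 with hp
  have hnq : n < q := by have := h.1; omega
  have hanc : anc n q = p := h.anc_pred ha
  have h2 := S.near2 n q hnq
  rw [hanc] at h2
  have hk : S.k (p - 1) ≤ S.k n := S.kmono (by omega)
  set T : ℕ → StrongDual ℝ (JFin Node) := fun j =>
    S.c p j • (tb (S.t q j) (S.m n) - tb (S.t p j) (S.m n)) with hT
  set R : Finset ℕ := (Finset.range (S.k n)).filter (fun j => S.k (p - 1) ≤ j ∧ S.t q j ≠ S.t p j)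
    with hR
  have hsum : ∑ j ∈ Finset.range (S.k n), T j = S.gseg a q + ∑ j ∈ R, T j := by
    have h3 : ∑ j ∈ Finset.range (S.k n), T j
        = ∑ j ∈ (Finset.range (S.k n)).filter (fun j => S.t q j ≠ S.t p j), T j := by
      symm
      apply Finset.sum_filter_of_ne
      intro j _ hj heq
      apply hj
      simp only [hT]
      rw [heq, sub_self, smul_zero]
    have h4 : (Finset.range (S.k n)).filter (fun j => S.t q j ≠ S.t p j) = S.act a q ∪ R := by
      ext j
      simp only [Finset.mem_filter, Finset.mem_range, Finset.mem_union, mem_act, hR, ← hp]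
      constructor
      · rintro ⟨h5, h6⟩
        rcases lt_or_ge j (S.k (p - 1)) with h7 | h7
        · exact Or.inl ⟨h7, h6⟩
        · exact Or.inr ⟨h5, h7, h6⟩
      · rintro (⟨h5, h6⟩ | ⟨h5, _, h6⟩)
        · exact ⟨lt_of_lt_of_le h5 hk, h6⟩
        · exact ⟨h5, h6⟩
    have h5 : Disjoint (S.act a q) R := by
      rw [Finset.disjoint_left]
      intro j hj hj'
      rw [mem_act, ← hp] at hj
      rw [hR, Finset.mem_filter] at hj'
      omega
    rw [h3, h4, Finset.sum_union h5]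
    rfl
  have hRe : ‖∑ j ∈ R, T j‖ ≤ 2 * eps (p - 1) := by
    have h6 : ∑ j ∈ R, T j = (∑ j ∈ R, S.c p j • tb (S.t q j) (S.m n))
        - ∑ j ∈ R, S.c p j • tb (S.t p j) (S.m n) := by
      rw [← Finset.sum_sub_distrib]
      exact Finset.sum_congr rfl fun j _ => smul_sub _ _ _
    have hRm : ∀ j ∈ R, j < S.k n ∧ S.k (p - 1) ≤ j := by
      intro j hj
      rw [hR, Finset.mem_filter, Finset.mem_range] at hj
      exact ⟨hj.1, hj.2.1⟩
    rw [h6]
    have := norm_sub_le (∑ j ∈ R, S.c p j • tb (S.t q j) (S.m n))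
      (∑ j ∈ R, S.c p j • tb (S.t p j) (S.m n))
    have h7 := S.tail_sum_le n q p R hRm
    have h8 := S.tail_sum_le n p p R hRm
    linarith
  have h9 : S.y q - S.y p - S.gseg a q
      = (S.y q - S.y p - ∑ j ∈ Finset.range (S.k n), T j) + ∑ j ∈ R, T j := by
    rw [hsum]; abel
  rw [h9]
  refine (norm_add_le _ _).trans ?_
  unfold eta
  rw [← hn, ← hp]
  linarith

/-! ### Disjointness -/

/-- Key fact for the second tails. -/
lemma key2 {p p' a' q' j j' : ℕ} (hpp : p < p') (ha' : a' / 2 = p') (hanc : IsAnc a' q')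
    (hj : j < S.k (p - 1)) (hj' : j' < S.k (p' - 1)) (heq : S.t p j = S.t p' j')
    (hne : S.t q' j' ≠ S.t p' j') : False := by
  set n := p' - 1 with hn
  set ρ := p' / 2 with hρ
  have hjn : j < S.k n := lt_of_lt_of_le hj (S.kmono (by omega))
  have hancn : anc n p' = ρ := anc_pred (by omega)
  have h1 := S.near1 n p' j' (by omega) hj'
  rw [hancn] at h1
  have h2 : res (S.t p j) (S.m n) = res (S.t ρ j') (S.m n) := by rw [heq, h1]
  have h3 : S.t p j = S.t ρ j' := S.sep n p ρ j j' (by omega) (by omega) hjn hj' h2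
  have h4 : S.t p' j' = S.t ρ j' := by rw [← heq, h3]
  have hp'q : IsAnc p' q' := (ha' ▸ isAnc_half a').trans hanc
  have h5 : anc n q' = ρ := hp'q.anc_pred (by omega)
  rcases S.status n ρ j' (by omega) hj' with h6 | h6
  · have h7 := h6 q' (by have := hp'q.1; omega) h5
    exact hne (by rw [h7, h4])
  · exact h6 p' (by omega) hancn h4

/-- The oldest ancestor carrying the same branch. -/
lemma origin {a s j : ℕ} (h : IsAnc a s) (ha : 1 ≤ a) (hne : S.t s j ≠ S.t (a / 2) j) :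
    ∃ o, IsAnc a o ∧ IsAnc o s ∧ S.t o j = S.t s j ∧ S.t o j ≠ S.t (o / 2) j := by
  induction s using Nat.strong_induction_on with
  | _ s ih =>
    by_cases hs : S.t s j = S.t (s / 2) j
    · have hlt : a < s := by
        rcases eq_or_lt_of_le h.1 with h1 | h1
        · subst h1; exact absurd hs hne
        · exact h1
      obtain ⟨o, h1, h2, h3, h4⟩ := ih (s / 2) (by omega) (h.half hlt) (by rw [← hs]; exact hne)
      exact ⟨o, h1, h2.trans (isAnc_half s), by rw [h3, ← hs], h4⟩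
    · exact ⟨s, h, isAnc_refl s, rfl, hs⟩

variable {ι : Type*} (s : Finset ι) (a q : ι → ℕ)

/-- A family of pairwise disjoint heap segments. -/
structure HFam (s : Finset ι) (a q : ι → ℕ) : Prop where
  pos : ∀ i ∈ s, 1 ≤ a i
  seg : ∀ i ∈ s, IsAnc (a i) (q i)
  disj : ∀ i ∈ s, ∀ i' ∈ s, i ≠ i' → ∀ o, IsAnc (a i) o → IsAnc o (q i) → IsAnc (a i') o →
    IsAnc o (q i') → False

variable {s a q}

lemma HFam.a_ne (h : HFam s a q) {i i' : ι} (hi : i ∈ s) (hi' : i' ∈ s) (hne : i ≠ i') :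
    a i ≠ a i' := by
  intro heq
  exact h.disj i hi i' hi' hne (a i) (isAnc_refl _) (h.seg i hi) (heq ▸ isAnc_refl _)
    (heq ▸ h.seg i' hi')

lemma act_lt {a q j : ℕ} (ha : 1 ≤ a) (hj : j ∈ S.act a q) : j < S.k (a - 1) :=
  lt_of_lt_of_le (S.mem_act.mp hj).1 (S.kmono (by omega))

lemma disj2 (h : HFam s a q) {i i' : ι} (hi : i ∈ s) (hi' : i' ∈ s) (hpar : a i % 2 = a i' % 2)
    {j j' : ℕ} (hj : j ∈ S.act (a i) (q i)) (hj' : j' ∈ S.act (a i') (q i'))
    (hne : (⟨i, j⟩ : Σ _ : ι, ℕ) ≠ ⟨i', j'⟩) :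
    Disjoint (tail (S.t (a i / 2) j) (S.m (a i - 1))) (tail (S.t (a i' / 2) j') (S.m (a i' - 1))) := by
  rw [Set.disjoint_left]
  rintro b ⟨hb1, hb2⟩ ⟨hb3, hb4⟩
  have hres : res (S.t (a i / 2) j) b.len = res (S.t (a i' / 2) j') b.len := by rw [← hb2, ← hb4]
  have hai := h.pos i hi
  have hai' := h.pos i' hi'
  have hjl := S.act_lt hai hj
  have hjl' := S.act_lt hai' hj'
  set n := max (a i - 1) (a i' - 1) with hn
  have hmn : S.m n ≤ b.len := by
    rcases le_total (a i - 1) (a i' - 1) with h1 | h1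
    · rw [hn, max_eq_right h1]; exact hb3
    · rw [hn, max_eq_left h1]; exact hb1
  have hbr : S.t (a i / 2) j = S.t (a i' / 2) j' := by
    refine S.sep n _ _ j j' ?_ ?_ (lt_of_lt_of_le hjl (S.kmono (le_max_left _ _)))
      (lt_of_lt_of_le hjl' (S.kmono (le_max_right _ _))) (res_eq_of_ge hmn hres)
    · exact le_trans (by omega) (le_max_left _ _)
    · exact le_trans (by omega) (le_max_right _ _)
  rw [mem_act] at hj hj'
  rcases lt_trichotomy (a i / 2) (a i' / 2) with h1 | h1 | h1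
  · exact S.key2 h1 rfl (h.seg i' hi') hj.1 hj'.1 hbr hj'.2
  · rw [← h1] at hbr
    have hjj : j = j' := S.inj _ hbr
    have haa : a i = a i' := by omega
    by_cases hii : i = i'
    · subst hii; subst hjj; exact hne rfl
    · exact h.a_ne hi hi' hii haa
  · exact S.key2 h1 rfl (h.seg i hi) hj'.1 hj.1 hbr.symm hj.2

lemma disj1b (h : HFam s a q) {i i' : ι} (hi : i ∈ s) (hi' : i' ∈ s)
    {j j' : ℕ} (hj : j ∈ S.act (a i) (q i)) (hj' : j' ∈ S.act (a i') (q i'))
    (hne : (⟨i, j⟩ : Σ _ : ι, ℕ) ≠ ⟨i', j'⟩) :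
    Disjoint (tail (S.t (q i) j) (S.m (a i))) (tail (S.t (q i') j') (S.m (a i'))) := by
  rw [Set.disjoint_left]
  rintro b ⟨hb1, hb2⟩ ⟨hb3, hb4⟩
  have hres : res (S.t (q i) j) b.len = res (S.t (q i') j') b.len := by rw [← hb2, ← hb4]
  have hai := h.pos i hi
  have hai' := h.pos i' hi'
  have hseg := h.seg i hi
  have hseg' := h.seg i' hi'
  have hjl := S.act_lt hai hj
  have hjl' := S.act_lt hai' hj'
  set N := max (a i) (a i') with hN
  have hmN : S.m N ≤ b.len := by
    rcases le_total (a i) (a i') with h1 | h1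
    · rw [hN, max_eq_right h1]; exact hb3
    · rw [hN, max_eq_left h1]; exact hb1
  have hjN : j < S.k N := lt_of_lt_of_le hjl (S.kmono (le_trans (by omega) (le_max_left _ _)))
  have hjN' : j' < S.k N := lt_of_lt_of_le hjl' (S.kmono (le_trans (by omega) (le_max_right _ _)))
  have h1 := res_eq_of_ge hmN hres
  rw [S.near1' N (q i) j hjN, S.near1' N (q i') j' hjN'] at h1
  have h2 := S.sep N _ _ j j' (anc_le _ _) (anc_le _ _) hjN hjN' h1
  set v := anc N (q i) with hv
  set v' := anc N (q i') with hv'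
  have hav : IsAnc (a i) v := hseg.anc_right (le_max_left _ _)
  have hav' : IsAnc (a i') v' := hseg'.anc_right (le_max_right _ _)
  have hvq : IsAnc v (q i) := isAnc_anc' _ _
  have hvq' : IsAnc v' (q i') := isAnc_anc' _ _
  -- the branch at `v` differs from that at the parent
  have hdiff : ∀ (A Q V J : ℕ), 1 ≤ A → IsAnc A Q → IsAnc A V → J < S.k (A - 1) →
      S.t Q J ≠ S.t (A / 2) J → S.t V J ≠ S.t (A / 2) J := by
    intro A Q V J hA hAQ hAV hJ hQ
    rcases S.status (A - 1) (A / 2) J (by omega) hJ with h3 | h3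
    · exact absurd (h3 Q (by have := hAQ.1; omega) (hAQ.anc_pred hA)) hQ
    · exact h3 V (by have := hAV.1; omega) (hAV.anc_pred hA)
  have hd := hdiff (a i) (q i) v j hai hseg hav hjl (S.mem_act.mp hj).2
  have hd' := hdiff (a i') (q i') v' j' hai' hseg' hav' hjl' (S.mem_act.mp hj').2
  by_cases hii : i = i'
  · subst hii
    have : j = j' := S.inj _ h2
    subst this
    exact hne rfl
  · obtain ⟨o, ho1, ho2, ho3, ho4⟩ := S.origin hav hai hd
    obtain ⟨o', ho1', ho2', ho3', ho4'⟩ := S.origin hav' hai' hd'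
    have hoo : S.t o j = S.t o' j' := by rw [ho3, h2, ho3']
    have hle := ho1.1
    have hle' := ho1'.1
    rcases lt_trichotomy o o' with h3 | h3 | h3
    · refine S.newness (o := o') (i := o) (j := j') (j' := j) (by omega)
        (lt_of_lt_of_le hjl' (S.kmono (by omega))) ho4' h3
        (lt_of_lt_of_le hjl (S.kmono (by omega))) hoo.symm
    · subst h3
      exact h.disj i hi i' hi' hii o ho1 (ho2.trans hvq) ho1' (ho2'.trans hvq')
    · refine S.newness (o := o) (i := o') (j := j) (j' := j') (by omega)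
        (lt_of_lt_of_le hjl (S.kmono (by omega))) ho4 h3
        (lt_of_lt_of_le hjl' (S.kmono (by omega))) hoo

lemma disj1a (h : HFam s a q) {i i' : ι} (hi : i ∈ s) (hi' : i' ∈ s)
    {j j' : ℕ} (hj : j ∈ S.act (a i) (q i)) (hj' : j' ∈ S.act (a i') (q i'))
    (hne : (⟨i, j⟩ : Σ _ : ι, ℕ) ≠ ⟨i', j'⟩) :
    Disjoint (tail (S.t (q i) j) (S.m (a i - 1)) ∩ band (S.m (a i - 1)) (S.m (a i)))
      (tail (S.t (q i') j') (S.m (a i' - 1)) ∩ band (S.m (a i' - 1)) (S.m (a i'))) := by
  have hai := h.pos i hi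
  have hai' := h.pos i' hi'
  by_cases hii : i = i'
  · subst hii
    have hjj : j ≠ j' := by rintro rfl; exact hne rfl
    exact (S.disjoint_tail_self _ _ j j' (S.act_lt hai hj) (S.act_lt hai hj') hjj).mono
      Set.inter_subset_left Set.inter_subset_left
  · have haa := h.a_ne hi hi' hii
    have key : Disjoint (band (S.m (a i - 1)) (S.m (a i))) (band (S.m (a i' - 1)) (S.m (a i'))) := by
      rcases lt_or_gt_of_ne haa with h1 | h1
      · exact disjoint_band (S.mmono.monotone (by omega))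
      · exact (disjoint_band (S.mmono.monotone (by omega))).symm
    exact key.mono Set.inter_subset_right Set.inter_subset_right

end Sys

end JTree
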