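import Pool.Agent.Work.MP_245e03_an.Core

/-!
# Definitions used in the final statements.

The finitely supported functions, their norm `jnorm` and the families of segments are defined in
`Defs.lean`; the only thing used from `Core.lean` is the proof that `jnorm` is a norm.
-/

namespace JTree

section
variable {T : Type*} [PartialOrder T]

/-- `jnorm` is a norm (the proof is in `Core.lean`). -/
theorem jfin_core : NormedSpace.Core ℝ (JFin T) := jfin_core_proof

/-- `JFin T` with the norm `jnorm` is a normed space (no definitional content besides `jnorm`). -/
noncomputable instance : NormedAddCommGroup (JFin T) := NormedAddCommGroup.ofCore jfin_core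
noncomputable instance : NormedSpace ℝ (JFin T) := NormedSpace.ofCore jfin_core

end

/-- The completion of `JFin T`: the James space `J` for `T = ℕ`, the James tree space `JT` for the
dyadic tree `T = Node`. -/
def JSpace (T : Type) [PartialOrder T] : Type := UniformSpace.Completion (JFin T)

section
variable (T : Type) [PartialOrder T]

noncomputable instance : NormedAddCommGroup (JSpace T) := by delta JSpace; infer_instance

noncomputable instance : NormedSpace ℝ (JSpace T) := by delta JSpace; infer_instance

end

/-- The canonical map of the finitely supported functions into the completion. -/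
noncomputable def toJSpace {T : Type} [PartialOrder T] (x : JFin T) : JSpace T :=
  (x : UniformSpace.Completion (JFin T))

/-- The dual Banach space of `JSpace T`. -/
def JDual (T : Type) [PartialOrder T] : Type := StrongDual ℝ (JSpace T)

section
variable (T : Type) [PartialOrder T]

noncomputable instance : NormedAddCommGroup (JDual T) := by delta JDual; infer_instance

noncomputable instance : NormedSpace ℝ (JDual T) := by delta JDual; infer_instance

end

/-- The value of a functional. -/
noncomputable def JDual.eval {T : Type} [PartialOrder T] (φ : JDual T) (x : JSpace T) : ℝ :=
  (show StrongDual ℝ (JSpace T) from φ) x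

/-- A normed space is reflexive if every element of its bidual is the evaluation at a vector. -/
def IsReflexiveSpace (W : Type) [NormedAddCommGroup W] [NormedSpace ℝ W] : Prop :=
  ∀ Φ : StrongDual ℝ (StrongDual ℝ W), ∃ w : W, ∀ f : StrongDual ℝ W, Φ f = f w

/-- `Y` contains `Z`: some closed linear subspace of `Y` is linearly homeomorphic to `Z`. -/
def ContainsCopy {E : Type} [NormedAddCommGroup E] [NormedSpace ℝ E] (Y : Submodule ℝ E)
    (Z : Type) [NormedAddCommGroup Z] [NormedSpace ℝ Z] : Prop :=
  ∃ W : Submodule ℝ E, W ≤ Y ∧ IsClosed (W : Set E) ∧ Nonempty (Z ≃L[ℝ] W)

/-- The functionals `e_a^*` on `JT` biorthogonal to the unit vectors `e_b`. -/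
def biorth : Set (JDual Node) :=
  {φ | ∃ a : Node, φ.eval (toJSpace (e a)) = 1 ∧ ∀ b : Node, b ≠ a → φ.eval (toJSpace (e b)) = 0}

/-- The predual `𝓑` of `JT`: the closed linear span in `JT*` of the biorthogonal functionals. -/
noncomputable def predual : Submodule ℝ (JDual Node) :=
  (Submodule.span ℝ biorth).topologicalClosure

end JTree
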