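import Pool.Agent.Work.MP_245e03_an.Branch

/-!
# Structure theorem for `JT*`.
-/

open scoped BigOperators
open Finset

namespace JTree

lemma isBranch_res (σ : ℕ → Bool) : IsBranch (res σ) where
  mono := fun _ _ h => res_mono σ h
  escape := fun t => ⟨t.len + 1, fun h => by
    have := Node.len_mono h
    rw [len_res] at this
    omega⟩

lemma down_res (σ : ℕ → Bool) : down (res σ) = tail σ 0 := by
  ext a
  constructor
  · rintro ⟨n, hn⟩
    exact ⟨Nat.zero_le _, (le_res_iff.mp hn).2⟩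
  · rintro ⟨_, h⟩
    exact ⟨a.len, h.le⟩

/-- The limit `c_f(σ) = lim f(e_{σ|n})`. -/
noncomputable def cf (f : StrongDual ℝ (JFin Node)) (σ : ℕ → Bool) : ℝ :=
  (branch_thm (isBranch_res σ) f).choose

theorem tendsto_cf (f : StrongDual ℝ (JFin Node)) (σ : ℕ → Bool) :
    Filter.Tendsto (fun n => f (e (res σ n))) Filter.atTop (nhds (cf f σ)) :=
  (branch_thm (isBranch_res σ) f).choose_spec.1

theorem cf_spec (f : StrongDual ℝ (JFin Node)) (σ : ℕ → Bool) :
    ∀ ε > 0, ∃ n, ∀ x ∈ Sup (Set.Ici (res σ n)), |f x - cf f σ * sumOn (tail σ 0) x| ≤ ε * ‖x‖ := by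
  rw [← down_res σ]
  exact (branch_thm (isBranch_res σ) f).choose_spec.2

lemma cf_unique {f : StrongDual ℝ (JFin Node)} {σ : ℕ → Bool} {c : ℝ}
    (h : Filter.Tendsto (fun n => f (e (res σ n))) Filter.atTop (nhds c)) : cf f σ = c :=
  tendsto_nhds_unique (tendsto_cf f σ) h

lemma cf_add (f g : StrongDual ℝ (JFin Node)) (σ : ℕ → Bool) : cf (f + g) σ = cf f σ + cf g σ :=
  cf_unique ((tendsto_cf f σ).add (tendsto_cf g σ))
lemma cf_sub (f g : StrongDual ℝ (JFin Node)) (σ : ℕ → Bool) : cf (f - g) σ = cf f σ - cf g σ :=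
  cf_unique ((tendsto_cf f σ).sub (tendsto_cf g σ))
lemma cf_smul (r : ℝ) (f : StrongDual ℝ (JFin Node)) (σ : ℕ → Bool) :
    cf (r • f) σ = r * cf f σ :=
  cf_unique ((tendsto_cf f σ).const_mul r)

open Classical in
lemma cf_tb (σ τ : ℕ → Bool) (m : ℕ) : cf (tb σ m) τ = if τ = σ then 1 else 0 := by
  apply cf_unique
  split_ifs with h
  · subst h
    apply tendsto_const_nhds.congr'
    filter_upwards [Filter.eventually_ge_atTop m] with n hn
    rw [tb_apply, sumOn_e, if_pos (res_mem_tail.mpr ⟨hn, rfl⟩)]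
  · obtain ⟨k, hk⟩ := exists_ne_level h
    apply tendsto_const_nhds.congr'
    filter_upwards [Filter.eventually_ge_atTop k] with n hn
    rw [tb_apply, sumOn_e, if_neg]
    intro hmem
    exact hk n hn (res_mem_tail.mp hmem).2

lemma abs_cf_le (f : StrongDual ℝ (JFin Node)) (σ : ℕ → Bool) : |cf f σ| ≤ ‖f‖ := by
  refine le_of_tendsto (tendsto_cf f σ).abs (Filter.Eventually.of_forall fun n => ?_)
  rw [← Real.norm_eq_abs]
  calc ‖f (e (res σ n))‖ ≤ ‖f‖ * ‖(e (res σ n) : JFin Node)‖ := ContinuousLinearMap.le_opNorm _ _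
    _ ≤ ‖f‖ * 1 := by gcongr; exact norm_e _
    _ = ‖f‖ := mul_one _

/-- The functional `f ↦ c_f(σ)`. -/
noncomputable def cfL (σ : ℕ → Bool) : StrongDual ℝ (JFin Node) →L[ℝ] ℝ :=
  LinearMap.mkContinuous
    { toFun := fun f => cf f σ
      map_add' := fun f g => cf_add f g σ
      map_smul' := fun r f => cf_smul r f σ } 1
    (fun f => by rw [one_mul]; exact abs_cf_le f σ)

lemma cfL_apply (σ : ℕ → Bool) (f : StrongDual ℝ (JFin Node)) : cfL σ f = cf f σ := rfl

lemma cf_sum {ι : Type*} (s : Finset ι) (f : ι → StrongDual ℝ (JFin Node)) (σ : ℕ → Bool) :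
    cf (∑ i ∈ s, f i) σ = ∑ i ∈ s, cf (f i) σ := by
  simp only [← cfL_apply]
  rw [map_sum]

/-- Norm of combinations of unit vectors on one level. -/
lemma norm_level_sq_le (H : Finset (ℕ → Bool)) (n : ℕ)
    (hsep : ∀ σ ∈ H, ∀ τ ∈ H, res σ n = res τ n → σ = τ) (a : (ℕ → Bool) → ℝ) :
    ‖∑ σ ∈ H, a σ • (e (res σ n) : JFin Node)‖ ^ 2 ≤ ∑ σ ∈ H, a σ ^ 2 := by
  classical
  apply norm_sq_le
  intro P hP
  -- each segment meets at most one of the nodes
  have h1 : ∀ p ∈ P, (sumOn (Set.Icc p.1 p.2) (∑ σ ∈ H, a σ • (e (res σ n) : JFin Node))) ^ 2 ≤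
      ∑ σ ∈ H, if res σ n ∈ Set.Icc p.1 p.2 then a σ ^ 2 else 0 := by
    intro p _
    have h2 : sumOn (Set.Icc p.1 p.2) (∑ σ ∈ H, a σ • (e (res σ n) : JFin Node)) =
        ∑ σ ∈ H, if res σ n ∈ Set.Icc p.1 p.2 then a σ else 0 := by
      rw [map_sum]
      refine Finset.sum_congr rfl fun σ _ => ?_
      rw [map_smul, sumOn_e, smul_eq_mul]
      split_ifs <;> simp
    rw [h2]
    by_cases hex : ∃ σ ∈ H, res σ n ∈ Set.Icc p.1 p.2
    · obtain ⟨σ, hσ, hσI⟩ := hex
      have huniq : ∀ τ ∈ H, τ ≠ σ → res τ n ∉ Set.Icc p.1 p.2 := by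
        intro τ hτ hne hτI
        apply hne
        exact hsep τ hτ σ hσ (res_eq_of_le hτI.2 hσI.2 (by simp))
      rw [Finset.sum_eq_single_of_mem σ hσ (fun τ hτ hne => if_neg (huniq τ hτ hne)),
        Finset.sum_eq_single_of_mem σ hσ (fun τ hτ hne => if_neg (huniq τ hτ hne)), if_pos hσI,
        if_pos hσI]
    · push Not at hex
      rw [Finset.sum_eq_zero (fun σ hσ => if_neg (hex σ hσ)),
        Finset.sum_eq_zero (fun σ hσ => if_neg (hex σ hσ))]
      norm_num
  calc _ ≤ ∑ p ∈ P, ∑ σ ∈ H, (if res σ n ∈ Set.Icc p.1 p.2 then a σ ^ 2 else 0) :=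
        Finset.sum_le_sum h1
    _ = ∑ σ ∈ H, ∑ p ∈ P, (if res σ n ∈ Set.Icc p.1 p.2 then a σ ^ 2 else 0) := Finset.sum_comm
    _ ≤ ∑ σ ∈ H, a σ ^ 2 := by
        refine Finset.sum_le_sum fun σ _ => ?_
        by_cases hex : ∃ p ∈ P, res σ n ∈ Set.Icc p.1 p.2
        · obtain ⟨p, hp, hpI⟩ := hex
          rw [Finset.sum_eq_single_of_mem p hp]
          · rw [if_pos hpI]
          · intro q hq hqp
            rw [if_neg]
            intro hqI
            exact Set.disjoint_left.mp (hP.2 q hq p hp hqp) hqI hpI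
        · push Not at hex
          rw [Finset.sum_eq_zero (fun p hp => if_neg (hex p hp))]
          exact sq_nonneg _

lemma sum_level_sq_le (f : StrongDual ℝ (JFin Node)) (H : Finset (ℕ → Bool)) (n : ℕ)
    (hsep : ∀ σ ∈ H, ∀ τ ∈ H, res σ n = res τ n → σ = τ) :
    ∑ σ ∈ H, f (e (res σ n)) ^ 2 ≤ ‖f‖ ^ 2 := by
  set S := ∑ σ ∈ H, f (e (res σ n)) ^ 2 with hS
  have hS0 : 0 ≤ S := Finset.sum_nonneg fun _ _ => sq_nonneg _
  set x : JFin Node := ∑ σ ∈ H, f (e (res σ n)) • (e (res σ n) : JFin Node) with hx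
  have h1 : ‖x‖ ^ 2 ≤ S := norm_level_sq_le H n hsep _
  have h2 : f x = S := by
    rw [hx, map_sum, hS]
    refine Finset.sum_congr rfl fun σ _ => ?_
    rw [map_smul, smul_eq_mul, sq]
  have h3 : S ≤ ‖f‖ * ‖x‖ := by
    calc S = f x := h2.symm
      _ ≤ |f x| := le_abs_self _
      _ ≤ ‖f‖ * ‖x‖ := by rw [← Real.norm_eq_abs]; exact ContinuousLinearMap.le_opNorm _ _
  by_cases hS1 : S = 0
  · rw [hS1]; positivity
  · have hSpos : 0 < S := lt_of_le_of_ne hS0 (Ne.symm hS1)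
    have h4 : S ^ 2 ≤ ‖f‖ ^ 2 * S := by
      calc S ^ 2 ≤ (‖f‖ * ‖x‖) ^ 2 := by gcongr
        _ = ‖f‖ ^ 2 * ‖x‖ ^ 2 := by ring
        _ ≤ ‖f‖ ^ 2 * S := by gcongr
    nlinarith

theorem sum_cf_sq_le (f : StrongDual ℝ (JFin Node)) (H : Finset (ℕ → Bool)) :
    ∑ σ ∈ H, cf f σ ^ 2 ≤ ‖f‖ ^ 2 := by
  obtain ⟨n0, hn0⟩ := exists_sep H
  have hlim : Filter.Tendsto (fun n => ∑ σ ∈ H, f (e (res σ n)) ^ 2) Filter.atTop
      (nhds (∑ σ ∈ H, cf f σ ^ 2)) :=
    tendsto_finsetSum _ fun σ _ => (tendsto_cf f σ).pow 2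
  refine le_of_tendsto hlim ?_
  filter_upwards [Filter.eventually_ge_atTop n0] with n hn
  exact sum_level_sq_le f H n (hn0 n hn)

lemma summable_cf_sq (f : StrongDual ℝ (JFin Node)) : Summable (fun σ => cf f σ ^ 2) :=
  summable_of_sum_le (fun _ => sq_nonneg _) (sum_cf_sq_le f)

lemma norm_le_below_add (f : StrongDual ℝ (JFin Node)) (m : ℕ) :
    ‖f‖ ≤ ∑ a ∈ below m, |f (e a)| + ‖restr (lvl m) f‖ := by
  classical
  have h0 : 0 ≤ ∑ a ∈ below m, |f (e a)| := Finset.sum_nonneg fun _ _ => abs_nonneg _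
  apply ContinuousLinearMap.opNorm_le_bound _ (by positivity)
  intro x
  have hx : x = (∑ a ∈ below m, co x a • e a) + proj (lvl m) x := by
    apply ext_co
    intro b
    have h : ∀ s : Finset Node, co (∑ a ∈ s, co x a • e a) b = if b ∈ s then co x b else 0 := by
      intro s
      induction s using Finset.induction_on with
      | empty => simp
      | insert a s ha ih =>
        rw [Finset.sum_insert ha, co_add, ih, co_smul, co_e]
        by_cases hab : a = b
        · subst hab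
          simp [ha]
        · have hba : b ≠ a := fun h => hab h.symm
          simp [hab, hba]
    rw [co_add, h, co_proj]
    by_cases hb : b.len < m
    · have h1 : b ∉ lvl m := by rw [mem_lvl]; omega
      rw [if_pos (mem_below.mpr hb), if_neg h1, add_zero]
    · have h1 : b ∈ lvl m := by rw [mem_lvl]; omega
      rw [if_neg (fun h => hb (mem_below.mp h)), if_pos h1, zero_add]
  have h1 : f x = ∑ a ∈ below m, co x a * f (e a) + restr (lvl m) f x := by
    rw [restr_apply (ordConnected_lvl m)]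
    conv_lhs => rw [hx]
    rw [map_add, map_sum]
    congr 1
    refine Finset.sum_congr rfl fun a _ => ?_
    rw [map_smul, smul_eq_mul]
  rw [h1, Real.norm_eq_abs]
  calc |∑ a ∈ below m, co x a * f (e a) + restr (lvl m) f x|
      ≤ |∑ a ∈ below m, co x a * f (e a)| + |restr (lvl m) f x| := abs_add_le _ _
    _ ≤ ∑ a ∈ below m, |co x a * f (e a)| + ‖restr (lvl m) f‖ * ‖x‖ := by
        gcongr
        · exact Finset.abs_sum_le_sum_abs _ _
        · rw [← Real.norm_eq_abs]; exact ContinuousLinearMap.le_opNorm _ _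
    _ ≤ ∑ a ∈ below m, |f (e a)| * ‖x‖ + ‖restr (lvl m) f‖ * ‖x‖ := by
        gcongr with a _
        rw [abs_mul, mul_comm]
        gcongr
        exact abs_co_le_norm x a
    _ = (∑ a ∈ below m, |f (e a)| + ‖restr (lvl m) f‖) * ‖x‖ := by
        rw [add_mul, Finset.sum_mul]

/-! ### Functionals with `c_f = 0` -/

lemma unif_small (f : StrongDual ℝ (JFin Node)) (h : ∀ σ, cf f σ = 0) {δ : ℝ} (hδ : 0 < δ) :
    ∃ N, ∀ n, N ≤ n → ∀ b : Node, b.len = n → ∀ x ∈ Sup (Set.Ici b), |f x| ≤ δ * ‖x‖ := by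
  classical
  set U : ℕ → Set (ℕ → Bool) := fun m => {σ | ∀ x ∈ Sup (Set.Ici (res σ m)), |f x| ≤ δ * ‖x‖}
    with hU
  have hmono : ∀ {m n : ℕ}, m ≤ n → U m ⊆ U n := by
    intro m n hmn σ hσ x hx
    exact hσ x (Sup_mono (Set.Ici_subset_Ici.mpr (res_mono σ hmn)) hx)
  have hopen : ∀ m, IsOpen (U m) := by
    intro m
    rw [isOpen_iff_forall_mem_open]
    intro σ hσ
    refine ⟨⋂ i ∈ Finset.range m, {τ : ℕ → Bool | τ i = σ i}, ?_, ?_, ?_⟩
    · intro τ hτ
      simp only [Set.mem_iInter, Finset.mem_range, Set.mem_ofPred_eq] at hτ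
      have : res τ m = res σ m := res_eq_res_iff.mpr hτ
      show ∀ x ∈ Sup (Set.Ici (res τ m)), |f x| ≤ δ * ‖x‖
      rw [this]; exact hσ
    · apply isOpen_biInter_finset
      intro i _
      have h1 : IsOpen ((fun τ : ℕ → Bool => τ i) ⁻¹' {σ i}) :=
        (isOpen_discrete ({σ i} : Set Bool)).preimage (continuous_apply i)
      exact h1
    · simp
  have hcover : (Set.univ : Set (ℕ → Bool)) ⊆ ⋃ m, U m := by
    intro σ _
    obtain ⟨n, hn⟩ := cf_spec f σ δ hδ
    rw [Set.mem_iUnion]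
    refine ⟨n, fun x hx => ?_⟩
    have := hn x hx
    rwa [h σ, zero_mul, sub_zero] at this
  obtain ⟨N, hN⟩ := isCompact_univ.elim_directed_cover U hopen hcover
    (directed_of_isDirected_le fun m n hmn => hmono hmn)
  refine ⟨N, fun n hn b hb x hx => ?_⟩
  obtain ⟨σ, hσ⟩ := exists_res_eq b
  have h1 : σ ∈ U n := hmono hn (hN (Set.mem_univ σ))
  have h2 : res σ n = b := by rw [← hb]; exact hσ
  have h3 := h1 x
  rw [h2] at h3
  exact h3 hx

/-- Sums along segments of a vector all of whose cone components at level `N` are small. -/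
lemma abs_sumOn_Icc_le {x : JFin Node} {N : ℕ} {t : ℝ} (ht : 0 ≤ t) (hx : x ∈ Sup (lvl N))
    (hsmall : ∀ b : Node, b.len = N → ‖proj (Set.Ici b) x‖ ≤ t) (p : Node × Node) :
    |sumOn (Set.Icc p.1 p.2) x| ≤ t := by
  by_cases hex : ∃ b ∈ supp x, b ∈ Set.Icc p.1 p.2
  · obtain ⟨b, hb, hbI⟩ := hex
    have hbN : N ≤ b.len := mem_Sup_iff_supp.mp hx b hb
    obtain ⟨σ, hσ⟩ := exists_res_eq b
    set β := res σ N with hβ
    have hβb : β ≤ b := by rw [← hσ]; exact res_mono σ hbN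
    have h1 : sumOn (Set.Icc p.1 p.2) x = sumOn (Set.Icc p.1 p.2 ∩ Set.Ici β) x := by
      apply sumOn_congr
      intro a ha
      constructor
      · intro haI
        refine ⟨haI, ?_⟩
        rcases TreeLike.comp_of_le haI.2 hbI.2 with h | h
        · have haN : N ≤ a.len := mem_Sup_iff_supp.mp hx a ha
          rw [← hσ] at h
          have := (le_res_iff.mp h).2
          show β ≤ a
          rw [this]
          exact res_mono σ haN
        · exact hβb.trans h
      · exact fun h => h.1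
    rw [h1, ← sumOn_proj]
    have h2 := ContinuousLinearMap.le_opNorm (bOn (Set.Icc p.1 p.2)) (proj (Set.Ici β) x)
    rw [bOn_apply (isSeg_Icc _ _), Real.norm_eq_abs] at h2
    calc |sumOn (Set.Icc p.1 p.2) (proj (Set.Ici β) x)|
        ≤ ‖bOn (Set.Icc p.1 p.2)‖ * ‖proj (Set.Ici β) x‖ := h2
      _ ≤ 1 * ‖proj (Set.Ici β) x‖ := by gcongr; exact norm_bOn_le _
      _ ≤ 1 * t := by gcongr; exact hsmall β (by simp [hβ])
      _ = t := one_mul t
  · push Not at hex
    rw [sumOn_eq_zero hex]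
    simpa using ht

theorem small_of_cf_zero (f : StrongDual ℝ (JFin Node)) (h : ∀ σ, cf f σ = 0) {ε : ℝ}
    (hε : 0 < ε) : ∃ n, ∀ m, n ≤ m → ‖restr (lvl m) f‖ ≤ ε := by
  classical
  have key := two_block f (fun n => Sup (lvl n)) (fun m n hmn => Sup_mono (lvl_anti hmn)) ?_ ε hε
  · obtain ⟨n, hn⟩ := key
    refine ⟨n, fun m hm => restr_le_of_mem (ordConnected_lvl m) f hε.le fun x hx => ?_⟩
    exact hn x (Sup_mono (lvl_anti hm) hx)
  intro θ _ hnear n x hx hx1 η hη
  set t : ℝ := 1 / (2 * (l1 x + 1)) with ht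
  have hl1 := l1_nonneg x
  have htpos : 0 < t := by positivity
  have htl : t * l1 x ≤ 1 / 2 := by
    rw [ht, div_mul_eq_mul_div, div_le_div_iff₀ (by positivity) (by norm_num)]
    linarith
  set δ : ℝ := η / 2 * t ^ 2 with hδ
  have hδpos : 0 < δ := by positivity
  obtain ⟨N0, hN0⟩ := unif_small f h hδpos
  set N : ℕ := max N0 n with hN
  obtain ⟨y, hyV, hy1, hy2⟩ := hnear N (η / 2) (by positivity)
  -- the big cones
  set L : Finset Node := (below (N + 1)).filter (fun b => b.len = N) with hL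
  set Big : Finset Node := L.filter (fun b => t < ‖proj (Set.Ici b) y‖) with hBig
  have hBiglen : ∀ b ∈ Big, b.len = N := fun b hb =>
    (Finset.mem_filter.mp (Finset.mem_filter.mp hb).1).2
  have hconeDisj : ∀ b : Node, b.len = N → ∀ b' : Node, b'.len = N → b ≠ b' →
      Disjoint (Set.Ici b) (Set.Ici b') := by
    intro b hb b' hb' hne
    rw [Set.disjoint_left]
    intro a ha ha'
    exact hne (res_eq_of_le ha ha' (by rw [hb, hb']))
  have hcard : (Big.card : ℝ) * t ^ 2 ≤ 1 := by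
    calc (Big.card : ℝ) * t ^ 2 = ∑ _b ∈ Big, t ^ 2 := by rw [Finset.sum_const, nsmul_eq_mul]
      _ ≤ ∑ b ∈ Big, ‖proj (Set.Ici b) y‖ ^ 2 := by
          refine Finset.sum_le_sum fun b hb => ?_
          have := (Finset.mem_filter.mp hb).2
          gcongr
      _ ≤ ‖y‖ ^ 2 := sum_norm_proj_sq_le Big (fun b => Set.Ici b)
            (fun _ _ => Set.ordConnected_Ici)
            (fun b hb b' hb' hne => hconeDisj b (hBiglen b hb) b' (hBiglen b' hb') hne) y
      _ ≤ 1 := by nlinarith [norm_nonneg y]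
  set B : Set Node := {a | ∃ b ∈ Big, b ≤ a} with hB
  set A : Set Node := {a | a ∉ B} with hA
  have hAord : A.OrdConnected := by
    constructor
    intro a _ b hb c hc hcB
    obtain ⟨β, hβ, hβc⟩ := hcB
    exact hb ⟨β, hβ, hβc.trans hc.2⟩
  set x' : JFin Node := proj A y with hx'
  have hx'N : x' ∈ Sup (lvl N) := by
    intro a ha
    have h1 : co y a = 0 := hyV a ha
    rw [hx', co_proj]; split_ifs <;> simp [h1]
  have hx'1 : ‖x'‖ ≤ 1 := (norm_proj_le hAord y).trans hy1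
  -- the value of `f` at `x'`
  have hdecomp : y = x' + ∑ b ∈ Big, proj (Set.Ici b) y := by
    apply ext_co
    intro a
    have hs : ∀ s : Finset Node, co (∑ b ∈ s, proj (Set.Ici b) y) a =
        ∑ b ∈ s, co (proj (Set.Ici b) y) a := by
      intro s
      induction s using Finset.induction_on with
      | empty => simp
      | insert c s hc ih => rw [Finset.sum_insert hc, Finset.sum_insert hc, co_add, ih]
    rw [co_add, hs, hx', co_proj]
    by_cases ha : a ∈ B
    · obtain ⟨b, hb, hba⟩ := ha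
      have h1 : a ∉ A := fun h => h ⟨b, hb, hba⟩
      rw [if_neg h1, zero_add, Finset.sum_eq_single_of_mem b hb]
      · rw [co_proj_of_mem]; exact hba
      · intro b' hb' hne
        apply co_proj_of_notMem
        intro hb'a
        exact Set.disjoint_left.mp (hconeDisj b' (hBiglen b' hb') b (hBiglen b hb) hne) hb'a hba
    · have h1 : a ∈ A := ha
      rw [if_pos h1, Finset.sum_eq_zero, add_zero]
      intro b hb
      apply co_proj_of_notMem
      intro hba
      exact ha ⟨b, hb, hba⟩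
  have hfx' : θ - η < f x' := by
    have h1 : f y = f x' + ∑ b ∈ Big, f (proj (Set.Ici b) y) := by
      conv_lhs => rw [hdecomp]
      rw [map_add, map_sum]
    have h2 : ∑ b ∈ Big, f (proj (Set.Ici b) y) ≤ (Big.card : ℝ) * δ := by
      calc ∑ b ∈ Big, f (proj (Set.Ici b) y) ≤ ∑ _b ∈ Big, δ := by
            refine Finset.sum_le_sum fun b hb => ?_
            have h3 := hN0 N (le_max_left _ _) b (hBiglen b hb) _ (proj_mem_Sup (Set.Ici b) y)
            have h4 : ‖proj (Set.Ici b) y‖ ≤ 1 :=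
              (norm_proj_le Set.ordConnected_Ici y).trans hy1
            calc f (proj (Set.Ici b) y) ≤ |f (proj (Set.Ici b) y)| := le_abs_self _
              _ ≤ δ * ‖proj (Set.Ici b) y‖ := h3
              _ ≤ δ * 1 := by gcongr
              _ = δ := mul_one _
        _ = (Big.card : ℝ) * δ := by rw [Finset.sum_const, nsmul_eq_mul]
    have h3 : (Big.card : ℝ) * δ ≤ η / 2 := by
      calc (Big.card : ℝ) * δ = η / 2 * ((Big.card : ℝ) * t ^ 2) := by rw [hδ]; ring
        _ ≤ η / 2 * 1 := by gcongr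
        _ = η / 2 := mul_one _
    linarith
  -- small cones
  have hsmall : ∀ b : Node, b.len = N → ‖proj (Set.Ici b) x'‖ ≤ t := by
    intro b hb
    by_cases hbB : b ∈ Big
    · have : proj (Set.Ici b) x' = 0 := by
        apply ext_co
        intro a
        rw [co_proj, hx', co_proj, co_zero]
        by_cases h1 : a ∈ Set.Ici b
        · have h2 : a ∉ A := fun h => h ⟨b, hbB, h1⟩
          rw [if_pos h1, if_neg h2]
        · rw [if_neg h1]
      rw [this, norm_zero]; exact htpos.le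
    · have h1 : proj (Set.Ici b) x' = proj (Set.Ici b) y := by
        apply ext_co
        intro a
        simp only [hx', co_proj]
        by_cases h1 : a ∈ Set.Ici b
        · have h2 : a ∈ A := by
            rintro ⟨b', hb', hb'a⟩
            have : b' = b := res_eq_of_le hb'a h1 (by rw [hBiglen b' hb', hb])
            rw [this] at hb'; exact hbB hb'
          rw [if_pos h1, if_pos h1, if_pos h2]
        · rw [if_neg h1, if_neg h1]
      rw [h1]
      by_contra hcon
      push Not at hcon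
      apply hbB
      rw [hBig, Finset.mem_filter, hL, Finset.mem_filter, mem_below]
      exact ⟨⟨by omega, hb⟩, hcon⟩
  refine ⟨x', Sup_mono (lvl_anti (le_max_right _ _)) hx'N, hx'1, hfx', ?_⟩
  have hsq : ‖x + x'‖ ^ 2 ≤ 3 := by
    apply norm_sq_le
    intro P hP
    have hs := sum_sq_le_norm_sq hP x
    have ht' := sum_sq_le_norm_sq hP x'
    have hs1 : ‖x‖ ^ 2 ≤ 1 := by nlinarith [norm_nonneg x]
    have ht1 : ‖x'‖ ^ 2 ≤ 1 := by nlinarith [norm_nonneg x']
    have hprod : ∑ p ∈ P, sumOn (Set.Icc p.1 p.2) x * sumOn (Set.Icc p.1 p.2) x' ≤ 1 / 2 := by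
      calc ∑ p ∈ P, sumOn (Set.Icc p.1 p.2) x * sumOn (Set.Icc p.1 p.2) x'
          ≤ ∑ p ∈ P, |sumOn (Set.Icc p.1 p.2) x| * t := by
            refine Finset.sum_le_sum fun p _ => ?_
            have h1 := abs_sumOn_Icc_le htpos.le hx'N hsmall p
            calc sumOn (Set.Icc p.1 p.2) x * sumOn (Set.Icc p.1 p.2) x'
                ≤ |sumOn (Set.Icc p.1 p.2) x * sumOn (Set.Icc p.1 p.2) x'| := le_abs_self _
              _ = |sumOn (Set.Icc p.1 p.2) x| * |sumOn (Set.Icc p.1 p.2) x'| := abs_mul _ _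
              _ ≤ |sumOn (Set.Icc p.1 p.2) x| * t := by gcongr
        _ = (∑ p ∈ P, |sumOn (Set.Icc p.1 p.2) x|) * t := by rw [Finset.sum_mul]
        _ ≤ l1 x * t := by
            gcongr
            exact sum_abs_sumOn_le P (fun p => Set.Icc p.1 p.2) hP.2 x
        _ ≤ 1 / 2 := by rw [mul_comm]; exact htl
    have hexp : ∑ p ∈ P, (sumOn (Set.Icc p.1 p.2) (x + x')) ^ 2 =
        ∑ p ∈ P, (sumOn (Set.Icc p.1 p.2) x) ^ 2 + ∑ p ∈ P, (sumOn (Set.Icc p.1 p.2) x') ^ 2 +
          2 * ∑ p ∈ P, sumOn (Set.Icc p.1 p.2) x * sumOn (Set.Icc p.1 p.2) x' := by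
      rw [Finset.mul_sum, ← Finset.sum_add_distrib, ← Finset.sum_add_distrib]
      exact Finset.sum_congr rfl fun p _ => by rw [map_add]; ring
    rw [hexp]
    linarith
  have h0 := norm_nonneg (x + x')
  nlinarith

/-! ### The structure theorem -/

lemma cf_tsum {g : (ℕ → Bool) → StrongDual ℝ (JFin Node)} (hg : Summable g) (τ : ℕ → Bool) :
    cf (∑' σ, g σ) τ = ∑' σ, cf (g σ) τ := by
  have := (cfL τ).map_tsum hg
  exact this

/-- Start levels making the tails of the branches in a countable set pairwise disjoint. -/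
lemma exists_levels (S : Set (ℕ → Bool)) (hS : S.Countable) :
    ∃ n : (ℕ → Bool) → ℕ, ∀ σ ∈ S, ∀ τ ∈ S, σ ≠ τ → Disjoint (tail σ (n σ)) (tail τ (n τ)) := by
  classical
  obtain ⟨g, hg⟩ := Set.countable_iff_exists_injOn.mp hS
  have hN : ∀ p : (ℕ → Bool) × (ℕ → Bool), ∃ n, p.1 ≠ p.2 → ∀ m, n ≤ m → res p.1 m ≠ res p.2 m := by
    rintro ⟨σ, τ⟩
    by_cases h : σ = τ
    · exact ⟨0, fun h' => absurd h h'⟩
    · obtain ⟨n, hn⟩ := exists_ne_level h
      exact ⟨n, fun _ => hn⟩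
  choose N hN using hN
  have hfin : ∀ σ, {τ | τ ∈ S ∧ g τ < g σ}.Finite := by
    intro σ
    apply Set.Finite.of_finite_image (f := g)
    · apply (Set.finite_lt_nat (g σ)).subset
      rintro _ ⟨τ, hτ, rfl⟩
      exact hτ.2
    · intro a ha b hb hab
      exact hg ha.1 hb.1 hab
  refine ⟨fun σ => (hfin σ).toFinset.sup fun τ => N (σ, τ), ?_⟩
  have hone : ∀ σ ∈ S, ∀ τ ∈ S, σ ≠ τ → g τ < g σ → ∀ k,
      Disjoint (tail σ ((hfin σ).toFinset.sup fun τ => N (σ, τ))) (tail τ k) := by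
    intro σ hσ τ hτ hne hlt k
    apply disjoint_tail (k := N (σ, τ)) (hN (σ, τ) hne _ (le_refl _))
    apply le_max_of_le_left
    have hmem : τ ∈ (hfin σ).toFinset := by
      rw [Set.Finite.mem_toFinset]; exact ⟨hτ, hlt⟩
    exact Finset.le_sup (f := fun τ => N (σ, τ)) hmem
  intro σ hσ τ hτ hne
  have hgne : g σ ≠ g τ := fun h => hne (hg hσ hτ h)
  rcases lt_or_gt_of_ne hgne with h | h
  · exact (hone τ hτ σ hσ hne.symm h _).symm
  · exact hone σ hσ τ hτ hne h _

/-- Structure theorem of `JT*`. -/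
theorem structure_thm (f : StrongDual ℝ (JFin Node)) {ε : ℝ} (hε : 0 < ε) :
    ∃ H0 : Finset (ℕ → Bool), ∀ H : Finset (ℕ → Bool), H0 ⊆ H → ∃ m0 : ℕ, ∀ m, m0 ≤ m →
      ‖restr (lvl m) f - ∑ σ ∈ H, cf f σ • tb σ m‖ ≤ ε := by
  classical
  have hsum := summable_cf_sq f
  have hcount : (Function.support fun σ => cf f σ ^ 2).Countable := hsum.countable_support
  set S : Set (ℕ → Bool) := Function.support fun σ => cf f σ ^ 2 with hS
  have hSmem : ∀ σ, σ ∉ S → cf f σ = 0 := by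
    intro σ hσ
    by_contra h
    exact hσ (by rw [hS, Function.mem_support]; positivity)
  obtain ⟨n, hn⟩ := exists_levels S hcount
  set g : (ℕ → Bool) → StrongDual ℝ (JFin Node) := fun σ => cf f σ • tb σ (n σ) with hg
  -- norms of finite sums
  have hnorm : ∀ t : Finset (ℕ → Bool), ‖∑ σ ∈ t, g σ‖ ≤ Real.sqrt (∑ σ ∈ t, cf f σ ^ 2) := by
    intro t
    have h1 : ∑ σ ∈ t, g σ = ∑ σ ∈ t.filter (· ∈ S), g σ := by
      symm
      apply Finset.sum_subset (Finset.filter_subset _ _)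
      intro σ hσ hσ'
      have : σ ∉ S := fun h => hσ' (Finset.mem_filter.mpr ⟨hσ, h⟩)
      simp [hg, hSmem σ this]
    rw [h1]
    refine (norm_sum_smul_tb_le (t.filter (· ∈ S)) (fun σ => σ) n ?_ (fun σ => cf f σ)).trans ?_
    · intro σ hσ τ hτ hne
      exact hn σ (Finset.mem_filter.mp hσ).2 τ (Finset.mem_filter.mp hτ).2 hne
    · apply Real.sqrt_le_sqrt
      exact Finset.sum_le_sum_of_subset_of_nonneg (Finset.filter_subset _ _)
        fun _ _ _ => sq_nonneg _
  have hvan : ∀ δ > 0, ∃ s : Finset (ℕ → Bool), ∀ t, Disjoint t s → ‖∑ σ ∈ t, g σ‖ < δ := by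
    intro δ hδ
    obtain ⟨s, hs⟩ := summable_iff_vanishing_norm.mp hsum (δ ^ 2) (by positivity)
    refine ⟨s, fun t ht => (hnorm t).trans_lt ?_⟩
    have h1 := hs t ht
    rw [Real.norm_eq_abs] at h1
    rw [Real.sqrt_lt' hδ]
    exact (le_abs_self _).trans_lt h1
  have hgsum : Summable g := summable_iff_vanishing_norm.mpr hvan
  set h : StrongDual ℝ (JFin Node) := ∑' σ, g σ with hh
  have hcfh : ∀ τ, cf h τ = cf f τ := by
    intro τ
    rw [hh, cf_tsum hgsum]
    have h1 : ∀ σ, cf (g σ) τ = if σ = τ then cf f τ else 0 := by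
      intro σ
      rw [hg]
      simp only
      rw [cf_smul, cf_tb]
      by_cases hστ : σ = τ
      · subst hστ; simp
      · have : τ ≠ σ := fun h => hστ h.symm
        simp [this, hστ]
    simp only [h1]
    rw [tsum_ite_eq]
  have hcf0 : ∀ τ, cf (f - h) τ = 0 := by
    intro τ; rw [cf_sub, hcfh, sub_self]
  obtain ⟨n1, hn1⟩ := small_of_cf_zero (f - h) hcf0 (half_pos hε)
  obtain ⟨s, hs⟩ := hvan (ε / 2) (half_pos hε)
  refine ⟨s, fun H hH => ⟨max n1 (H.sup n), fun m hm => ?_⟩⟩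
  have hm1 : n1 ≤ m := (le_max_left _ _).trans hm
  have hm2 : ∀ σ ∈ H, n σ ≤ m := fun σ hσ =>
    (Finset.le_sup (f := n) hσ).trans ((le_max_right _ _).trans hm)
  have h2 : ‖h - ∑ σ ∈ H, g σ‖ ≤ ε / 2 := by
    have hlim : Filter.Tendsto (fun t : Finset (ℕ → Bool) => ‖∑ σ ∈ t, g σ - ∑ σ ∈ H, g σ‖)
        Filter.atTop (nhds ‖h - ∑ σ ∈ H, g σ‖) := (hgsum.hasSum.sub_const _).norm
    refine le_of_tendsto hlim ?_
    filter_upwards [Filter.eventually_ge_atTop H] with t ht
    rw [← Finset.sum_sdiff ht, add_sub_cancel_right]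
    refine (hs _ ?_).le
    exact (Finset.sdiff_disjoint).mono_right hH
  have h3 : restr (lvl m) (∑ σ ∈ H, g σ) = ∑ σ ∈ H, cf f σ • tb σ m := by
    rw [restr_sum]
    refine Finset.sum_congr rfl fun σ hσ => ?_
    rw [hg]
    simp only
    rw [restr_smul, restr_lvl_tb, max_eq_right (hm2 σ hσ)]
  have h4 : restr (lvl m) f - ∑ σ ∈ H, cf f σ • tb σ m =
      restr (lvl m) (f - h) + restr (lvl m) (h - ∑ σ ∈ H, g σ) := by
    rw [restr_sub, restr_sub, h3]; abel
  rw [h4]
  calc _ ≤ ‖restr (lvl m) (f - h)‖ + ‖restr (lvl m) (h - ∑ σ ∈ H, g σ)‖ := norm_add_le _ _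
    _ ≤ ε / 2 + ε / 2 := by
        gcongr
        · exact hn1 m hm1
        · exact (norm_restr_le _ _).trans h2
    _ = ε := by ring

end JTree
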