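import Pool.Agent.Work.MP_245e03_an.Structure
import Pool.Agent.Work.MP_245e03_an.Embed

/-!
# Tools for the upper estimates.
-/

open scoped BigOperators
open Finset

namespace JTree

/-- The `ℓ₂` norm over a finite set. -/
noncomputable def n2 {ι : Type*} (s : Finset ι) (F : ι → ℝ) : ℝ := Real.sqrt (∑ i ∈ s, F i ^ 2)

section
variable {ι : Type*}

lemma n2_nonneg (s : Finset ι) (F : ι → ℝ) : 0 ≤ n2 s F := Real.sqrt_nonneg _

lemma n2_sq (s : Finset ι) (F : ι → ℝ) : n2 s F ^ 2 = ∑ i ∈ s, F i ^ 2 :=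
  Real.sq_sqrt (Finset.sum_nonneg fun _ _ => sq_nonneg _)

lemma n2_add_le (s : Finset ι) (F G : ι → ℝ) : n2 s (fun i => F i + G i) ≤ n2 s F + n2 s G :=
  sqrt_sum_add_sq_le s F G

lemma n2_neg (s : Finset ι) (F : ι → ℝ) : n2 s (fun i => - F i) = n2 s F := by
  unfold n2; simp

lemma n2_sub_le (s : Finset ι) (F G : ι → ℝ) : n2 s (fun i => F i - G i) ≤ n2 s F + n2 s G := by
  have := n2_add_le s F (fun i => - G i)
  rw [n2_neg] at this
  simpa only [sub_eq_add_neg] using this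

lemma n2_congr {s : Finset ι} {F G : ι → ℝ} (h : ∀ i ∈ s, F i = G i) : n2 s F = n2 s G := by
  unfold n2
  rw [Finset.sum_congr rfl fun i hi => by rw [h i hi]]

lemma n2_le_of_sq {s : Finset ι} {F : ι → ℝ} {D : ℝ} (hD : 0 ≤ D)
    (h : ∑ i ∈ s, F i ^ 2 ≤ D ^ 2) : n2 s F ≤ D := by
  unfold n2
  rw [Real.sqrt_le_left hD]
  exact h

lemma n2_mono {s : Finset ι} {F G : ι → ℝ} (h : ∀ i ∈ s, |F i| ≤ |G i|) : n2 s F ≤ n2 s G := by
  unfold n2
  apply Real.sqrt_le_sqrt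
  exact Finset.sum_le_sum fun i hi => sq_le_sq.mpr (h i hi)

lemma n2_le_sum_abs (s : Finset ι) (F : ι → ℝ) : n2 s F ≤ ∑ i ∈ s, |F i| := by
  apply n2_le_of_sq (Finset.sum_nonneg fun _ _ => abs_nonneg _)
  calc ∑ i ∈ s, F i ^ 2 = ∑ i ∈ s, |F i| ^ 2 := Finset.sum_congr rfl fun i _ => (sq_abs _).symm
    _ ≤ (∑ i ∈ s, |F i|) ^ 2 := Finset.sum_sq_le_sq_sum_of_nonneg fun i _ => abs_nonneg _

lemma sum_sq_le_of_n2 {s : Finset ι} {F : ι → ℝ} {D : ℝ} (h : n2 s F ≤ D) :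
    ∑ i ∈ s, F i ^ 2 ≤ D ^ 2 := by
  rw [← n2_sq]
  have := n2_nonneg s F
  gcongr

end

section
variable {T : Type*} [PartialOrder T] [TreeLike T]

/-- Double families of pairwise disjoint segments with square summable coefficients. -/
theorem n2_famsum_le {ι κ : Type*} (s : Finset ι) (K : ι → Finset κ) (A : ι → κ → Set T)
    (hA : ∀ i ∈ s, ∀ k ∈ K i, IsSeg (A i k))
    (hd : ∀ i ∈ s, ∀ k ∈ K i, ∀ j ∈ s, ∀ l ∈ K j, (i ≠ j ∨ k ≠ l) → Disjoint (A i k) (A j l))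
    (c : ι → κ → ℝ) {D : ℝ} (hD : 0 ≤ D) (hc : ∀ i ∈ s, ∑ k ∈ K i, c i k ^ 2 ≤ D ^ 2)
    (x : JFin T) :
    n2 s (fun i => ∑ k ∈ K i, c i k * sumOn (A i k) x) ≤ D * ‖x‖ := by
  classical
  apply n2_le_of_sq (by positivity)
  have h1 : ∀ i ∈ s, (∑ k ∈ K i, c i k * sumOn (A i k) x) ^ 2 ≤
      D ^ 2 * ∑ k ∈ K i, (sumOn (A i k) x) ^ 2 := by
    intro i hi
    calc _ ≤ (∑ k ∈ K i, c i k ^ 2) * (∑ k ∈ K i, (sumOn (A i k) x) ^ 2) :=
          Finset.sum_mul_sq_le_sq_mul_sq _ _ _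
      _ ≤ _ := by
          have := hc i hi
          gcongr
  have h2 : ∑ i ∈ s, ∑ k ∈ K i, (sumOn (A i k) x) ^ 2 ≤ ‖x‖ ^ 2 := by
    rw [Finset.sum_sigma' s K (fun i k => (sumOn (A i k) x) ^ 2)]
    apply sum_sumOn_sq_le (s.sigma K) (fun ik : (Σ _ : ι, κ) => A ik.1 ik.2)
    · rintro ⟨i, k⟩ hik
      rw [Finset.mem_sigma] at hik
      exact hA i hik.1 k hik.2
    · rintro ⟨i, k⟩ hik ⟨j, l⟩ hjl hne
      rw [Finset.mem_sigma] at hik hjl
      apply hd i hik.1 k hik.2 j hjl.1 l hjl.2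
      by_cases hij : i = j
      · right
        subst hij
        intro hkl
        exact hne (by rw [hkl])
      · left; exact hij
  calc ∑ i ∈ s, (∑ k ∈ K i, c i k * sumOn (A i k) x) ^ 2
      ≤ ∑ i ∈ s, D ^ 2 * ∑ k ∈ K i, (sumOn (A i k) x) ^ 2 := Finset.sum_le_sum h1
    _ = D ^ 2 * ∑ i ∈ s, ∑ k ∈ K i, (sumOn (A i k) x) ^ 2 := by rw [Finset.mul_sum]
    _ ≤ D ^ 2 * ‖x‖ ^ 2 := by gcongr
    _ = (D * ‖x‖) ^ 2 := by ring

/-- Functionals living on pairwise disjoint convex sets. -/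
theorem n2_restr_le {ι : Type*} (s : Finset ι) (A : ι → Set T)
    (hA : ∀ i ∈ s, (A i).OrdConnected)
    (hd : ∀ i ∈ s, ∀ j ∈ s, i ≠ j → Disjoint (A i) (A j))
    (f : ι → StrongDual ℝ (JFin T)) {D : ℝ} (hD : 0 ≤ D) (hf : ∀ i ∈ s, ‖f i‖ ≤ D)
    (x : JFin T) :
    n2 s (fun i => restr (A i) (f i) x) ≤ D * ‖x‖ := by
  apply n2_le_of_sq (by positivity)
  calc ∑ i ∈ s, (restr (A i) (f i) x) ^ 2
      ≤ ∑ i ∈ s, D ^ 2 * ‖proj (A i) x‖ ^ 2 := by
        refine Finset.sum_le_sum fun i hi => ?_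
        rw [restr_apply (hA i hi), ← mul_pow, ← sq_abs]
        have h1 : |f i (proj (A i) x)| ≤ D * ‖proj (A i) x‖ := by
          rw [← Real.norm_eq_abs]
          calc _ ≤ ‖f i‖ * ‖proj (A i) x‖ := ContinuousLinearMap.le_opNorm _ _
            _ ≤ _ := by have := hf i hi; gcongr
        gcongr
    _ = D ^ 2 * ∑ i ∈ s, ‖proj (A i) x‖ ^ 2 := by rw [Finset.mul_sum]
    _ ≤ D ^ 2 * ‖x‖ ^ 2 := by
        gcongr
        exact sum_norm_proj_sq_le s A hA hd x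
    _ = (D * ‖x‖) ^ 2 := by ring

lemma abs_apply_le (f : StrongDual ℝ (JFin T)) (x : JFin T) : |f x| ≤ ‖f‖ * ‖x‖ := by
  rw [← Real.norm_eq_abs]; exact ContinuousLinearMap.le_opNorm _ _

lemma abs_apply_e_le (f : StrongDual ℝ (JFin T)) (a : T) : |f (e a)| ≤ ‖f‖ := by
  calc _ ≤ ‖f‖ * ‖(e a : JFin T)‖ := abs_apply_le f _
    _ ≤ ‖f‖ * 1 := by gcongr; exact norm_e _
    _ = ‖f‖ := mul_one _

end

lemma restr_lvl_eq_add (f : StrongDual ℝ (JFin Node)) {m n : ℕ} (h : m ≤ n) :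
    restr (lvl m) f = restr (band m n) f + restr (lvl n) f := by
  ext x
  rw [ContinuousLinearMap.add_apply, restr_apply (ordConnected_lvl m),
    restr_apply (ordConnected_band m n), restr_apply (ordConnected_lvl n), ← map_add]
  congr 1
  classical
  apply ext_co
  intro a
  simp only [co_add, co_proj, mem_lvl, mem_band]
  by_cases h1 : m ≤ a.len
  · by_cases h2 : a.len < n
    · have h3 : ¬ n ≤ a.len := by omega
      simp [h1, h2, h3]
    · have h3 : n ≤ a.len := by omega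
      simp [h1, h2, h3]
  · have h3 : ¬ n ≤ a.len := by omega
    simp [h1, h3]

lemma restr_band_e_of_notMem (f : StrongDual ℝ (JFin Node)) {m n : ℕ} {a : Node}
    (h : a ∉ band m n) : restr (band m n) f (e a) = 0 := by
  classical
  rw [restr_apply (ordConnected_band m n)]
  have : proj (band m n) (e a) = 0 := by
    apply ext_co
    intro b
    rw [co_proj, co_e, co_zero]
    split_ifs with h1 h2
    · subst h2; exact absurd h1 h
    · rfl
    · rfl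
  rw [this, map_zero]

open Classical in
lemma tb_e (σ : ℕ → Bool) (m : ℕ) (a : Node) :
    tb σ m (e a) = if a ∈ tail σ m then 1 else 0 := by
  rw [tb_apply, sumOn_e]

/-- The part of the branch `σ` with levels in `[m, n)`. -/
def tband (σ : ℕ → Bool) (m n : ℕ) : Set Node := tail σ m ∩ band m n

lemma isSeg_tband (σ : ℕ → Bool) (m n : ℕ) : IsSeg (tband σ m n) :=
  (isSeg_tail σ m).inter (ordConnected_band m n)

lemma sumOn_tail_eq (σ : ℕ → Bool) {m n : ℕ} (h : m ≤ n) (x : JFin Node) :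
    sumOn (tail σ m) x = sumOn (tband σ m n) x + sumOn (tail σ n) x := by
  rw [← sumOn_union]
  · apply sumOn_congr
    intro a _
    simp only [tband, Set.mem_union, Set.mem_inter_iff, mem_tail, mem_band]
    constructor
    · rintro ⟨h1, h2⟩
      by_cases h3 : a.len < n
      · exact Or.inl ⟨⟨h1, h2⟩, h1, h3⟩
      · exact Or.inr ⟨by omega, h2⟩
    · rintro (⟨h1, _⟩ | ⟨h1, h2⟩)
      · exact h1
      · exact ⟨by omega, h2⟩
  · rw [Set.disjoint_left]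
    rintro a ⟨_, _, h1⟩ ⟨h2, _⟩
    omega

lemma tband_subset_tail (σ : ℕ → Bool) (m n : ℕ) : tband σ m n ⊆ tail σ m := Set.inter_subset_left

lemma tband_subset_band (σ : ℕ → Bool) (m n : ℕ) : tband σ m n ⊆ band m n := Set.inter_subset_right

end JTree
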