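import Pool.Agent.Work.MP_245e03_an.Statement
import Pool.Agent.Work.MP_245e03_an.Q1Core
import Pool.Agent.Work.MP_245e03_an.JB

/-!
# Transfer to the completions.
-/

open scoped BigOperators

namespace JTree

section
variable {E : Type*} [NormedAddCommGroup E] [NormedSpace ℝ E]

/-- Restriction of functionals from the completion. -/
noncomputable def rhoFun (f : StrongDual ℝ (UniformSpace.Completion E)) : StrongDual ℝ E :=
  f.comp (UniformSpace.Completion.toComplL (𝕜 := ℝ))

lemma rhoFun_apply (f : StrongDual ℝ (UniformSpace.Completion E)) (x : E) :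
    rhoFun f x = f (x : UniformSpace.Completion E) := rfl

lemma norm_rhoFun (f : StrongDual ℝ (UniformSpace.Completion E)) : ‖rhoFun f‖ = ‖f‖ := by
  apply le_antisymm
  · apply ContinuousLinearMap.opNorm_le_bound _ (norm_nonneg _)
    intro x
    rw [rhoFun_apply]
    calc _ ≤ ‖f‖ * ‖(x : UniformSpace.Completion E)‖ := ContinuousLinearMap.le_opNorm _ _
      _ = ‖f‖ * ‖x‖ := by rw [UniformSpace.Completion.norm_coe]
  · apply ContinuousLinearMap.opNorm_le_bound _ (norm_nonneg _)
    intro y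
    induction y using UniformSpace.Completion.induction_on with
    | hp => exact isClosed_le (f.continuous.norm) (continuous_const.mul continuous_norm)
    | ih x =>
      rw [← rhoFun_apply, UniformSpace.Completion.norm_coe]
      exact ContinuousLinearMap.le_opNorm _ _

lemma rhoFun_surj (g : StrongDual ℝ E) :
    ∃ f : StrongDual ℝ (UniformSpace.Completion E), rhoFun f = g := by
  refine ⟨g.extend (UniformSpace.Completion.toComplL (𝕜 := ℝ)), ?_⟩
  ext x
  rw [rhoFun_apply]
  exact ContinuousLinearMap.extend_eq g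
    (UniformSpace.Completion.denseRange_coe) (UniformSpace.Completion.isUniformInducing_coe E) x

/-- The dual of the completion is isometric to the dual. -/
theorem exists_rho : ∃ ρ : StrongDual ℝ (UniformSpace.Completion E) ≃ₗᵢ[ℝ] StrongDual ℝ E,
    ∀ f x, ρ f x = f (x : UniformSpace.Completion E) := by
  let L : StrongDual ℝ (UniformSpace.Completion E) →ₗᵢ[ℝ] StrongDual ℝ E :=
    { toFun := rhoFun
      map_add' := fun f g => by ext x; rfl
      map_smul' := fun r f => by ext x; rfl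
      norm_map' := norm_rhoFun }
  refine ⟨LinearIsometryEquiv.ofSurjective L (fun g => rhoFun_surj g), fun f x => rfl⟩

end

section
variable {E F : Type} [NormedAddCommGroup E] [NormedSpace ℝ E] [CompleteSpace E]
  [NormedAddCommGroup F] [NormedSpace ℝ F] [CompleteSpace F]

lemma containsCopy_of_map (Y : Submodule ℝ E) (T : F →L[ℝ] E) (hT : ∀ f, T f ∈ Y)
    {c : ℝ} (hc : 0 < c) (h : ∀ f, c * ‖f‖ ≤ ‖T f‖) : ContainsCopy Y F := by
  have hanti : AntilipschitzWith (Real.toNNReal c⁻¹) T := by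
    apply ContinuousLinearMap.antilipschitz_of_bound
    intro f
    rw [Real.coe_toNNReal _ (inv_nonneg.mpr hc.le), ← div_eq_inv_mul, le_div_iff₀ hc, mul_comm]
    exact h f
  have hcl : IsClosed (Set.range T) := hanti.isClosed_range T.uniformContinuous
  have hinj : Function.Injective T := hanti.injective
  refine ⟨LinearMap.range (T : F →ₗ[ℝ] E), ?_, ?_, ?_⟩
  · rintro _ ⟨f, rfl⟩
    exact hT f
  · exact hcl
  · exact ⟨T.equivRange hinj hcl⟩

theorem Q1_abs (ρ : E ≃ₗᵢ[ℝ] StrongDual ℝ (JFin Node)) (ρ' : F ≃ₗᵢ[ℝ] StrongDual ℝ (JFin ℕ))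
    (Y : Submodule ℝ E) (hY : IsClosed (Y : Set E)) (hnr : ¬ IsReflexiveSpace Y) :
    ContainsCopy Y F := by
  haveI : CompleteSpace Y := hY.completeSpace_coe
  set j : Y →ₗᵢ[ℝ] StrongDual ℝ (JFin Node) := ρ.toLinearIsometry.comp Y.subtypeₗᵢ with hj
  have hrange : IsClosed (Set.range j) :=
    (j.isometry.isUniformInducing.isComplete_range).isClosed
  have hnr' : ¬ Function.Surjective (NormedSpace.inclusionInDoubleDual ℝ Y) := by
    intro h
    apply hnr
    intro Φ
    obtain ⟨w, hw⟩ := h Φ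
    exact ⟨w, fun f => by rw [← hw]; rfl⟩
  obtain ⟨S, ⟨c, hc, hS1⟩, hS2⟩ := Q1_core j hrange hnr'
  obtain ⟨Θ, hΘ⟩ := exists_theta
  set T : F →L[ℝ] E := (ρ.symm.toContinuousLinearEquiv : StrongDual ℝ (JFin Node) →L[ℝ] E).comp
    (S.comp (Θ.comp (ρ'.toContinuousLinearEquiv : F →L[ℝ] StrongDual ℝ (JFin ℕ)))) with hT
  have hTapp : ∀ f, T f = ρ.symm (S (Θ (ρ' f))) := fun f => rfl
  refine containsCopy_of_map Y T ?_ (c := c / 2) (by positivity) ?_
  · intro f
    obtain ⟨y, hy⟩ := hS2 (Θ (ρ' f))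
    rw [hTapp, ← hy]
    have : ρ.symm (j y) = (y : E) := by
      rw [hj]
      show ρ.symm (ρ (y : E)) = y
      rw [LinearIsometryEquiv.symm_apply_apply]
    rw [this]
    exact y.2
  · intro f
    rw [hTapp, LinearIsometryEquiv.norm_map]
    have h1 := hS1 (Θ (ρ' f))
    have h2 := hΘ (ρ' f)
    rw [LinearIsometryEquiv.norm_map] at h2
    calc c / 2 * ‖f‖ ≤ c / 2 * (2 * ‖Θ (ρ' f)‖) := by gcongr
      _ = c * ‖Θ (ρ' f)‖ := by ring
      _ ≤ _ := h1

end

instance (T : Type) [PartialOrder T] : CompleteSpace (JDual T) :=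
  inferInstanceAs (CompleteSpace (StrongDual ℝ (JSpace T)))

/-- The dual of the completion is isometric to the dual of the finitely supported functions. -/
theorem exists_rhoJ (T : Type) [PartialOrder T] :
    ∃ ρ : JDual T ≃ₗᵢ[ℝ] StrongDual ℝ (JFin T), ∀ (f : JDual T) (x : JFin T),
      ρ f x = f.eval (toJSpace x) := by
  obtain ⟨ρ, hρ⟩ := exists_rho (E := JFin T)
  exact ⟨ρ, hρ⟩

theorem Q1_final (Y : Submodule ℝ (JDual Node)) (hY : IsClosed (Y : Set (JDual Node)))
    (hnr : ¬ IsReflexiveSpace Y) : ContainsCopy Y (JDual ℕ) := by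
  obtain ⟨ρ, _⟩ := exists_rhoJ Node
  obtain ⟨ρ', _⟩ := exists_rhoJ ℕ
  exact Q1_abs ρ ρ' Y hY hnr

end JTree
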