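import Pool.Agent.Work.MP_245e03_an.Transfer
import Pool.Agent.Work.MP_245e03_an.Q2Rec

/-!
# Transfer of Q2 to the completion.
-/

open scoped BigOperators

namespace JTree

lemma rho_biorth {ρ : JDual Node ≃ₗᵢ[ℝ] StrongDual ℝ (JFin Node)}
    (hρ : ∀ (f : JDual Node) (x : JFin Node), ρ f x = f.eval (toJSpace x)) {φ : JDual Node}
    (hφ : φ ∈ biorth) : ∃ a, ρ φ = estar a := by
  classical
  obtain ⟨a, h1, h2⟩ := hφ
  refine ⟨a, ?_⟩
  ext x
  rw [estar_apply]
  have hx := eq_sum_e x
  have h3 : ∀ b, ρ φ (e b) = if b = a then 1 else 0 := by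
    intro b
    rw [hρ]
    split_ifs with h
    · subst h; exact h1
    · exact h2 b h
  calc ρ φ x = ρ φ (∑ b ∈ supp x, co x b • e b) := by rw [← hx]
    _ = ∑ b ∈ supp x, co x b * (if b = a then 1 else 0) := by
        rw [map_sum]
        refine Finset.sum_congr rfl fun b _ => ?_
        rw [map_smul, h3, smul_eq_mul]
    _ = co x a := by
        by_cases ha : a ∈ supp x
        · rw [Finset.sum_eq_single_of_mem a ha]
          · simp
          · intro b _ hb; simp [hb]
        · rw [Finset.sum_eq_zero]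
          · by_contra h; exact ha (mem_supp.mpr (Ne.symm h))
          · intro b hb
            have : b ≠ a := by rintro rfl; exact ha hb
            simp [this]

lemma rho_predual {ρ : JDual Node ≃ₗᵢ[ℝ] StrongDual ℝ (JFin Node)}
    (hρ : ∀ (f : JDual Node) (x : JFin Node), ρ f x = f.eval (toJSpace x)) {φ : JDual Node}
    (hφ : φ ∈ predual) : ρ φ ∈ BSpace Node := by
  have h1 : predual ≤ (BSpace Node).comap (ρ.toLinearEquiv : JDual Node →ₗ[ℝ] _) := by
    apply Submodule.topologicalClosure_minimal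
    · rw [Submodule.span_le]
      intro ψ hψ
      obtain ⟨a, ha⟩ := rho_biorth hρ hψ
      show ρ ψ ∈ BSpace Node
      rw [ha]
      exact estar_mem Node a
    · exact (Submodule.isClosed_topologicalClosure _).preimage ρ.continuous
  exact h1 hφ

section
variable {E F : Type} [NormedAddCommGroup E] [NormedSpace ℝ E] [CompleteSpace E]
  [NormedAddCommGroup F] [NormedSpace ℝ F] [CompleteSpace F]

theorem Q2_abs (ρ : E ≃ₗᵢ[ℝ] StrongDual ℝ (JFin Node))
    (ρB : F →L[ℝ] BSpace Node) (hρB : ∀ f, ‖f‖ ≤ ‖ρB f‖)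
    (Y : Submodule ℝ E) (hY : IsClosed (Y : Set E))
    (hsep : ¬ TopologicalSpace.IsSeparable (Y : Set E)) :
    ContainsCopy Y F := by
  set Y' : Submodule ℝ (StrongDual ℝ (JFin Node)) := Y.map (ρ.toLinearEquiv : E →ₗ[ℝ] _) with hY'
  have hmem : ∀ g, g ∈ Y' ↔ ρ.symm g ∈ Y := by
    intro g
    constructor
    · rintro ⟨y, hy, rfl⟩
      show ρ.symm (ρ y) ∈ Y
      rw [LinearIsometryEquiv.symm_apply_apply]; exact hy
    · intro h
      exact ⟨ρ.symm g, h, ρ.apply_symm_apply g⟩
  have hcl : IsClosed (Y' : Set (StrongDual ℝ (JFin Node))) := by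
    have : (Y' : Set (StrongDual ℝ (JFin Node))) = ρ.symm ⁻¹' (Y : Set E) := by
      ext g; exact hmem g
    rw [this]
    exact hY.preimage ρ.symm.continuous
  have hsep' : ¬ TopologicalSpace.IsSeparable (Y' : Set (StrongDual ℝ (JFin Node))) := by
    intro h
    apply hsep
    have : (Y : Set E) = ρ.symm '' (Y' : Set (StrongDual ℝ (JFin Node))) := by
      ext y
      constructor
      · intro hy
        exact ⟨ρ y, ⟨y, hy, rfl⟩, ρ.symm_apply_apply y⟩
      · rintro ⟨g, hg, rfl⟩
        exact (hmem g).mp hg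
    rw [this]
    exact h.image ρ.symm.continuous
  obtain ⟨S, ⟨c, hc, hS1⟩, hS2⟩ := Q2_core Y' hcl hsep'
  set T : F →L[ℝ] E := (ρ.symm.toContinuousLinearEquiv : StrongDual ℝ (JFin Node) →L[ℝ] E).comp
    (S.comp ρB) with hT
  have hTapp : ∀ f, T f = ρ.symm (S (ρB f)) := fun f => rfl
  refine containsCopy_of_map Y T ?_ (c := c) hc ?_
  · intro f
    rw [hTapp]
    exact (hmem _).mp (hS2 _)
  · intro f
    rw [hTapp, LinearIsometryEquiv.norm_map]
    calc c * ‖f‖ ≤ c * ‖ρB f‖ := by gcongr; exact hρB f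
      _ ≤ _ := hS1 _

end

instance : CompleteSpace predual :=
  (Submodule.isClosed_topologicalClosure _).completeSpace_coe

theorem Q2_final (Y : Submodule ℝ (JDual Node)) (hY : IsClosed (Y : Set (JDual Node)))
    (hsep : ¬ TopologicalSpace.IsSeparable (Y : Set (JDual Node))) :
    ContainsCopy Y predual := by
  obtain ⟨ρ, hρ⟩ := exists_rhoJ Node
  set ρB : predual →L[ℝ] BSpace Node :=
    ContinuousLinearMap.codRestrict
      ((ρ.toContinuousLinearEquiv : JDual Node →L[ℝ] StrongDual ℝ (JFin Node)).comp predual.subtypeL)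
      (BSpace Node) (fun φ => rho_predual hρ φ.2) with hρB
  refine Q2_abs ρ ρB ?_ Y hY hsep
  intro f
  have h1 : ‖ρB f‖ = ‖ρ (f : JDual Node)‖ := rfl
  rw [h1, LinearIsometryEquiv.norm_map]
  exact le_refl _

end JTree
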