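import Pool.Agent.Work.MP_245e03_an.Proj

/-!
# The dyadic tree: branches, levels, tails.
-/

open scoped BigOperators
open Finset

namespace JTree

namespace Node

lemma le_def {a b : Node} : a ≤ b ↔ List.IsPrefix (show List Bool from a) (show List Bool from b) :=
  Iff.rfl

lemma len_mono {a b : Node} (h : a ≤ b) : a.len ≤ b.len := List.IsPrefix.length_le h

lemma eq_of_le_of_len {a b : Node} (h : a ≤ b) (hl : b.len ≤ a.len) : a = b :=
  List.IsPrefix.eq_of_length h (le_antisymm (len_mono h) hl)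

lemma len_lt_of_lt {a b : Node} (h : a < b) : a.len < b.len := by
  by_contra h'
  exact h.ne (eq_of_le_of_len h.le (not_lt.mp h'))

end Node

/-- The node `σ|n`. -/
def res (σ : ℕ → Bool) (n : ℕ) : Node := ((List.range n).map σ : List Bool)

@[simp] lemma len_res (σ : ℕ → Bool) (n : ℕ) : (res σ n).len = n := by
  unfold res Node.len
  simp

lemma res_mono (σ : ℕ → Bool) {m n : ℕ} (h : m ≤ n) : res σ m ≤ res σ n := by
  show List.IsPrefix ((List.range m).map σ) ((List.range n).map σ)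
  apply List.IsPrefix.map
  rw [List.prefix_iff_eq_take]
  simp [List.take_range, h]

lemma res_eq_of_le {a b : Node} {c : Node} (h1 : a ≤ c) (h2 : b ≤ c) (hl : a.len = b.len) :
    a = b := by
  rcases TreeLike.comp_of_le h1 h2 with h | h
  · exact Node.eq_of_le_of_len h hl.ge
  · exact (Node.eq_of_le_of_len h hl.le).symm

lemma le_res_iff {σ : ℕ → Bool} {a : Node} {n : ℕ} :
    a ≤ res σ n ↔ a.len ≤ n ∧ a = res σ a.len := by
  constructor
  · intro h
    have h1 : a.len ≤ n := by simpa using Node.len_mono h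
    exact ⟨h1, res_eq_of_le h (res_mono σ h1) (by simp)⟩
  · rintro ⟨h1, h2⟩
    rw [h2]
    exact res_mono σ (by simpa using h1)

lemma res_succ (σ : ℕ → Bool) (n : ℕ) :
    (show List Bool from res σ (n + 1)) = (show List Bool from res σ n) ++ [σ n] := by
  show (List.range (n + 1)).map σ = (List.range n).map σ ++ [σ n]
  rw [List.range_succ, List.map_append]
  rfl

lemma res_eq_res_iff {σ τ : ℕ → Bool} {n : ℕ} : res σ n = res τ n ↔ ∀ i < n, σ i = τ i := by
  unfold res
  show (List.range n).map σ = (List.range n).map τ ↔ _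
  rw [List.map_inj_left]
  simp

lemma res_eq_of_ge {σ τ : ℕ → Bool} {m n : ℕ} (hmn : m ≤ n) (h : res σ n = res τ n) :
    res σ m = res τ m := by
  rw [res_eq_res_iff] at *
  exact fun i hi => h i (hi.trans_le hmn)

lemma exists_res_eq (a : Node) : ∃ σ : ℕ → Bool, res σ a.len = a := by
  refine ⟨fun i => (show List Bool from a).getD i false, ?_⟩
  show (List.range (List.length (show List Bool from a))).map _ = (show List Bool from a)
  apply List.ext_getElem
  · simp
  · intro i h1 h2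
    simp only [List.getElem_map, List.getElem_range]
    exact (List.getElem_eq_getD false).symm

lemma exists_ne_level {σ τ : ℕ → Bool} (h : σ ≠ τ) : ∃ n, ∀ m, n ≤ m → res σ m ≠ res τ m := by
  obtain ⟨i, hi⟩ := Function.ne_iff.mp h
  refine ⟨i + 1, fun m hm heq => hi ?_⟩
  exact res_eq_res_iff.mp heq i (by omega)

/-- Finitely many distinct branches are separated at all high levels. -/
lemma exists_sep (H : Finset (ℕ → Bool)) :
    ∃ n, ∀ m, n ≤ m → ∀ σ ∈ H, ∀ τ ∈ H, res σ m = res τ m → σ = τ := by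
  classical
  have : ∀ p : (ℕ → Bool) × (ℕ → Bool), ∃ n, ∀ m, n ≤ m → res p.1 m = res p.2 m → p.1 = p.2 := by
    rintro ⟨σ, τ⟩
    by_cases h : σ = τ
    · exact ⟨0, fun _ _ _ => h⟩
    · obtain ⟨n, hn⟩ := exists_ne_level h
      exact ⟨n, fun m hm heq => absurd heq (hn m hm)⟩
  choose N hN using this
  refine ⟨(H ×ˢ H).sup N, fun m hm σ hσ τ hτ heq => ?_⟩
  exact hN (σ, τ) m ((Finset.le_sup (f := N) (Finset.mk_mem_product hσ hτ)).trans hm) heq

/-- The levels `≥ m`. -/
def lvl (m : ℕ) : Set Node := {a | m ≤ a.len}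

lemma mem_lvl {m : ℕ} {a : Node} : a ∈ lvl m ↔ m ≤ a.len := Iff.rfl

lemma ordConnected_lvl (m : ℕ) : (lvl m).OrdConnected :=
  ⟨fun _ ha _ _ _ hc => le_trans ha (Node.len_mono hc.1)⟩

lemma lvl_anti {m n : ℕ} (h : m ≤ n) : lvl n ⊆ lvl m := fun _ ha => le_trans h ha

/-- The levels in `[m, n)`. -/
def band (m n : ℕ) : Set Node := {a | m ≤ a.len ∧ a.len < n}

lemma mem_band {m n : ℕ} {a : Node} : a ∈ band m n ↔ m ≤ a.len ∧ a.len < n := Iff.rfl

lemma ordConnected_band (m n : ℕ) : (band m n).OrdConnected :=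
  ⟨fun _ ha _ hb _ hc => ⟨le_trans ha.1 (Node.len_mono hc.1), lt_of_le_of_lt (Node.len_mono hc.2) hb.2⟩⟩

lemma disjoint_band {m n m' n' : ℕ} (h : n ≤ m') : Disjoint (band m n) (band m' n') := by
  rw [Set.disjoint_left]
  rintro a ⟨_, h1⟩ ⟨h2, _⟩
  omega

/-- The tail `{σ|l : l ≥ m}` of a branch. -/
def tail (σ : ℕ → Bool) (m : ℕ) : Set Node := {a | m ≤ a.len ∧ a = res σ a.len}

lemma mem_tail {σ : ℕ → Bool} {m : ℕ} {a : Node} : a ∈ tail σ m ↔ m ≤ a.len ∧ a = res σ a.len :=
  Iff.rfl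

lemma res_mem_tail {σ τ : ℕ → Bool} {m n : ℕ} : res τ n ∈ tail σ m ↔ m ≤ n ∧ res τ n = res σ n := by
  rw [mem_tail]; simp

lemma isSeg_tail (σ : ℕ → Bool) (m : ℕ) : IsSeg (tail σ m) := by
  constructor
  · constructor
    intro a ha b hb c hc
    refine ⟨le_trans ha.1 (Node.len_mono hc.1), ?_⟩
    have h1 : c ≤ res σ b.len := by rw [← hb.2]; exact hc.2
    exact (le_res_iff.mp h1).2
  · intro a ha b hb _
    rw [ha.2, hb.2]
    rcases le_total a.len b.len with h | h
    · left; exact res_mono σ h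
    · right; exact res_mono σ h

/-- The branch functional `x ↦ ∑_{l ≥ m} x (σ|l)`. -/
noncomputable def tb (σ : ℕ → Bool) (m : ℕ) : StrongDual ℝ (JFin Node) := bOn (tail σ m)

lemma tb_apply (σ : ℕ → Bool) (m : ℕ) (x : JFin Node) : tb σ m x = sumOn (tail σ m) x :=
  bOn_apply (isSeg_tail σ m) x

lemma tail_inter_lvl {σ : ℕ → Bool} {m n : ℕ} : tail σ m ∩ lvl n = tail σ (max m n) := by
  ext a
  simp only [Set.mem_inter_iff, mem_tail, mem_lvl]
  constructor
  · rintro ⟨⟨h1, h2⟩, h3⟩; exact ⟨max_le h1 h3, h2⟩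
  · rintro ⟨h1, h2⟩
    exact ⟨⟨(le_max_left _ _).trans h1, h2⟩, (le_max_right _ _).trans h1⟩

lemma restr_lvl_tb (σ : ℕ → Bool) (m n : ℕ) : restr (lvl n) (tb σ m) = tb σ (max m n) := by
  unfold tb
  rw [restr_bOn (ordConnected_lvl n) (isSeg_tail σ m), tail_inter_lvl]

/-- Tails of two branches separated at level `m` are disjoint beyond level `m`. -/
lemma disjoint_tail {σ τ : ℕ → Bool} {m n k : ℕ} (h : res σ k ≠ res τ k) (hk : k ≤ max m n) :
    Disjoint (tail σ m) (tail τ n) := by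
  rw [Set.disjoint_left]
  rintro a ⟨h1, h2⟩ ⟨h3, h4⟩
  apply h
  have h5 : res σ a.len = res τ a.len := by rw [← h2, ← h4]
  exact res_eq_of_ge (hk.trans (max_le h1 h3)) h5

lemma norm_sum_smul_tb_le {ι : Type*} (s : Finset ι) (σ : ι → ℕ → Bool) (m : ι → ℕ)
    (hd : ∀ i ∈ s, ∀ j ∈ s, i ≠ j → Disjoint (tail (σ i) (m i)) (tail (σ j) (m j))) (c : ι → ℝ) :
    ‖∑ i ∈ s, c i • tb (σ i) (m i)‖ ≤ Real.sqrt (∑ i ∈ s, c i ^ 2) :=
  norm_sum_smul_bOn_le s (fun i => tail (σ i) (m i)) (fun _ _ => isSeg_tail _ _) hd c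

lemma finite_below (m : ℕ) : {a : Node | a.len < m}.Finite := List.finite_length_lt Bool m

/-- The nodes of level `< m`. -/
noncomputable def below (m : ℕ) : Finset Node := (finite_below m).toFinset

lemma mem_below {m : ℕ} {a : Node} : a ∈ below m ↔ a.len < m := by
  unfold below; simp

end JTree
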